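import Pool.Agent.H132.LG.Par

/-!
# Polygons, left and right arcs: the canonical decomposition
-/

set_option autoImplicit false

namespace KN.ST

open KN KN.KQ
open scoped Classical

noncomputable section

/-- no gap of a right arc is crossed exactly twice -/
def IR (r : List Dir) : Prop := ∀ c : ℤ, 0 ≤ c → X r c ≠ 2

/-- no gap of a left arc is crossed exactly twice -/
def IL (l : List Dir) : Prop := ∀ c : ℤ, c < 0 → X l c ≠ 2

theorem ra_cut {D : Z3} {R : List Dir} (h : RA D R) {c : ℤ} (hc : 0 ≤ c) (hX : X R c = 2) :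
    ∃ (b : Blk) (R' : List Dir) (D' : Z3), Pc D D' b ∧ RA D' R' ∧ R = Rw1 b R' := by
  have hex : ∃ p ∈ path R, c < p.1 := by
    by_contra hn
    push Not at hn
    rw [X_low hn] at hX
    omega
  obtain ⟨w2, w1, hR, h1, h2⟩ := firstUp hc hex
  have hD1 := h.h0
  have hpR : (pos R).1 = 0 := by rw [h.en]; exact hD1
  have e1 : X w2 (-1) = 1 := by
    rw [hR, X_append] at hX
    simp only [X, pos, Prod.fst_add, h2, vec, X_low h1] at hX
    have e : c - (c + 1) = -1 := by ring
    have h5 : cx .xp c c = 1 := by simp [cx]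
    rw [e, h5] at hX
    omega
  have hp2 : (pos w2).1 = -(c + 1) := by
    rw [hR, pos_append] at hpR
    simp only [pos, Prod.fst_add, h2, vec] at hpR
    omega
  obtain ⟨w4, w3, hw2, h3, h4⟩ := firstDown (w := w2) (c := -1) (by norm_num)
    ⟨_, pos_mem_path _, by omega⟩
  have e2 : X w4 0 = 0 := by
    rw [hw2, X_append] at e1
    have h6 : X w3 (-1) = 0 := X_high h3
    simp only [X, pos, Prod.fst_add, h4, vec, h6] at e1
    have h5 : cx .xm (-1 + 1) (-1) = 1 := by simp [cx]
    have e : (-1 : ℤ) - (-1 + 1 + -1) = 0 := by norm_num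
    rw [e, h5] at e1
    omega
  have h5 := stay_low (le_refl _) e2
  have hRR : R = Rw1 (w1, w4) w3 := by
    rw [hR, hw2]
    simp [Rw1]
  have h40 : (pos w3).1 = 0 := by omega
  have hpath : path R = sh (pos w1 + pos w3) (path w4) ++
      (sh (pos w1 + vec .xp) (path w3) ++ path w1) := by
    rw [hRR, path_Rw1 (b := (w1, w4)) rfl]
  have hnd := h.nd
  rw [hpath] at hnd
  refine ⟨(w1, w4), w3, pos w3, ⟨?_, ?_, ?_, h40, hD1⟩, ⟨?_, ?_, rfl, h40, ?_⟩, hRR⟩
  · unfold pv
    simp only
    exact hnd.sublist (List.Sublist.append (List.Sublist.refl _) (List.sublist_append_right _ _))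
  · intro p hp
    unfold pv at hp
    simp only [List.mem_append] at hp
    have hge : 0 ≤ p.1 := by
      apply h.ge
      rw [hpath]
      rcases hp with hp | hp
      · exact List.mem_append_left _ hp
      · exact List.mem_append_right _ (List.mem_append_right _ hp)
    refine ⟨hge, ?_⟩
    simp only
    rcases hp with hp | hp
    · have := h5 _ (mem_sh.1 hp)
      simp only [Prod.fst_sub, Prod.fst_add] at this
      omega
    · have := h1 _ hp
      omega
  · simp only
    have := h.en
    rw [hRR, pos_Rw1] at this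
    exact this
  · have h6 := (List.nodup_append'.1 hnd).2.1
    exact nodup_sh.1 (List.nodup_append'.1 h6).1
  · intro p hp
    have := h3 p hp
    omega
  · intro h0
    have h6 := (List.nodup_append'.1 hnd).2.1
    have h7 := nodup_sh.1 (List.nodup_append'.1 h6).1
    cases w3 with
    | nil =>
      have h8 := h.nd
      rw [hRR] at h8
      exact no_back (u := w4) (a := .xp) (v := w1) (by simpa [Rw1, neg] using h8)
    | cons a w3 =>
      simp only [path, List.nodup_cons] at h7
      rw [pos] at h0
      rw [h0] at h7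
      exact h7.1 (zero_mem_path w3)

theorem ra_fact (n : ℕ) : ∀ {D : Z3} {R : List Dir}, R.length ≤ n → RA D R →
    ∃ (bs : List Blk) (r : List Dir) (E : Z3), (∀ b ∈ bs, Irr b) ∧ VC D bs E ∧ RA E r ∧ IR r ∧
      R = Rw bs r := by
  induction n with
  | zero =>
    intro D R hR h
    have := List.length_pos_iff.2 (zero_ne_nil (by rw [h.en]; exact h.ne) : R ≠ [])
    omega
  | succ n ih =>
    intro D R hR h
    by_cases hI : IR R
    · exact ⟨[], R, D, by simp, rfl, h, hI, rfl⟩
    · unfold IR at hI
      push Not at hI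
      obtain ⟨c, h0, h1⟩ := hI
      obtain ⟨b, R', D', hb, hR', hRR⟩ := ra_cut h h0 h1
      obtain ⟨bs, k1, k2, k3, -, -⟩ := pfact _ _ _ _ le_rfl hb
      have hlen : R'.length ≤ n := by
        rw [hRR] at hR
        simp only [Rw1, List.length_append, List.length_cons] at hR
        omega
      obtain ⟨cs, r, E, g1, g2, g3, g4, g5⟩ := ih hlen hR'
      refine ⟨bs ++ cs, r, E, ?_, vc_append.2 ⟨D', k2, g2⟩, g3, g4, ?_⟩
      · intro b hb
        rcases List.mem_append.1 hb with hb | hb
        · exact k1 b hb
        · exact g1 b hb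
      · rw [hRR, Rw_append, k3, g5]

/-- crossings of a polygon -/
theorem X_poly {D : Z3} {l r : List Dir} (hl : LA D l) (hr : RA D r) (c : ℤ) :
    X (Poly l r) c = X l (c + 1) + X r c + if c = -1 then 2 else 0 := by
  have hD := hl.h0
  have hpr : (pos r).1 = 0 := by rw [hr.en]; exact hD
  have hpl : (pos l).1 = 0 := by rw [hl.en]; simp [hD]
  have e1 : (pos (l ++ .xm :: r)).1 = -1 := by
    rw [pos_append]
    simp only [pos, Prod.fst_add, vec, hpr, hpl]
    norm_num
  unfold Poly
  simp only [X, e1]
  rw [X_append]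
  simp only [X, pos, Prod.fst_add, vec, hpr]
  have e2 : c - (0 + -1) = c + 1 := by ring
  rw [e2]
  have e3 : cx .xm 0 c = if c = -1 then 1 else 0 := by
    unfold cx
    congr 1
    apply propext
    constructor
    · rintro (⟨h, -⟩ | ⟨-, h⟩)
      · simp at h
      · omega
    · intro h
      exact Or.inr ⟨rfl, by omega⟩
  have e4 : cx .xp (-1) c = if c = -1 then 1 else 0 := by
    unfold cx
    congr 1
    apply propext
    constructor
    · rintro (⟨-, h⟩ | ⟨h, -⟩)
      · omega
      · simp at h
    · intro h
      exact Or.inl ⟨rfl, by omega⟩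
  rw [e3, e4]
  split_ifs <;> ring

theorem LA.X0 {D : Z3} {l : List Dir} (h : LA D l) {c : ℤ} (hc : 0 ≤ c) : X l c = 0 :=
  X_low fun p hp => (h.le p hp).trans hc

theorem RA.X0 {D : Z3} {r : List Dir} (h : RA D r) {c : ℤ} (hc : c < 0) : X r c = 0 :=
  X_high fun p hp => by have := h.ge p hp; omega

/-- the crossings after a rotation -/
theorem X_rot {u v : List Dir} (h : pos (u ++ v) = 0) (c : ℤ) :
    X (v ++ u) (c + (pos u).1) = X (u ++ v) c := by
  have h1 : (pos u).1 = -(pos v).1 := by
    rw [pos_append] at h
    have := congrArg Prod.fst h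
    simp only [Prod.fst_add, Prod.fst_zero] at this
    omega
  rw [X_append, X_append]
  have e1 : c + (pos u).1 - (pos u).1 = c := by ring
  have e2 : c + (pos u).1 = c - (pos v).1 := by rw [h1]; ring
  rw [e1, e2]
  ring

theorem X_rotate {w : List Dir} (h0 : pos w = 0) {k : ℕ} (hk : k ≤ w.length) (c : ℤ) :
    X (w.rotate k) (c + (pos (w.take k)).1) = X w c := by
  rw [List.rotate_eq_drop_append_take hk]
  have e := List.take_append_drop k w
  have := X_rot (u := w.take k) (v := w.drop k) (by rw [e]; exact h0) c
  rw [e] at this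
  exact this

/-- an upward crossing of a gap above the starting point -/
theorem up0 {w : List Dir} {c : ℤ} (hc : 0 ≤ c) (hX : X w c ≠ 0) :
    ∃ u v, w = u ++ .xp :: v ∧ (pos v).1 = c := by
  have hex : ∃ p ∈ path w, c < p.1 := by
    by_contra hn
    push Not at hn
    exact hX (X_low hn)
  obtain ⟨w2, w1, hR, h1, h2⟩ := firstUp hc hex
  exact ⟨w2, w1, hR, h2⟩

/-- a rotation at a gap that is crossed exactly twice -/
theorem cut_rot {w : List Dir} (hw : SAP w) {c : ℤ} (hX : X w c = 2) :
    ∃ (k : ℕ) (l R : List Dir) (D : Z3), k ≤ w.length ∧ w.rotate k = Poly l R ∧ LA D l ∧ RA D R ∧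
      ∃ s : ℤ, c + s = -1 ∧ ∀ c', X (w.rotate k) (c' + s) = X w c' := by
  -- the rotation at the upward crossing
  have key : ∀ (w : List Dir) (c : ℤ), SAP w → 0 ≤ c → X w c = 2 →
      ∃ (k : ℕ) (l R : List Dir) (D : Z3), k ≤ w.length ∧ w.rotate k = Poly l R ∧ LA D l ∧
        RA D R ∧ ∃ s : ℤ, c + s = -1 ∧ ∀ c', X (w.rotate k) (c' + s) = X w c' := by
    intro w c hw hc hX
    obtain ⟨u, v, huv, hv⟩ := up0 (w := w) hc (by omega)
    have hrot : w.rotate u.length = .xp :: (v ++ u) := by
      rw [huv, List.rotate_append_length_eq]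
      rfl
    have hS : SAP (.xp :: (v ++ u)) := by rw [← hrot]; exact ((c_words _ hw).2.2 _).1
    have hul : u.length ≤ w.length := by rw [huv]; simp
    have hpu : (pos u).1 = -(c + 1) := by
      have := hw.2.1
      rw [huv, pos_append] at this
      have := congrArg Prod.fst this
      simp only [pos, Prod.fst_add, Prod.fst_zero, vec, hv] at this
      omega
    have htake : w.take u.length = u := by rw [huv]; simp
    have hXr : ∀ c', X (w.rotate u.length) (c' + -(c + 1)) = X w c' := by
      intro c'
      have := X_rotate hw.2.1 hul c'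
      rw [htake, hpu] at this
      exact this
    have hX1 : X (.xp :: (v ++ u)) (-1) = 2 := by
      have := hXr c
      rw [hrot] at this
      have e : c + -(c + 1) = -1 := by ring
      rw [e] at this
      rw [this, hX]
    have hpt : pos (v ++ u) = vec .xm := by
      have := hS.2.1
      simp only [pos] at this
      rw [eq_neg_of_add_eq_zero_left this]
      decide
    have hX2 : X (v ++ u) (-1) = 1 := by
      simp only [X, hpt] at hX1
      have h5 : cx .xp (vec .xm).1 (-1) = 1 := by simp [cx, vec]
      rw [h5] at hX1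
      omega
    obtain ⟨l, R, h1, h2, h3⟩ := firstDown (w := v ++ u) (c := -1) (by norm_num)
      ⟨_, pos_mem_path _, by rw [hpt]; simp [vec]⟩
    have hXl : X l 0 = 0 := by
      rw [h1, X_append] at hX2
      have h6 : X R (-1) = 0 := X_high h2
      simp only [X, pos, Prod.fst_add, h3, vec, h6] at hX2
      have h5 : cx .xm (-1 + 1) (-1) = 1 := by simp [cx]
      have e : (-1 : ℤ) - (-1 + 1 + -1) = 0 := by norm_num
      rw [e, h5] at hX2
      omega
    have h4 := stay_low (le_refl _) hXl
    have hR0 : (pos R).1 = 0 := by omega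
    have hpl : pos l = -pos R := by
      have : pos (l ++ .xm :: R) = vec .xm := by rw [← h1, hpt]
      rw [pos_append] at this
      simp only [pos] at this
      rw [← add_assoc] at this
      have h5 : pos l + pos R = 0 := by simpa using this
      exact eq_neg_of_add_eq_zero_left h5
    have hnd := hS.2.2
    simp only [path, List.tail_cons] at hnd
    rw [h1, path_poly l rfl] at hnd
    obtain ⟨n1, n2, n3⟩ := List.nodup_append'.1 hnd
    have hne : pos R ≠ 0 := by
      intro h0
      have e1 : R = [] := by
        cases R with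
        | nil => rfl
        | cons a R =>
          simp only [path, List.nodup_cons] at n2
          rw [pos] at h0
          rw [h0] at n2
          exact absurd (zero_mem_path R) n2.1
      have e2 : l = [] := by
        rw [h0, neg_zero] at hpl
        rw [nodup_sh] at n1
        cases l with
        | nil => rfl
        | cons a l =>
          simp only [path, List.nodup_cons] at n1
          rw [pos] at hpl
          rw [hpl] at n1
          exact absurd (zero_mem_path l) n1.1
      have := hS.1
      rw [h1, e1, e2] at this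
      simp at this
    refine ⟨u.length, l, R, pos R, hul, ?_, ⟨nodup_sh.1 n1, h4, hpl, hR0, hne⟩,
      ⟨n2, ?_, rfl, hR0, hne⟩, -(c + 1), by ring, hXr⟩
    · rw [hrot, h1]
      rfl
    · intro p hp
      have := h2 p hp
      omega
  rcases le_or_gt 0 c with hc | hc
  · exact key w c hw hc hX
  · -- first a rotation at the downward crossing
    have hex : ∃ p ∈ path w, p.1 ≤ c := by
      by_contra hn
      push Not at hn
      rw [X_high (fun p hp => by have := hn p hp; omega)] at hX
      omega
    obtain ⟨w2, w1, hR, h1, h2⟩ := firstDown hc hex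
    have hrot : w.rotate w2.length = (.xm :: w1) ++ w2 := by
      rw [hR, List.rotate_append_length_eq]
    have hul : w2.length ≤ w.length := by rw [hR]; simp
    have hpu : (pos w2).1 = -c := by
      have := hw.2.1
      rw [hR, pos_append] at this
      have := congrArg Prod.fst this
      simp only [pos, Prod.fst_add, Prod.fst_zero, vec, h2] at this
      omega
    have htake : w.take w2.length = w2 := by rw [hR]; simp
    have hXr : ∀ c', X (w.rotate w2.length) (c' + -c) = X w c' := by
      intro c'
      have := X_rotate hw.2.1 hul c'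
      rw [htake, hpu] at this
      exact this
    have hS : SAP (w.rotate w2.length) := ((c_words _ hw).2.2 _).1
    have hX0 : X (w.rotate w2.length) 0 = 2 := by
      have := hXr c
      rw [add_neg_cancel] at this
      rw [this, hX]
    obtain ⟨k, l, R, D, hk, g1, g2, g3, s, g4, g5⟩ := key _ 0 hS (le_refl _) hX0
    rw [List.length_rotate] at hk
    rw [List.rotate_rotate] at g1
    refine ⟨(w2.length + k) % w.length, l, R, D, (Nat.mod_lt _ (by have := hw.1; omega)).le, ?_,
      g2, g3, s - c, by omega, ?_⟩
    · rw [List.rotate_mod]; exact g1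
    · intro c'
      rw [List.rotate_mod, ← List.rotate_rotate]
      have := g5 (c' + -c)
      rw [hXr] at this
      rw [← this]
      congr 1
      ring

/-- the canonical decomposition -/
structure Vd (l : List Dir) (bs : List Blk) (r : List Dir) (D E : Z3) : Prop where
  la : LA D l
  il : IL l
  vc : VC D bs E
  ir : ∀ b ∈ bs, Irr b
  ra : RA E r
  rr : IR r

/-- its word -/
def pw3 (x : List Dir × List Blk × List Dir) : List Dir := Poly x.1 (Rw x.2.1 x.2.2)

theorem dec_exists {w : List Dir} (hw : SAP w) (h : ∃ c, X w c = 2) :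
    ∃ (k : ℕ) (x : List Dir × List Blk × List Dir) (D E : Z3), k < w.length ∧
      Vd x.1 x.2.1 x.2.2 D E ∧ w.rotate k = pw3 x := by
  obtain ⟨c, hc, hmin⟩ : ∃ c, X w c = 2 ∧ ∀ c', X w c' = 2 → c ≤ c' := by
    refine Int.exists_least_of_bdd ?_ h
    obtain ⟨lo, hi, g1, -, -⟩ := xt_range w
    refine ⟨lo, fun z hz => ?_⟩
    by_contra hn
    rw [X_high (fun p hp => by have := (g1 p hp).1; omega)] at hz
    omega
  obtain ⟨k, l, R, D, hk, h1, h2, h3, s, h4, h5⟩ := cut_rot hw hc
  obtain ⟨bs, r, E, g1, g2, g3, g4, g5⟩ := ra_fact _ le_rfl h3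
  refine ⟨k % w.length, (l, bs, r), D, E, Nat.mod_lt _ (by have := hw.1; omega),
    ⟨h2, ?_, g2, g1, g3, g4⟩, ?_⟩
  · intro c' hc' hX
    have e1 := X_poly h2 h3 (c' - 1)
    have e0 : c' - 1 + 1 = c' := by ring
    rw [if_neg (by omega), h3.X0 (by omega), e0, hX] at e1
    have e2 := h5 (c' - 1 - s)
    have e3 : c' - 1 - s + s = c' - 1 := by ring
    rw [e3, h1, e1] at e2
    have := hmin _ e2.symm
    omega
  · rw [List.rotate_mod, h1, g5]
    rfl

end

end KN.ST
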