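import Pool.Agent.H132.TB.Arc

/-!
# Uniqueness of the canonical decomposition, extents
-/

set_option autoImplicit false

namespace KN.ST

open KN KN.KQ
open scoped Classical

noncomputable section

theorem xm_split {u u' t t' : List Dir} (h5 : u ++ .xm :: t = u' ++ .xm :: t')
    (h6 : ∀ p ∈ path t, 0 ≤ p.1) (h7 : (pos t').1 = 0) : u'.length ≤ u.length := by
  by_contra hn
  push Not at hn
  have s1 : (Dir.xm :: t') <:+ (u ++ .xm :: t) := ⟨u', h5.symm⟩
  have s2 : t <:+ (u ++ .xm :: t) := ⟨u ++ [.xm], by simp⟩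
  have hlen := congrArg List.length h5
  simp only [List.length_append, List.length_cons] at hlen
  have h8 := List.suffix_of_suffix_length_le s1 s2 (by simp only [List.length_cons]; omega)
  obtain ⟨z, hz⟩ := h8
  have h9 := h6 (pos (.xm :: t')) (by
    rw [← hz, path_append]
    exact List.mem_append_right _ (pos_mem_path _))
  simp [pos, vec, h7] at h9

theorem poly_inj {D D' : Z3} {l l' R R' : List Dir} (hR : RA D R) (hR' : RA D' R')
    (h : Poly l R = Poly l' R') : l = l' ∧ R = R' := by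
  unfold Poly at h
  rw [List.cons.injEq] at h
  have h4 := h.2
  have m1 := xm_split h4 hR.ge (by rw [hR'.en]; exact hR'.h0)
  have m2 := xm_split h4.symm hR'.ge (by rw [hR.en]; exact hR.h0)
  have h5 := List.append_inj h4 (le_antisymm m2 m1)
  refine ⟨h5.1, ?_⟩
  simpa using h5.2

theorem rw_uniq {bs : List Blk} : ∀ {bs' : List Blk} {r r' : List Dir} {D E D' E' : Z3},
    Rw bs r = Rw bs' r' → (∀ b ∈ bs, Irr b) → (∀ b ∈ bs', Irr b) → VC D bs E → VC D' bs' E' →
    RA E r → RA E' r' → IR r → IR r' → bs = bs' ∧ r = r' := by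
  induction bs with
  | nil =>
    intro bs' r r' D E D' E' h _ _ _ hV' ha ha' hi hi'
    cases bs' with
    | nil => simp only [Rw] at h; exact ⟨rfl, h⟩
    | cons b' bs' =>
      exfalso
      simp only [Rw] at h
      have h2 := (X_Rw1 hV'.1 (hV'.2.ra ha') hV'.1.pos1).2 rfl
      rw [← h] at h2
      exact hi _ hV'.1.pos1 h2
  | cons b bs ih =>
    intro bs' r r' D E D' E' h hI hI' hV hV' ha ha' hi hi'
    cases bs' with
    | nil =>
      exfalso
      simp only [Rw] at h
      have h2 := (X_Rw1 hV.1 (hV.2.ra ha) hV.1.pos1).2 rfl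
      rw [h] at h2
      exact hi' _ hV.1.pos1 h2
    | cons b' bs' =>
      have hr := hV.2.ra ha
      have hr' := hV'.2.ra ha'
      have hIb := hI b List.mem_cons_self
      have hIb' := hI' b' List.mem_cons_self
      simp only [Rw] at h
      have hj : (pos b.1).1 = (pos b'.1).1 := by
        rcases lt_trichotomy (pos b.1).1 (pos b'.1).1 with h1 | h1 | h1
        · exfalso
          have h2 := (X_Rw1 hV.1 hr hV.1.pos1).2 rfl
          rw [h, (X_Rw1 hV'.1 hr' hV.1.pos1).1 h1] at h2
          exact hIb' _ hV.1.pos1 h1 h2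
        · exact h1
        · exfalso
          have h2 := (X_Rw1 hV'.1 hr' hV'.1.pos1).2 rfl
          rw [← h, (X_Rw1 hV.1 hr hV'.1.pos1).1 h1] at h2
          exact hIb _ hV'.1.pos1 h1 h2
      have e1 : Rw1 b (Rw bs r) = (b.2 ++ .xm :: Rw bs r) ++ .xp :: b.1 := by simp [Rw1]
      have e2 : Rw1 b (Rw bs r) = (b'.2 ++ .xm :: Rw bs' r') ++ .xp :: b'.1 := by
        rw [h]; simp [Rw1]
      have l1 := suffix_le e1 e2 rfl (fun p hp => by
        rw [hj]; exact (hV'.1.rg p (List.mem_append_right _ hp)).2)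
      have l2 := suffix_le e2 e1 rfl (fun p hp => by
        rw [← hj]; exact (hV.1.rg p (List.mem_append_right _ hp)).2)
      have hl : b.1.length = b'.1.length := le_antisymm l2 l1
      rw [e1] at e2
      have h3 := List.append_inj' e2 (by simp [hl])
      have hb1 : b.1 = b'.1 := by
        have := h3.2
        simpa using this
      have h4 := h3.1
      have m1 := xm_split h4 hr.ge (by rw [hr'.en]; exact hr'.h0)
      have m2 := xm_split h4.symm hr'.ge (by rw [hr.en]; exact hr.h0)
      have h5 := List.append_inj h4 (le_antisymm m2 m1)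
      have hb2 := h5.1
      have h6 : Rw bs r = Rw bs' r' := by simpa using h5.2
      obtain ⟨h7, h8⟩ := ih h6 (fun c hc => hI c (List.mem_cons_of_mem _ hc))
        (fun c hc => hI' c (List.mem_cons_of_mem _ hc)) hV.2 hV'.2 ha ha' hi hi'
      refine ⟨?_, h8⟩
      rw [h7]
      congr 1
      exact Prod.ext hb1 hb2

theorem Vd.r {l : List Dir} {bs : List Blk} {r : List Dir} {D E : Z3} (h : Vd l bs r D E) :
    RA D (Rw bs r) := h.vc.ra h.ra

theorem Vd.sap {l : List Dir} {bs : List Blk} {r : List Dir} {D E : Z3} (h : Vd l bs r D E) :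
    SAP (Poly l (Rw bs r)) := sap_poly h.la h.r

theorem pw3_inj {x x' : List Dir × List Blk × List Dir} {D E D' E' : Z3}
    (h : Vd x.1 x.2.1 x.2.2 D E) (h' : Vd x'.1 x'.2.1 x'.2.2 D' E') (he : pw3 x = pw3 x') :
    x = x' := by
  obtain ⟨h1, h2⟩ := poly_inj h.r h'.r he
  obtain ⟨h3, h4⟩ := rw_uniq h2 h.ir h'.ir h.vc h'.vc h.ra h'.ra h.rr h'.rr
  exact Prod.ext h1 (Prod.ext h3 h4)

theorem poly_rot_uniq {D D' : Z3} {l l' R R' : List Dir} (hl : LA D l) (hR : RA D R)
    (hl' : LA D' l') (hR' : RA D' R') (hi : IL l) (hi' : IL l') {i : ℕ}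
    (hlt : i < (Poly l R).length) (he : (Poly l R).rotate i = Poly l' R') : i = 0 := by
  by_contra hi0
  have hS := sap_poly hl hR
  set P := Poly l R with hP
  obtain ⟨u, v, hu, hv, huv⟩ : ∃ u v, u.length = i ∧ v ≠ [] ∧ P = u ++ v := by
    refine ⟨P.take i, P.drop i, by rw [List.length_take]; omega, ?_,
      (List.take_append_drop i P).symm⟩
    intro h
    rw [List.drop_eq_nil_iff] at h
    omega
  have hrot : P.rotate i = v ++ u := by
    rw [huv, ← hu, List.rotate_append_length_eq]
  rw [hrot] at he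
  obtain ⟨a, v', rfl⟩ : ∃ a v', v = a :: v' := by
    cases v with
    | nil => exact absurd rfl hv
    | cons a v' => exact ⟨a, v', rfl⟩
  have ha : a = .xp := by
    have := he
    simp only [Poly, List.cons_append, List.cons.injEq] at this
    exact this.1
  subst ha
  set g := (pos v').1 with hg
  have h0 : pos (u ++ Dir.xp :: v') = 0 := by rw [← huv]; exact hS.2.1
  have hpu : (pos u).1 = -(g + 1) := by
    have := congrArg Prod.fst h0
    rw [pos_append] at this
    simp only [pos, Prod.fst_add, Prod.fst_zero, vec] at this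
    omega
  have hX : ∀ c, X (Poly l' R') (c + -(g + 1)) = X P c := by
    intro c
    have := X_rot h0 c
    rw [hpu, he, ← huv] at this
    exact this
  have hX1 : X P (-1) = 2 := by
    rw [hP, X_poly hl hR, if_pos rfl, hR.X0 (by norm_num), hl.X0 (by norm_num)]
  have hX2 : X (Poly l' R') (-1) = 2 := by
    rw [X_poly hl' hR', if_pos rfl, hR'.X0 (by norm_num), hl'.X0 (by norm_num)]
  rcases lt_trichotomy g (-1) with h | h | h
  · have h1 := hX g
    have e : g + -(g + 1) = -1 := by ring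
    rw [e, hX2, hP, X_poly hl hR, if_neg (by omega), hR.X0 (by omega)] at h1
    exact hi (g + 1) (by omega) (by omega)
  · -- the same crossing
    have hu0 : u ≠ [] := by
      intro h1
      rw [h1] at hu
      exact hi0 hu.symm
    obtain ⟨b, u', rfl⟩ : ∃ b u', u = b :: u' := by
      cases u with
      | nil => exact absurd rfl hu0
      | cons b u' => exact ⟨b, u', rfl⟩
    have h1 : P = .xp :: (l ++ .xm :: R) := rfl
    rw [h1] at huv
    simp only [List.cons_append, List.cons.injEq] at huv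
    have hpt : (pos (l ++ .xm :: R)).1 = -1 := by
      have := congrArg Prod.fst hS.2.1
      rw [h1] at this
      simp only [pos, Prod.fst_add, Prod.fst_zero, vec] at this
      omega
    have h2 : X (l ++ .xm :: R) (-1) = 1 := by
      rw [h1] at hX1
      simp only [X, hpt] at hX1
      have h5 : cx .xp (-1) (-1) = 1 := by simp [cx]
      rw [h5] at hX1
      omega
    rw [huv.2, X_append] at h2
    simp only [X] at h2
    rw [← hg, h] at h2
    have h5 : cx .xp (-1) (-1) = 1 := by simp [cx]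
    rw [h5] at h2
    have h6 : 1 ≤ X v' (-1) := X_pos_down (by norm_num) ⟨_, pos_mem_path _, by omega⟩
    omega
  · have h1 := hX (-1)
    rw [hX1, X_poly hl' hR', if_neg (by omega), hR'.X0 (by omega)] at h1
    exact hi' (-1 + -(g + 1) + 1) (by omega) (by omega)

theorem pw3_rot {x x' : List Dir × List Blk × List Dir} {D E D' E' : Z3}
    (h : Vd x.1 x.2.1 x.2.2 D E) (h' : Vd x'.1 x'.2.1 x'.2.2 D' E') {i i' L : ℕ}
    (hL : (pw3 x).length = L) (hL' : (pw3 x').length = L) (hi : i < L) (hi' : i' < L)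
    (he : (pw3 x).rotate i = (pw3 x').rotate i') : i = i' ∧ x = x' := by
  have h1 := congrArg (fun l => l.rotate (L - i')) he
  simp only [List.rotate_rotate] at h1
  have e1 : i' + (L - i') = (pw3 x').length := by omega
  rw [e1, List.rotate_length, ← List.rotate_mod, hL] at h1
  have h2 := poly_rot_uniq h.la h.r h'.la h'.r h.il h'.il (i := (i + (L - i')) % L)
    (by
      have : (Poly x.1 (Rw x.2.1 x.2.2)).length = L := hL
      rw [this]
      exact Nat.mod_lt _ (by omega)) h1
  have h3 : i = i' := by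
    rcases lt_or_ge i i' with h4 | h4
    · rw [Nat.mod_eq_of_lt (by omega)] at h2
      omega
    · have : i + (L - i') = (i - i') + L := by omega
      rw [this, Nat.add_mod_right, Nat.mod_eq_of_lt (by omega)] at h2
      omega
  subst h3
  exact ⟨rfl, pw3_inj h h' (List.rotate_injective _ he)⟩

/-! ### extents -/

theorem LA.rng {D : Z3} {l : List Dir} (h : LA D l) :
    (∀ p ∈ path l, -(xt l : ℤ) ≤ p.1 ∧ p.1 ≤ 0) ∧ ∃ p ∈ path l, p.1 = -(xt l : ℤ) := by
  obtain ⟨lo, hi, g1, ⟨p, hp, e1⟩, ⟨q, hq, e2⟩⟩ := xt_range l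
  have h0 := g1 0 (zero_mem_path l)
  have h1 := h.le q hq
  have hhi : hi = 0 := le_antisymm (by omega) (by simpa using h0.2)
  have hx := xt_eq g1 ⟨p, hp, e1⟩ ⟨q, hq, e2⟩
  have hlo : lo ≤ 0 := by simpa using h0.1
  have e : (xt l : ℤ) = -lo := by rw [hx]; omega
  refine ⟨fun r hr => ?_, p, hp, by omega⟩
  have := g1 r hr
  omega

theorem RA.rng {D : Z3} {r : List Dir} (h : RA D r) :
    (∀ p ∈ path r, 0 ≤ p.1 ∧ p.1 ≤ (xt r : ℤ)) ∧ ∃ p ∈ path r, p.1 = (xt r : ℤ) := by
  obtain ⟨lo, hi, g1, ⟨p, hp, e1⟩, ⟨q, hq, e2⟩⟩ := xt_range r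
  have h0 := g1 0 (zero_mem_path r)
  have h1 := h.ge p hp
  have hlo : lo = 0 := le_antisymm (by simpa using h0.1) (by omega)
  have hx := xt_eq g1 ⟨p, hp, e1⟩ ⟨q, hq, e2⟩
  have hhi : 0 ≤ hi := by simpa using h0.2
  have e : (xt r : ℤ) = hi := by rw [hx]; omega
  refine ⟨fun r hr => ?_, q, hq, by omega⟩
  have := g1 r hr
  omega

theorem mem_poly {D : Z3} {l r : List Dir} (hl : LA D l) (hr : RA D r) (p : Z3) :
    p ∈ path (Poly l r) ↔ p - (D + vec .xm) ∈ path l ∨ p ∈ path r := by
  have h1 : path (Poly l r) = 0 :: (sh (D + vec .xm) (path l) ++ path r) := by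
    rw [← path_poly l hr.en]
    have := (sap_poly hl hr).2.1
    unfold Poly at this ⊢
    rw [path]
    rw [pos] at this
    rw [this]
  rw [h1, List.mem_cons, List.mem_append, mem_sh]
  constructor
  · rintro (h | h | h)
    · right; rw [h]; exact zero_mem_path r
    · exact Or.inl h
    · exact Or.inr h
  · rintro (h | h)
    · exact Or.inr (Or.inl h)
    · exact Or.inr (Or.inr h)

theorem xt_poly {D : Z3} {l r : List Dir} (hl : LA D l) (hr : RA D r) :
    xt (Poly l r) = xt l + 1 + xt r := by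
  obtain ⟨g1, p, hp, e1⟩ := hl.rng
  obtain ⟨k1, q, hq, e2⟩ := hr.rng
  have hD := hl.h0
  rw [xt_eq (lo := -(xt l : ℤ) - 1) (hi := xt r)]
  · omega
  · intro t ht
    rw [mem_poly hl hr] at ht
    rcases ht with ht | ht
    · have := g1 _ ht
      simp only [Prod.fst_sub, Prod.fst_add, vec, hD] at this
      omega
    · have := k1 _ ht
      omega
  · refine ⟨p + (D + vec .xm), (mem_poly hl hr _).2 (Or.inl (by simpa using hp)), ?_⟩
    simp only [Prod.fst_add, vec, hD, e1]
    ring
  · exact ⟨q, (mem_poly hl hr _).2 (Or.inr hq), e2⟩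

theorem mem_Rw1 {b : Blk} {D' : Z3} {R : List Dir} (hR : pos R = D') (p : Z3) :
    p ∈ path (Rw1 b R) ↔ p ∈ pv b D' ∨ p - (pos b.1 + vec .xp) ∈ path R := by
  rw [path_Rw1 hR]
  unfold pv
  simp only [List.mem_append, mem_sh]
  tauto

theorem xt_Rw1 {D D' : Z3} {b : Blk} {R : List Dir} (hb : Pc D D' b) (hR : RA D' R) :
    xt (Rw1 b R) = wd b + 1 + xt R := by
  obtain ⟨k1, q, hq, e2⟩ := hR.rng
  have hj := hb.pos1
  rw [xt_eq (lo := 0) (hi := (pos b.1).1 + 1 + xt R)]
  · unfold wd
    omega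
  · intro t ht
    rw [mem_Rw1 hR.en] at ht
    rcases ht with ht | ht
    · have := hb.rg _ ht
      omega
    · have := k1 _ ht
      simp only [Prod.fst_sub, Prod.fst_add, vec] at this
      omega
  · exact ⟨0, zero_mem_path _, rfl⟩
  · refine ⟨q + (pos b.1 + vec .xp), (mem_Rw1 hR.en _).2 (Or.inr (by simpa using hq)), ?_⟩
    simp only [Prod.fst_add, vec, e2]
    ring

theorem xt_Rw {bs : List Blk} : ∀ {D E : Z3} {r : List Dir}, VC D bs E → RA E r →
    xt (Rw bs r) = sp bs + xt r := by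
  induction bs with
  | nil => intro D E r _ _; simp [Rw, sp]
  | cons b bs ih =>
    intro D E r h hr
    simp only [Rw]
    rw [xt_Rw1 h.1 (h.2.ra hr), ih h.2 hr, sp_cons]
    ring

theorem len_pw3 (x : List Dir × List Blk × List Dir) :
    (pw3 x).length = x.1.length + x.2.2.length + 2 + ln x.2.1 := by
  simp only [pw3, Poly, List.length_cons, List.length_append, length_Rw]
  ring

theorem xt_pw3 {x : List Dir × List Blk × List Dir} {D E : Z3} (h : Vd x.1 x.2.1 x.2.2 D E) :
    xt (pw3 x) = xt x.1 + 1 + sp x.2.1 + xt x.2.2 := by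
  unfold pw3
  rw [xt_poly h.la h.r, xt_Rw h.vc h.ra]
  ring

theorem xc_le (w : List Dir) : xc w ≤ w.length := by
  have := nl_xc w
  omega

/-- words without gaps that are crossed exactly twice are long -/
theorem four_xt {w : List Dir} (h0 : (pos w).1 = 0) (h : ∀ c, X w c ≠ 2) :
    4 * xt w ≤ w.length := by
  obtain ⟨lo, hi, g1, ⟨p, hp, e1⟩, ⟨q, hq, e2⟩⟩ := xt_range w
  rw [xt_eq g1 ⟨p, hp, e1⟩ ⟨q, hq, e2⟩]
  have hz := g1 0 (zero_mem_path w)
  simp only [Prod.fst_zero] at hz
  have h2 : ∑ _c ∈ Finset.Ico lo hi, 4 ≤ ∑ c ∈ Finset.Ico lo hi, X w (c - 0) := by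
    refine Finset.sum_le_sum fun c hc => ?_
    rw [Finset.mem_Ico] at hc
    rw [sub_zero]
    have h5 := X_par w c
    rw [if_neg (by omega)] at h5
    have h6 : 1 ≤ X w c := by
      rcases le_or_gt 0 c with h7 | h7
      · exact X_pos_up h7 ⟨q, hq, by omega⟩
      · exact X_pos_down h7 ⟨p, hp, by omega⟩
    have h7 := h c
    omega
  have h3 := sum_X_le w 0 (Finset.Ico lo hi)
  have h4 := xc_le w
  rw [Finset.sum_const, smul_eq_mul, Int.card_Ico] at h2
  omega

theorem LA.four {D : Z3} {l : List Dir} (h : LA D l) (hI : IL l) : 4 * xt l ≤ l.length := by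
  refine four_xt (by rw [h.en]; simp [h.h0]) fun c => ?_
  rcases le_or_gt 0 c with h1 | h1
  · rw [h.X0 h1]; norm_num
  · exact hI c h1

theorem RA.four {D : Z3} {r : List Dir} (h : RA D r) (hI : IR r) : 4 * xt r ≤ r.length := by
  refine four_xt (by rw [h.en]; exact h.h0) fun c => ?_
  rcases le_or_gt 0 c with h1 | h1
  · exact hI c h1
  · rw [h.X0 h1]; norm_num

end

end KN.ST
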