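import Pool.Agent.H132.TB.Mr3

/-!
# Sequences of polynomial growth times a geometric sequence
-/

set_option autoImplicit false

namespace TubeRen

open Filter Topology Finset PowerSeries
open scoped ENNReal

/-- binomial coefficients as a scale -/
noncomputable def P (j m : ℕ) : ℝ := ((m + j).choose j : ℝ)

theorem P_pos (j m : ℕ) : 0 < P j m := by
  unfold P
  exact_mod_cast Nat.choose_pos (Nat.le_add_left j m)

theorem P_zero (m : ℕ) : P 0 m = 1 := by simp [P]

theorem P_mono (j : ℕ) {m n : ℕ} (h : m ≤ n) : P j m ≤ P j n := by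
  unfold P
  exact_mod_cast Nat.choose_le_choose j (by omega)

theorem P_sum (j m : ℕ) : ∑ k ∈ range (m + 1), P j k = P (j + 1) m := by
  induction m with
  | zero => simp [P]
  | succ m ih =>
    rw [sum_range_succ, ih]
    unfold P
    have h : (m + 1 + (j + 1)).choose (j + 1) = (m + (j + 1)).choose (j + 1) +
        (m + 1 + j).choose j := by
      have e1 : m + 1 + (j + 1) = (m + 1 + j) + 1 := by ring
      have e2 : m + (j + 1) = m + 1 + j := by ring
      rw [e1, e2, Nat.choose_succ_succ, add_comm]
    rw [h]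
    push_cast
    ring

theorem P_step (j m : ℕ) : P j (m + 1) * (m + 1) = P j m * (m + 1 + j) := by
  unfold P
  have h := Nat.choose_mul_succ_eq (m + j) j
  have e : m + j + 1 - j = m + 1 := by omega
  have e2 : m + 1 + j = m + j + 1 := by ring
  rw [e] at h
  rw [e2]
  have h' : ((m + j).choose j : ℝ) * (m + j + 1) = ((m + j + 1).choose j : ℝ) * (m + 1) := by
    exact_mod_cast h
  rw [← h']
  ring

theorem P_up (j m : ℕ) : P (j + 1) m * (j + 1) = P j m * (m + 1 + j) := by
  unfold P
  have h := Nat.add_one_mul_choose_eq (m + j) j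
  have e : m + (j + 1) = m + j + 1 := by ring
  rw [e]
  have h' : ((m : ℝ) + j + 1) * ((m + j).choose j : ℝ) =
      ((m + j + 1).choose (j + 1) : ℝ) * (j + 1) := by exact_mod_cast h
  rw [← h']
  ring

theorem P_ratio (j : ℕ) : Tendsto (fun m => P j m / P j (m + 1)) atTop (𝓝 1) := by
  have h1 : ∀ m : ℕ, P j m / P j (m + 1) = 1 - j / (m + 1 + j) := by
    intro m
    have h2 := P_step j m
    have h3 := P_pos j (m + 1)
    have h4 : (0 : ℝ) < m + 1 + j := by positivity
    rw [div_eq_iff h3.ne', sub_mul, one_mul]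
    have h5 : (j : ℝ) / (m + 1 + j) * P j (m + 1) = P j (m + 1) - P j m := by
      rw [div_mul_eq_mul_div, div_eq_iff h4.ne']
      nlinarith
    rw [h5]
    ring
  simp only [h1]
  have h2 : Tendsto (fun m : ℕ => (j : ℝ) / ((m : ℝ) + 1 + j)) atTop (𝓝 0) := by
    refine Tendsto.div_atTop tendsto_const_nhds ?_
    refine tendsto_atTop_add_const_right _ _ (tendsto_atTop_add_const_right _ _ ?_)
    exact tendsto_natCast_atTop_atTop
  simpa using h2.const_sub 1

theorem P_shift (j a : ℕ) : Tendsto (fun m => P j (m - a) / P j m) atTop (𝓝 1) := by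
  have h1 : Tendsto (fun m => P j m / P j (m + a)) atTop (𝓝 1) := by
    induction a with
    | zero =>
      refine tendsto_const_nhds.congr fun m => ?_
      rw [add_zero, div_self (P_pos j m).ne']
    | succ a ih =>
      have h2 := ih.mul ((P_ratio j).comp (tendsto_add_atTop_nat a))
      rw [one_mul] at h2
      refine h2.congr fun m => ?_
      simp only [Function.comp]
      rw [← add_assoc, div_mul_div_comm, mul_comm (P j m), mul_div_mul_left _ _ (P_pos j _).ne']
  have h2 := h1.comp (tendsto_sub_atTop_nat a)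
  refine h2.congr' ?_
  filter_upwards [eventually_ge_atTop a] with m hm
  simp only [Function.comp]
  rw [Nat.sub_add_cancel hm]

theorem P_pow (j : ℕ) : Tendsto (fun m : ℕ => P j m / (m : ℝ) ^ j) atTop
    (𝓝 (1 / (j.factorial : ℝ))) := by
  induction j with
  | zero =>
    simp only [P_zero, pow_zero, Nat.factorial_zero, Nat.cast_one]
    exact tendsto_const_nhds
  | succ j ih =>
    have h1 : Tendsto (fun m : ℕ => ((m : ℝ) + 1 + j) / (m * (j + 1))) atTop
        (𝓝 (1 / (j + 1 : ℝ))) := by
      have h2 : Tendsto (fun m : ℕ => (1 + (1 + j : ℝ) / m) * (1 / (j + 1))) atTop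
          (𝓝 ((1 + 0) * (1 / (j + 1 : ℝ)))) := by
        refine Tendsto.mul_const _ (Tendsto.const_add _ ?_)
        exact Tendsto.div_atTop tendsto_const_nhds tendsto_natCast_atTop_atTop
      rw [add_zero, one_mul] at h2
      refine h2.congr' ?_
      filter_upwards [eventually_gt_atTop 0] with m hm
      have : (0 : ℝ) < m := by exact_mod_cast hm
      field_simp
      ring
    have h3 := ih.mul h1
    have e : (1 : ℝ) / ((j + 1).factorial : ℝ) = 1 / (j.factorial : ℝ) * (1 / (j + 1)) := by
      rw [Nat.factorial_succ]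
      push_cast
      have : (j.factorial : ℝ) ≠ 0 := by positivity
      field_simp
    rw [e]
    refine h3.congr' ?_
    filter_upwards [eventually_gt_atTop 0] with m hm
    have hm' : (0 : ℝ) < m := by exact_mod_cast hm
    have h4 := P_up j m
    have h5 : P (j + 1) m = P j m * (m + 1 + j) / (j + 1) := by
      rw [eq_div_iff (by positivity)]; exact h4
    rw [h5]
    field_simp
    ring

theorem P_ge (j m : ℕ) : P j m * (m + 1) ≤ (j + 1) * P (j + 1) m := by
  have h := P_up j m
  have h1 := P_pos j m
  nlinarith [mul_nonneg h1.le (Nat.cast_nonneg (α := ℝ) j)]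

/-- the growth of a sequence -/
structure As (z : ℝ) (j : ℕ) (G : ℕ → ℝ≥0∞) (C g : ℝ) : Prop where
  bd : ∀ m, G m * ENNReal.ofReal (z ^ m) ≤ ENNReal.ofReal (C * P j m)
  lim : Tendsto (fun m => (G m).toReal * z ^ m / P j m) atTop (𝓝 g)

variable {z : ℝ} {j : ℕ} {C g : ℝ}

theorem As.fin {G : ℕ → ℝ≥0∞} (h : As z j G C g) (hz : 0 < z) (m : ℕ) : G m ≠ ⊤ := by
  intro hc
  have h1 := h.bd m
  rw [hc, ENNReal.top_mul (by
    have : 0 < z ^ m := by positivity
    simpa using this)] at h1
  exact absurd h1 (by simp)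

theorem As.nonneg {G : ℕ → ℝ≥0∞} (h : As z j G C g) (hz : 0 < z) : 0 ≤ g := by
  refine ge_of_tendsto h.lim (Eventually.of_forall fun m => ?_)
  have := P_pos j m
  have : 0 ≤ (G m).toReal := ENNReal.toReal_nonneg
  positivity

theorem As.bdr {G : ℕ → ℝ≥0∞} (h : As z j G C g) (hz : 0 < z) (hC : 0 ≤ C) (m : ℕ) :
    (G m).toReal * z ^ m ≤ C * P j m := by
  have h1 := ENNReal.toReal_mono (by simp) (h.bd m)
  rw [ENNReal.toReal_mul, ENNReal.toReal_ofReal (by positivity),
    ENNReal.toReal_ofReal (by have := P_pos j m; positivity)] at h1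
  exact h1

theorem As.zero : As z j (fun _ => 0) C 0 :=
  ⟨fun m => by simp, by simp⟩

theorem As.sum {ι : Type} (s : Finset ι) {G : ι → ℕ → ℝ≥0∞} {γ : ι → ℝ} (hz : 0 < z)
    (h : ∀ i, As z j (G i) C (γ i)) :
    As z j (fun m => ∑ i ∈ s, G i m) (s.card * C) (∑ i ∈ s, γ i) := by
  classical
  refine ⟨fun m => ?_, ?_⟩
  · rw [sum_mul]
    refine (sum_le_sum fun i _ => (h i).bd m).trans ?_
    rw [sum_const, nsmul_eq_mul, mul_assoc, ENNReal.ofReal_mul (p := (s.card : ℝ))
      (Nat.cast_nonneg _), ENNReal.ofReal_natCast]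
  · have h1 := tendsto_finsetSum s fun i _ => (h i).lim
    refine h1.congr fun m => ?_
    rw [ENNReal.toReal_sum (fun i _ => (h i).fin hz m), sum_mul, sum_div]

/-- sums of shifted sequences -/
theorem As.mix {ι : Type} {c : ι → ℝ≥0∞} {a : ι → ℕ} {G : ι → ℕ → ℝ≥0∞} {γ : ι → ℝ} {M : ℝ}
    (hz : 0 < z) (hC : 0 ≤ C) (hM : 0 ≤ M) (h : ∀ i, As z j (G i) C (γ i))
    (hc : ∑' i, c i * ENNReal.ofReal (z ^ a i) ≤ ENNReal.ofReal M) :
    ∃ g', As z j (fun m => ∑' i, if a i ≤ m then c i * G i (m - a i) else 0) (M * C) g' ∧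
      (0 < g' ↔ ∃ i, c i ≠ 0 ∧ 0 < γ i) := by
  have hct : ∑' i, c i * ENNReal.ofReal (z ^ a i) ≠ ⊤ := ne_top_of_le_ne_top (by simp) hc
  have hci : ∀ i, c i ≠ ⊤ := by
    intro i hi
    have h1 := ENNReal.le_tsum (f := fun i => c i * ENNReal.ofReal (z ^ a i)) i
    rw [hi, ENNReal.top_mul (by
      have : 0 < z ^ a i := by positivity
      simpa using this)] at h1
    exact hct (top_le_iff.1 h1)
  have hsum : Summable fun i => (c i).toReal * z ^ a i := by
    refine (ENNReal.summable_toReal hct).congr fun i => ?_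
    rw [ENNReal.toReal_mul, ENNReal.toReal_ofReal (by positivity)]
  have hbd : ∀ m i, (if a i ≤ m then c i * G i (m - a i) else 0) * ENNReal.ofReal (z ^ m) ≤
      c i * ENNReal.ofReal (z ^ a i) * ENNReal.ofReal (C * P j m) := by
    intro m i
    split_ifs with hi
    · have e : z ^ m = z ^ a i * z ^ (m - a i) := by rw [← pow_add]; congr 1; omega
      rw [e, ENNReal.ofReal_mul (by positivity)]
      calc c i * G i (m - a i) * (ENNReal.ofReal (z ^ a i) * ENNReal.ofReal (z ^ (m - a i))) =
            c i * ENNReal.ofReal (z ^ a i) *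
              (G i (m - a i) * ENNReal.ofReal (z ^ (m - a i))) := by ring
        _ ≤ c i * ENNReal.ofReal (z ^ a i) * ENNReal.ofReal (C * P j (m - a i)) :=
            mul_le_mul_right ((h i).bd _) _
        _ ≤ _ := by
            refine mul_le_mul_right (ENNReal.ofReal_le_ofReal ?_) _
            exact mul_le_mul_of_nonneg_left (P_mono j (Nat.sub_le _ _)) hC
    · rw [zero_mul]; exact zero_le
  have hB : ∀ m, (∑' i, if a i ≤ m then c i * G i (m - a i) else 0) * ENNReal.ofReal (z ^ m) ≤
      ENNReal.ofReal (M * C * P j m) := by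
    intro m
    rw [← ENNReal.tsum_mul_right]
    refine (ENNReal.tsum_le_tsum fun i => hbd m i).trans ?_
    rw [ENNReal.tsum_mul_right, mul_assoc M, ENNReal.ofReal_mul hM]
    exact mul_le_mul_left hc _
  refine ⟨∑' i, (c i).toReal * z ^ a i * γ i, ⟨hB, ?_⟩, ?_⟩
  · have hdom : Tendsto (fun m => ∑' i, (if a i ≤ m then (c i).toReal * z ^ a i *
        (((G i (m - a i)).toReal * z ^ (m - a i) / P j (m - a i)) * (P j (m - a i) / P j m))
          else 0)) atTop (𝓝 (∑' i, (c i).toReal * z ^ a i * γ i)) := by
      refine tendsto_tsum_of_dominated_convergence (bound := fun i =>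
        (c i).toReal * z ^ a i * C) (hsum.mul_right C) (fun i => ?_) ?_
      · have h1 : Tendsto (fun m => (G i (m - a i)).toReal * z ^ (m - a i) / P j (m - a i)) atTop
            (𝓝 (γ i)) := (h i).lim.comp (tendsto_sub_atTop_nat (a i))
        have h2 := (h1.mul (P_shift j (a i))).const_mul ((c i).toReal * z ^ a i)
        rw [mul_one] at h2
        refine h2.congr' ?_
        filter_upwards [eventually_ge_atTop (a i)] with m hm
        rw [if_pos hm]
      · refine Eventually.of_forall fun m i => ?_
        have hci0 : 0 ≤ (c i).toReal := ENNReal.toReal_nonneg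
        split_ifs with hi
        · have h1 := (h i).bdr hz hC (m - a i)
          have h2 := P_pos j (m - a i)
          have h3 := P_pos j m
          have h4 : (G i (m - a i)).toReal * z ^ (m - a i) / P j (m - a i) ≤ C := by
            rw [div_le_iff₀ h2]; exact h1
          have h5 : P j (m - a i) / P j m ≤ 1 := by
            rw [div_le_one h3]; exact P_mono j (Nat.sub_le _ _)
          have h6 : 0 ≤ (G i (m - a i)).toReal := ENNReal.toReal_nonneg
          rw [Real.norm_of_nonneg (by positivity)]
          refine mul_le_mul_of_nonneg_left ?_ (by positivity)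
          calc _ ≤ C * 1 := mul_le_mul h4 h5 (by positivity) hC
            _ = C := mul_one C
        · rw [norm_zero]; positivity
    refine hdom.congr fun m => ?_
    have hft : ∀ i, (if a i ≤ m then c i * G i (m - a i) else 0) ≠ ⊤ := by
      intro i
      split_ifs
      · exact ENNReal.mul_ne_top (hci i) ((h i).fin hz _)
      · simp
    rw [ENNReal.tsum_toReal_eq hft, ← tsum_mul_right, ← tsum_div_const]
    refine tsum_congr fun i => ?_
    split_ifs with hi
    · have e : z ^ m = z ^ a i * z ^ (m - a i) := by rw [← pow_add]; congr 1; omega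
      have h2 := P_pos j (m - a i)
      have h3 := P_pos j m
      rw [ENNReal.toReal_mul, e]
      field_simp
    · simp
  · have hnn : ∀ i, 0 ≤ (c i).toReal * z ^ a i * γ i := fun i => by
      have h1 := (h i).nonneg hz
      have h2 : 0 ≤ (c i).toReal := ENNReal.toReal_nonneg
      positivity
    have hs : Summable fun i => (c i).toReal * z ^ a i * γ i := by
      refine Summable.of_nonneg_of_le hnn (fun i => ?_) (hsum.mul_right C)
      refine mul_le_mul_of_nonneg_left ?_ (by
        have h2 : 0 ≤ (c i).toReal := ENNReal.toReal_nonneg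
        positivity)
      refine le_of_tendsto (h i).lim (Eventually.of_forall fun m => ?_)
      rw [div_le_iff₀ (P_pos j m)]
      exact (h i).bdr hz hC m
    constructor
    · intro hpos
      by_contra hn
      push Not at hn
      have : ∑' i, (c i).toReal * z ^ a i * γ i = 0 := by
        rw [← tsum_zero (α := ℝ) (β := ι)]
        refine tsum_congr fun i => ?_
        by_cases hi : c i = 0
        · rw [hi]; simp
        · rw [le_antisymm (hn i hi) ((h i).nonneg hz), mul_zero]
      linarith
    · rintro ⟨i, h1, h2⟩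
      refine hs.tsum_pos hnn i ?_
      have : 0 < (c i).toReal := ENNReal.toReal_pos h1 (hci i)
      positivity

end TubeRen
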