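import Pool.Agent.H132.TB.Conn2

/-!
# The sum over the polygons in terms of the chains
-/

set_option autoImplicit false

namespace KN.ST

open KN KN.KQ Finset PowerSeries TubeRen
open scoped Classical ENNReal

noncomputable section

variable {L M : ℕ}

abbrev X3 : Type := List Dir × List Blk × List Dir

theorem tsum_lt {α : Type} (n : ℕ) (g : α → ℝ≥0∞) :
    ∑' p : ℕ × α, (if p.1 < n then g p.2 else 0) = n * ∑' x, g x := by
  rw [ENNReal.tsum_prod']
  have h1 : ∀ i : ℕ, ∑' x, (if i < n then g x else 0) = if i < n then ∑' x, g x else 0 := by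
    intro i
    split_ifs <;> simp
  simp only [h1]
  rw [tsum_ite_fin (fun i => i < n) n (fun i h => h) (fun _ => ∑' x, g x)]
  rw [Finset.sum_congr rfl (fun i hi => if_pos (mem_range.1 hi)), sum_const, card_range,
    nsmul_eq_mul]

/-- the sum over the polygons with a gap that is crossed exactly twice -/
theorem poly_sum (F : List Dir → ℝ≥0∞) (Q : List Dir → Prop)
    (hF : ∀ w k, SAP w → k ≤ w.length → F (w.rotate k) = F w)
    (hQ : ∀ w k, SAP w → Q w → Q (w.rotate k)) (n : ℕ) :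
    ∑' w : List Dir, (if SAP w ∧ w.length = n ∧ Q w ∧ ∃ c, X w c = 2 then F w else 0) =
      n * ∑' x : X3, (if (∃ D E, Vd x.1 x.2.1 x.2.2 D E) ∧ (pw3 x).length = n ∧ Q (pw3 x) then
        F (pw3 x) else 0) := by
  rw [← tsum_lt]
  apply le_antisymm
  · have hch : ∀ w : List Dir, (SAP w ∧ w.length = n ∧ Q w ∧ ∃ c, X w c = 2) →
        ∃ p : ℕ × X3, p.1 < n ∧ w.rotate p.1 = pw3 p.2 ∧ ∃ D E, Vd p.2.1 p.2.2.1 p.2.2.2 D E := by
      rintro w ⟨h1, h2, h3, h4⟩
      obtain ⟨k, x, D, E, hk, hv, he⟩ := dec_exists h1 h4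
      exact ⟨(k, x), by rw [← h2]; exact hk, he, D, E, hv⟩
    refine tsum_le_of_inj _ _ (fun w => if h : SAP w ∧ w.length = n ∧ Q w ∧ ∃ c, X w c = 2 then
      (hch w h).choose else (0, ([], [], []))) ?_ ?_
    · intro w w' h h' he
      have h1 : SAP w ∧ w.length = n ∧ Q w ∧ ∃ c, X w c = 2 := by
        by_contra hn
        rw [if_neg hn] at h
        exact h rfl
      have h2 : SAP w' ∧ w'.length = n ∧ Q w' ∧ ∃ c, X w' c = 2 := by
        by_contra hn
        rw [if_neg hn] at h'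
        exact h' rfl
      rw [dif_pos h1, dif_pos h2] at he
      obtain ⟨-, g2, -⟩ := (hch w h1).choose_spec
      obtain ⟨-, g2', -⟩ := (hch w' h2).choose_spec
      rw [he] at g2
      exact List.rotate_injective _ (g2.trans g2'.symm)
    · intro w h
      have h1 : SAP w ∧ w.length = n ∧ Q w ∧ ∃ c, X w c = 2 := by
        by_contra hn
        rw [if_neg hn] at h
        exact h rfl
      rw [if_pos h1, dif_pos h1]
      obtain ⟨g1, g2, g3⟩ := (hch w h1).choose_spec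
      have hlen : (pw3 (hch w h1).choose.2).length = n := by
        rw [← g2, List.length_rotate]; exact h1.2.1
      have hq : Q (pw3 (hch w h1).choose.2) := by
        rw [← g2]; exact hQ _ _ h1.1 h1.2.2.1
      rw [if_pos g1, if_pos ⟨g3, hlen, hq⟩, ← g2, hF _ _ h1.1 (by rw [h1.2.1]; exact g1.le)]
  · refine tsum_le_of_inj _ _ (fun p : ℕ × X3 => (pw3 p.2).rotate p.1) ?_ ?_
    · rintro ⟨i, x⟩ ⟨i', x'⟩ h h' he
      simp only at h h' he
      have h0 : i < n := by
        by_contra hn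
        rw [if_neg hn] at h
        exact h rfl
      have h0' : i' < n := by
        by_contra hn
        rw [if_neg hn] at h'
        exact h' rfl
      rw [if_pos h0] at h
      rw [if_pos h0'] at h'
      have h1 : (∃ D E, Vd x.1 x.2.1 x.2.2 D E) ∧ (pw3 x).length = n ∧ Q (pw3 x) := by
        by_contra hn
        rw [if_neg hn] at h
        exact h rfl
      have h2 : (∃ D E, Vd x'.1 x'.2.1 x'.2.2 D E) ∧ (pw3 x').length = n ∧ Q (pw3 x') := by
        by_contra hn
        rw [if_neg hn] at h'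
        exact h' rfl
      obtain ⟨⟨D, E, hv⟩, hl, -⟩ := h1
      obtain ⟨⟨D', E', hv'⟩, hl', -⟩ := h2
      obtain ⟨e1, e2⟩ := pw3_rot hv hv' hl hl' h0 h0' he
      rw [e1, e2]
    · rintro ⟨i, x⟩ h
      simp only at h ⊢
      have h0 : i < n := by
        by_contra hn
        rw [if_neg hn] at h
        exact h rfl
      rw [if_pos h0] at h ⊢
      have h1 : (∃ D E, Vd x.1 x.2.1 x.2.2 D E) ∧ (pw3 x).length = n ∧ Q (pw3 x) := by
        by_contra hn
        rw [if_neg hn] at h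
        exact h rfl
      rw [if_pos h1]
      obtain ⟨⟨D, E, hv⟩, hl, hq⟩ := h1
      have hS : SAP (pw3 x) := hv.sap
      have hi : i ≤ (pw3 x).length := by rw [hl]; exact h0.le
      have hc : X ((pw3 x).rotate i) (-1 + (pos ((pw3 x).take i)).1) = 2 := by
        rw [X_rotate hS.2.1 hi, pw3, X_poly hv.la hv.r, if_pos rfl, hv.r.X0 (by norm_num),
          hv.la.X0 (by norm_num)]
      rw [if_pos ⟨((c_words _ hS).2.2 _).1, by rw [List.length_rotate, hl], hQ _ _ hS hq, _, hc⟩,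
        hF _ _ hS hi]

/-- the weight of an end -/
def ωa (s : ℝ≥0∞) (w : List Dir) : ℝ≥0∞ := s ^ (4 * w.length - 8 * xt w)

theorem wl_eq {Y s : ℝ≥0∞} (hY : Y * s ^ 8 = 1) {bs : List Blk} {D E : Z3}
    (h : VC D bs E) (hI : ∀ b ∈ bs, Irr b) :
    Y ^ sp bs * (s ^ 4) ^ ln bs = wl s bs := by
  induction bs generalizing D with
  | nil => simp [sp, ln, wl]
  | cons b bs ih =>
    have h1 := ih h.2 (fun c hc => hI c (List.mem_cons_of_mem _ hc))
    have h2 := irr4 h.1 (hI b List.mem_cons_self)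
    rw [sp_cons, ln_cons, wl_cons, ← h1, pow_add, pow_add (s ^ 4)]
    have h3 : Y ^ (wd b + 1) * (s ^ 4) ^ (bl b + 2) = ωb s b := by
      unfold ωb
      have e1 : 4 * (bl b + 2) = (4 * bl b - 8 * wd b) + 8 * (wd b + 1) := by omega
      rw [← pow_mul s 4, e1, pow_add s, pow_mul s 8]
      calc Y ^ (wd b + 1) * (s ^ (4 * bl b - 8 * wd b) * (s ^ 8) ^ (wd b + 1)) =
            s ^ (4 * bl b - 8 * wd b) * (Y * s ^ 8) ^ (wd b + 1) := by rw [mul_pow]; ring
        _ = _ := by rw [hY, one_pow, mul_one]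
    rw [← h3]
    ring

theorem pw3_wt {Y s : ℝ≥0∞} (hY : Y * s ^ 8 = 1) {x : X3} {D E : Z3}
    (h : Vd x.1 x.2.1 x.2.2 D E) :
    Y ^ xt (pw3 x) * (s ^ 4) ^ (pw3 x).length = ωa s x.1 * wl s x.2.1 * ωa s x.2.2 := by
  rw [xt_pw3 h, len_pw3, ← wl_eq hY h.vc h.ir]
  have h1 := h.la.four h.il
  have h2 := h.ra.four h.rr
  have e1 : ∀ w : List Dir, 4 * xt w ≤ w.length → Y ^ xt w * (s ^ 4) ^ w.length = ωa s w := by
    intro w hw
    unfold ωa
    have e : 4 * w.length = (4 * w.length - 8 * xt w) + 8 * xt w := by omega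
    rw [← pow_mul s 4]
    nth_rewrite 1 [e]
    rw [pow_add s, pow_mul s 8]
    calc Y ^ xt w * (s ^ (4 * w.length - 8 * xt w) * (s ^ 8) ^ xt w) =
          s ^ (4 * w.length - 8 * xt w) * (Y * s ^ 8) ^ xt w := by rw [mul_pow]; ring
      _ = _ := by rw [hY, one_pow, mul_one]
  rw [← e1 _ h1, ← e1 _ h2]
  calc Y ^ (xt x.1 + 1 + sp x.2.1 + xt x.2.2) *
        (s ^ 4) ^ (x.1.length + x.2.2.length + 2 + ln x.2.1) =
        (Y ^ xt x.1 * (s ^ 4) ^ x.1.length) * (Y ^ sp x.2.1 * (s ^ 4) ^ ln x.2.1) *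
        (Y ^ xt x.2.2 * (s ^ 4) ^ x.2.2.length) * (Y * s ^ 8) := by
        simp only [pow_add]
        ring
    _ = _ := by rw [hY, mul_one]

/-- the ends of a polygon -/
abbrev Ed (L M : ℕ) : Type := (Sta L M × Sta L M) × (List Dir × List Dir)

/-- their weight -/
def we (s : ℝ≥0∞) (e : Ed L M) : ℝ≥0∞ :=
  if LOk e.1.1 e.2.1 ∧ ROk e.1.2 e.2.2 then ωa s e.2.1 * ωa s e.2.2 else 0

/-- their size -/
def ae (e : Ed L M) : ℕ := (e.2.1.length + e.2.2.length + 2 + pp e.1.1 - pp e.1.2) / 2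

theorem ae_par {e : Ed L M} (h : LOk e.1.1 e.2.1 ∧ ROk e.1.2 e.2.2) :
    2 * ae e + pp e.1.2 = e.2.1.length + e.2.2.length + 2 + pp e.1.1 := by
  have h1 := par_l h.1
  have h2 := par_r h.2
  have h3 := pp_le e.1.1
  have h4 := pp_le e.1.2
  unfold ae
  omega

/-- the sum with `j` knotted blocks -/
def TJ (s : ℝ≥0∞) (k : List V) (j N : ℕ) : ℝ≥0∞ :=
  ∑' e : Ed L M, if ae e ≤ N then
    we s e * coeff (N - ae e) (AA s j (Cd k e.1.1 e.1.2 e.2.1 e.2.2)) e.1.1 e.1.2 else 0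

/-- the inner sum -/
theorem inner {s : ℝ≥0∞} {k : List V} {R : ℕ} (hR : ∀ i, TS L M i k → i ≤ R) {N : ℕ}
    (e : Ed L M) (he : LOk e.1.1 e.2.1 ∧ ROk e.1.2 e.2.2) :
    ∑' bs : List Blk, (if TC e.1.1 bs e.1.2 ∧ (pw3 (e.2.1, bs, e.2.2)).length = 2 * N ∧
      Same (vl (pw3 (e.2.1, bs, e.2.2))) k then wl s bs else 0) =
    if ae e ≤ N then ∑ j ∈ range (R + 1),
      coeff (N - ae e) (AA s j (Cd k e.1.1 e.1.2 e.2.1 e.2.2)) e.1.1 e.1.2 else 0 := by
  have ha := ae_par he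
  have h3 := pp_le e.1.1
  have h4 := pp_le e.1.2
  split_ifs with hN
  · simp only [AA, coeff_mk, Matrix.of_apply]
    rw [tsum_fin]
    refine tsum_congr fun bs => ?_
    by_cases h1 : TC e.1.1 bs e.1.2
    · have h2 := cd_iff (k := k) (x := (e.2.1, bs, e.2.2)) he.1 h1 he.2
      simp only at h2
      by_cases h5 : (pw3 (e.2.1, bs, e.2.2)).length = 2 * N ∧ Same (vl (pw3 (e.2.1, bs, e.2.2))) k
      · rw [if_pos ⟨h1, h5⟩]
        have h6 := kb_le hR (x := (e.2.1, bs, e.2.2)) he.1 h1 he.2 h5.2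
        simp only at h6
        rw [Finset.sum_eq_single (kb e.1.1 bs).length]
        · rw [if_pos]
          refine ⟨h1, rfl, h2.1 h5.2, ?_⟩
          have h7 := h5.1
          rw [len_pw3] at h7
          simp only at h7
          omega
        · intro j _ hj
          rw [if_neg]
          rintro ⟨-, h8, -⟩
          exact hj h8.symm
        · intro h8
          exact absurd (mem_range.2 (by omega)) h8
      · rw [if_neg (fun h => h5 h.2), Finset.sum_eq_zero]
        intro j _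
        rw [if_neg]
        rintro ⟨-, -, h8, h9⟩
        apply h5
        refine ⟨?_, h2.2 h8⟩
        rw [len_pw3]
        simp only
        omega
    · rw [if_neg (fun h => h1 h.1), Finset.sum_eq_zero]
      intro j _
      rw [if_neg (fun h => h1 h.1)]
  · rw [ENNReal.tsum_eq_zero]
    intro bs
    rw [if_neg]
    rintro ⟨-, h7, -⟩
    rw [len_pw3] at h7
    simp only at h7
    omega

/-- the sum over the polygons with a gap that is crossed exactly twice -/
theorem cut_sum {Y s : ℝ≥0∞} (hY : Y * s ^ 8 = 1) {k : List V} {R : ℕ}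
    (hR : ∀ i, TS L M i k → i ≤ R) (N : ℕ) :
    (∑' w : List Dir, (if SAP w ∧ w.length = 2 * N ∧ Same (vl w) k ∧ ∃ c, X w c = 2 then
      (Np L M w : ℝ≥0∞) * Y ^ xt w else 0)) * (s ^ 4) ^ (2 * N) =
    ((2 * N : ℕ) : ℝ≥0∞) * ∑ j ∈ range (R + 1), TJ (L := L) (M := M) s k j N := by
  rw [poly_sum (fun w => (Np L M w : ℝ≥0∞) * Y ^ xt w) (fun w => Same (vl w) k)
    (fun w i hw hi => by simp only [Np_rotate hw.2.1 hi, xt_rotate hw.2.1 hi])
    (fun w i hw h => ((c_words _ hw).2.2 _).2.symm.trans h) (2 * N), mul_assoc]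
  congr 1
  rw [← ENNReal.tsum_mul_right]
  have h1 : ∀ x : X3, (if (∃ D E, Vd x.1 x.2.1 x.2.2 D E) ∧ (pw3 x).length = 2 * N ∧
      Same (vl (pw3 x)) k then (Np L M (pw3 x) : ℝ≥0∞) * Y ^ xt (pw3 x) else 0) *
      (s ^ 4) ^ (2 * N) = ∑ σ : Sta L M, ∑ σ' : Sta L M,
        if LOk σ x.1 ∧ TC σ x.2.1 σ' ∧ ROk σ' x.2.2 then
          (if (pw3 x).length = 2 * N ∧ Same (vl (pw3 x)) k then
            ωa s x.1 * wl s x.2.1 * ωa s x.2.2 else 0) else 0 := by
    intro x
    have h2 : (if (∃ D E, Vd x.1 x.2.1 x.2.2 D E) ∧ (pw3 x).length = 2 * N ∧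
      Same (vl (pw3 x)) k then (Np L M (pw3 x) : ℝ≥0∞) * Y ^ xt (pw3 x) else 0) *
      (s ^ 4) ^ (2 * N) = (if ∃ D E, Vd x.1 x.2.1 x.2.2 D E then (Np L M (pw3 x) : ℝ≥0∞) else 0) *
        (if (pw3 x).length = 2 * N ∧ Same (vl (pw3 x)) k then
            ωa s x.1 * wl s x.2.1 * ωa s x.2.2 else 0) := by
      by_cases h3 : ∃ D E, Vd x.1 x.2.1 x.2.2 D E
      · by_cases h4 : (pw3 x).length = 2 * N ∧ Same (vl (pw3 x)) k
        · rw [if_pos ⟨h3, h4⟩, if_pos h3, if_pos h4]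
          obtain ⟨D, E, hv⟩ := h3
          rw [← pw3_wt hY hv, h4.1]
          ring
        · rw [if_neg (fun h => h4 h.2), if_neg h4, zero_mul, mul_zero]
      · rw [if_neg (fun h => h3 h.1), if_neg h3, zero_mul, zero_mul]
    rw [h2, Np_sum, sum_mul]
    refine Finset.sum_congr rfl fun σ _ => ?_
    rw [sum_mul]
    refine Finset.sum_congr rfl fun σ' _ => ?_
    split_ifs <;> simp
  simp only [h1]
  rw [← tsum_fin]
  simp only [← tsum_fin]
  -- the right side
  have h5 : ∑ j ∈ range (R + 1), TJ (L := L) (M := M) s k j N =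
      ∑' e : Ed L M, if ae e ≤ N then we s e * ∑ j ∈ range (R + 1),
        coeff (N - ae e) (AA s j (Cd k e.1.1 e.1.2 e.2.1 e.2.2)) e.1.1 e.1.2 else 0 := by
    unfold TJ
    rw [tsum_fin]
    refine tsum_congr fun e => ?_
    by_cases h : ae e ≤ N
    · simp only [if_pos h]
      rw [mul_sum]
    · simp only [if_neg h]
      simp
  rw [h5, ENNReal.tsum_prod', ENNReal.tsum_prod', tsum_fintype]
  refine Finset.sum_congr rfl fun σ _ => ?_
  rw [tsum_fintype]
  refine Finset.sum_congr rfl fun σ' _ => ?_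
  -- reorder the triples
  have h6 : ∀ f : X3 → ℝ≥0∞, ∑' x : X3, f x =
      ∑' p : List Dir × List Dir, ∑' bs : List Blk, f (p.1, bs, p.2) := by
    intro f
    rw [ENNReal.tsum_prod', ENNReal.tsum_prod']
    refine tsum_congr fun l => ?_
    rw [ENNReal.tsum_prod', ENNReal.tsum_comm]
  rw [h6]
  refine tsum_congr fun p => ?_
  simp only
  by_cases he : LOk σ p.1 ∧ ROk σ' p.2
  · have h7 := inner (s := s) hR (N := N) (((σ, σ'), p) : Ed L M) he
    simp only at h7
    have h8 : (if ae (((σ, σ'), p) : Ed L M) ≤ N then we s (((σ, σ'), p) : Ed L M) *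
        ∑ j ∈ range (R + 1), coeff (N - ae (((σ, σ'), p) : Ed L M))
          (AA s j (Cd k σ σ' p.1 p.2)) σ σ' else 0) = we s (((σ, σ'), p) : Ed L M) *
        (if ae (((σ, σ'), p) : Ed L M) ≤ N then
        ∑ j ∈ range (R + 1), coeff (N - ae (((σ, σ'), p) : Ed L M))
          (AA s j (Cd k σ σ' p.1 p.2)) σ σ' else 0) := by
      split_ifs <;> simp
    rw [h8, ← h7, ← ENNReal.tsum_mul_left]
    refine tsum_congr fun bs => ?_
    have hw : we s (((σ, σ'), p) : Ed L M) = ωa s p.1 * ωa s p.2 := if_pos he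
    rw [hw]
    by_cases h9 : TC σ bs σ'
    · rw [if_pos ⟨he.1, h9, he.2⟩]
      by_cases h10 : (pw3 (p.1, bs, p.2)).length = 2 * N ∧ Same (vl (pw3 (p.1, bs, p.2))) k
      · rw [if_pos h10, if_pos ⟨h9, h10⟩]
        ring
      · rw [if_neg h10, if_neg (fun h => h10 h.2), mul_zero]
    · rw [if_neg (fun h => h9 h.2.1), if_neg (fun h => h9 h.1), mul_zero]
  · have hw : we s (((σ, σ'), p) : Ed L M) = 0 := if_neg he
    rw [hw]
    simp only [zero_mul, ite_self]
    rw [ENNReal.tsum_eq_zero]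
    intro bs
    rw [if_neg (fun h => he ⟨h.1, h.2.2⟩)]

end

end KN.ST
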