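import Pool.Agent.H132.TB.Ker

/-!
# The steps of the first strand and the connection of the states
-/

set_option autoImplicit false

namespace KN.ST

open KN KN.KQ Finset PowerSeries TubeRen
open scoped Classical ENNReal

noncomputable section

variable {L M : ℕ}

theorem pos_perm {w w' : List Dir} (h : w.Perm w') : pos w = pos w' := by
  induction h with
  | nil => rfl
  | cons x h ih => simp only [pos, ih]
  | swap x y l => simp only [pos]; abel
  | trans h1 h2 ih1 ih2 => exact ih1.trans ih2

/-- permutations of monotone words -/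
theorem eqp_perm {s t : ℤ} {D : Z3} (hD : D ≠ 0) {w w' : List Dir} (h : w.Perm w') :
    ∀ A : List Dir, (∀ a ∈ A ++ w, Lat a ∧ 0 < fn s t (vec a)) → pos (A ++ w) = D →
      Eqp D (A ++ w) (A ++ w') := by
  induction h with
  | nil => intro A _ _; exact Eqp.refl _ _
  | @cons x l₁ l₂ h ih =>
    intro A hA hp
    have e : ∀ l : List Dir, A ++ x :: l = (A ++ [x]) ++ l := fun l => by simp
    rw [e l₁] at hA hp
    rw [e l₁, e l₂]
    exact ih (A ++ [x]) hA hp
  | swap x y l =>
    intro A hA hp
    by_cases hxy : x = y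
    · subst hxy; exact Eqp.refl _ _
    · have hx := hA x (by simp)
      have hy := hA y (by simp)
      have hperp : perp y x := by
        obtain ⟨hx1, hx2⟩ := hx
        obtain ⟨hy1, hy2⟩ := hy
        unfold Lat at hx1 hy1
        unfold perp
        intro he
        cases x <;> cases y <;> simp_all [ax, fn, vec] <;> omega
      refine eqp_flip hperp (mono_pa s t _ hA hp hD) (mono_pa s t _ ?_ ?_ hD)
      · intro a ha
        apply hA a
        simp only [List.mem_append, List.mem_cons] at ha ⊢
        tauto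
      · rw [← hp]
        exact pos_perm (List.Perm.append_left A (List.Perm.swap y x l))
  | trans h1 h2 ih1 ih2 =>
    intro A hA hp
    refine (ih1 A hA hp).trans (ih2 A ?_ ?_)
    · intro a ha
      apply hA a
      rw [List.mem_append] at ha ⊢
      rcases ha with ha | ha
      · exact Or.inl ha
      · exact Or.inr (h1.mem_iff.2 ha)
    · rw [← hp]
      exact (pos_perm (List.Perm.append_left A h1)).symm

theorem out_perm {D : Z3} {v : Dir} (h : Out D v) : (cp (D + vec v)).Perm (v :: cp D) := by
  rcases h with ⟨rfl, h⟩ | ⟨rfl, h⟩ | ⟨rfl, h⟩ | ⟨rfl, h⟩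
  · have e : cp (D + vec .yp) = zl D.2.2 ++ .yp :: yl D.2.1 := by
      unfold cp
      simp only [Prod.snd_add, Prod.fst_add, vec, add_zero]
      rw [yl_succ h]
    rw [e]
    exact List.perm_middle
  · have e : cp (D + vec .ym) = zl D.2.2 ++ .ym :: yl D.2.1 := by
      unfold cp
      simp only [Prod.snd_add, Prod.fst_add, vec, add_zero]
      rw [← sub_eq_add_neg, yl_pred h]
    rw [e]
    exact List.perm_middle
  · have e : cp (D + vec .zp) = .zp :: cp D := by
      unfold cp
      simp only [Prod.snd_add, Prod.fst_add, vec, add_zero]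
      rw [zl_succ h]
      rfl
    rw [e]
  · have e : cp (D + vec .zm) = .zm :: cp D := by
      unfold cp
      simp only [Prod.snd_add, Prod.fst_add, vec, add_zero]
      rw [← sub_eq_add_neg, zl_pred h]
      rfl
    rw [e]

theorem out_cone {D : Z3} {v : Dir} (ho : Out D v) :
    ∃ s t : ℤ, ∀ d ∈ v :: cp D, Lat d ∧ 0 < fn s t (vec d) := by
  refine ⟨if v = .yp then 1 else if v = .ym then -1 else sg D.2.1,
    if v = .zp then 1 else if v = .zm then -1 else sg D.2.2, ?_⟩
  have hy : ∀ d ∈ yl D.2.1, ∀ t, 0 < fn (if v = .yp then 1 else if v = .ym then -1 else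
      sg D.2.1) t (vec d) := by
    intro d hd t
    have h2 := (mem_yl hd t).2
    have hne : D.2.1 ≠ 0 := by
      intro h3; rw [h3] at hd; simp [yl] at hd
    rcases ho with ⟨rfl, g1⟩ | ⟨rfl, g1⟩ | ⟨rfl, g1⟩ | ⟨rfl, g1⟩
    · rw [sg, if_pos g1] at h2
      simpa using h2
    · have h4 : ¬ (0 ≤ D.2.1) := by omega
      simpa [sg, h4] using h2
    · simpa using h2
    · simpa using h2
  have hz : ∀ d ∈ zl D.2.2, ∀ t, 0 < fn t (if v = .zp then 1 else if v = .zm then -1 else
      sg D.2.2) (vec d) := by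
    intro d hd t
    have h2 := (mem_zl hd t).2
    have hne : D.2.2 ≠ 0 := by
      intro h3; rw [h3] at hd; simp [zl] at hd
    rcases ho with ⟨rfl, g1⟩ | ⟨rfl, g1⟩ | ⟨rfl, g1⟩ | ⟨rfl, g1⟩
    · simpa using h2
    · simpa using h2
    · rw [sg, if_pos g1] at h2
      simpa using h2
    · have h4 : ¬ (0 ≤ D.2.2) := by omega
      simpa [sg, h4] using h2
  intro d hd
  rcases List.mem_cons.1 hd with rfl | hd
  · rcases ho with ⟨rfl, g1⟩ | ⟨rfl, g1⟩ | ⟨rfl, g1⟩ | ⟨rfl, g1⟩ <;> simp [fn, vec, Lat]
  · unfold cp at hd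
    rw [List.mem_append] at hd
    rcases hd with hd | hd
    · exact ⟨(mem_zl hd 0).1, hz d hd _⟩
    · exact ⟨(mem_yl hd 0).1, hy d hd _⟩

/-- a step at the beginning of the canonical arc -/
theorem eqp_end {D : Z3} (h : D.1 = 0) {v : Dir} (ho : Out D v) (hD : D + vec v ≠ 0) :
    PA (D + vec v) (cp D ++ [v]) ∧ Eqp (D + vec v) (cp (D + vec v)) (cp D ++ [v]) := by
  obtain ⟨s, t, hst⟩ := out_cone ho
  have hp : (cp (D + vec v)).Perm (cp D ++ [v]) := (out_perm ho).trans
    (List.perm_append_singleton v (cp D)).symm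
  have hpos : pos (cp D ++ [v]) = D + vec v := by
    rw [pos_append, pos_cp h]
    simp [pos]
  have hm : ∀ a ∈ cp D ++ [v], Lat a ∧ 0 < fn s t (vec a) := by
    intro a ha
    apply hst
    rw [List.mem_append, List.mem_singleton] at ha
    rw [List.mem_cons]
    tauto
  refine ⟨mono_pa s t _ hm hpos hD, ?_⟩
  have h1 := eqp_perm (s := s) (t := t) hD hp [] (by
    intro a ha
    rw [List.nil_append] at ha
    exact hm a (hp.mem_iff.1 ha)) (by
    rw [List.nil_append, pos_perm hp, hpos])
  simpa using h1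

theorem pc_F {D : Z3} (h : D.1 = 0) (hD : D ≠ 0) {v : Dir} (hv : Lat v) (hD' : D + vec v ≠ 0) :
    Pc (D + vec v) D ([v], []) := by
  have hv0 : vec v ≠ 0 := vec_ne v
  have hvx := hv.x
  have e : pv ([v], []) D = [D + vec v, vec v, 0] := by
    simp [pv, sh, path, pos, add_comm]
  refine ⟨?_, ?_, ?_, h, ?_⟩
  · rw [e]
    simp [hv0, hD, hD']
  · rw [e]
    intro p hp
    simp only [List.mem_cons, List.not_mem_nil, or_false] at hp
    rcases hp with rfl | rfl | rfl
    · simp [pos, h, hvx]
    · simp [pos, hvx]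
    · simp [pos, hvx]
  · simp only [pos]
    abel
  · simp only [Prod.fst_add, h, hvx, add_zero]

theorem perp_xp {v : Dir} (hv : Lat v) : perp v .xp := by
  cases v <;> simp [Lat, perp, ax] at hv ⊢

theorem tB_F {D : Z3} (h : D.1 = 0) (hD : D ≠ 0) {v : Dir} (hv : Lat v) (hD' : D + vec v ≠ 0) :
    Same (tB (D + vec v) D ([v], [])) sq := by
  have hpc := pc_F h hD hv hD'
  have h0' : (D + vec v).1 = 0 := hpc.h1
  have hp := pa_cp h hD
  have hp' := pa_cp h0' hD'
  unfold tB
  rcases out_or (D := D) hv with ho | ho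
  · -- the left arc is changed
    obtain ⟨hpa, heq⟩ := eqp_end h ho hD'
    have h1 := heq.2 _ (hpc.ra hp.ra)
    refine h1.trans ?_
    have hS := sap_poly hpa.la (hpc.ra hp.ra)
    have e : Poly (back (cp D ++ [v])) (Rw1 ([v], []) (cp D)) =
        (.xp :: neg v :: (back (cp D) ++ .xm :: .xm :: (cp D ++ [.xp]))) ++ [v] := by
      rw [back_snoc]
      simp [Poly, Rw1]
    have hrot : (Poly (back (cp D ++ [v])) (Rw1 ([v], []) (cp D))).rotate
        (Dir.xp :: neg v :: (back (cp D) ++ .xm :: .xm :: (cp D ++ [.xp]))).length =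
        [] ++ v :: .xp :: neg v :: (back (cp D) ++ .xm :: .xm :: (cp D ++ [.xp])) := by
      rw [e, List.rotate_append_length_eq]
      rfl
    have h2 := (c_words _ hS).2.2 (Dir.xp :: neg v :: (back (cp D) ++ .xm :: .xm ::
      (cp D ++ [.xp]))).length
    rw [hrot] at h2
    have h3 := unbump [] (back (cp D) ++ .xm :: .xm :: (cp D ++ [.xp])) v .xp (perp_xp hv) h2.1 (by
        simp only [List.length_append, List.length_cons, List.length_nil]
        have h5 : 0 < (cp D).length := List.length_pos_iff.2 (zero_ne_nil (by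
          rw [pos_cp h]; exact hD))
        omega)
    refine h2.2.trans (h3.2.trans ?_)
    have e2 : [] ++ Dir.xp :: (back (cp D) ++ .xm :: .xm :: (cp D ++ [.xp])) =
        Poly (back (cp D)) (Rw1 ([], []) (cp D)) := by
      simp [Poly, Rw1]
    rw [e2]
    exact tB_S h hD
  · -- the right arc is changed
    set E := D + vec v with hE
    have hx : E + vec (neg v) = D := by rw [hE, vec_neg]; abel
    obtain ⟨hpa, heq⟩ := eqp_end h0' ho (by rw [hx]; exact hD)
    rw [hx] at hpa heq
    have hrot : ∀ q, RA D q → Same (vl (Poly (back (cp E)) (Rw1 ([v], []) q)))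
        (vl (Poly (ext (back (cp E)) ([v], [])) q)) := by
      intro q hq
      exact ext_same hp'.la hpc hq
    have h2 := heq.1 _ (hpc.la hp'.la)
    refine (hrot _ hp.ra).trans (h2.trans ((hrot _ hpa.ra).symm.trans ?_))
    have e : Poly (back (cp E)) (Rw1 ([v], []) (cp E ++ [neg v])) =
        (.xp :: (back (cp E) ++ .xm :: .xm :: cp E)) ++ neg v :: .xp :: neg (neg v) :: [] := by
      simp [Poly, Rw1]
    have hS := sap_poly hp'.la (hpc.ra hpa.ra)
    rw [e] at hS ⊢
    have h3 := unbump _ _ (neg v) .xp (perp_xp hv.neg) hS (by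
        have h5 : 0 < (cp E).length := List.length_pos_iff.2 (zero_ne_nil (by
          rw [pos_cp h0']; exact hD'))
        simp only [List.length_append, List.length_cons, List.length_nil]
        omega)
    refine h3.2.trans ?_
    have e2 : (Dir.xp :: (back (cp E) ++ .xm :: .xm :: cp E)) ++ Dir.xp :: [] =
        Poly (back (cp E)) (Rw1 ([], []) (cp E)) := by
      simp [Poly, Rw1]
    rw [e2]
    exact tB_S h0' hD'

end

end KN.ST
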