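import Pool.Agent.H132.TB.Conn

/-!
# The states of the tube are connected
-/

set_option autoImplicit false

namespace KN.ST

open KN KN.KQ Finset PowerSeries TubeRen
open scoped Classical ENNReal

noncomputable section

variable {L M : ℕ}

theorem ωb_ne {s : ℝ≥0∞} (hs : s ≠ 0) (b : Blk) : ωb s b ≠ 0 := pow_ne_zero _ hs

theorem Kt_ne {s : ℝ≥0∞} (hs : s ≠ 0) {σ τ : Sta L M} {b : Blk} (h : TP σ τ b)
    (ht : Same (tB (df σ) (df τ) b) sq) : en (Kt L M s) σ τ ≠ 0 := by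
  intro h0
  have h1 := Kb_ge (src := fun x : T0 L M => x.1.1.1) (tgt := fun x : T0 L M => x.1.1.2)
    (wt := fun x : T0 L M => ωb s x.1.2) (sz := fun x : T0 L M => szb x.1)
    (⟨((σ, τ), b), h, ht⟩ : T0 L M)
  have h2 : en (Kb (fun x : T0 L M => x.1.1.1) (fun x : T0 L M => x.1.1.2)
    (fun x : T0 L M => ωb s x.1.2) (fun x : T0 L M => szb x.1)) σ τ = 0 := h0
  simp only at h1
  rw [h2, map_zero] at h1
  exact ωb_ne hs b (le_antisymm h1 zero_le)

theorem lt_id {p : Z3} (h : p.1 = 0) : lt p = p := by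
  obtain ⟨x, y⟩ := p
  simp only at h
  subst h
  rfl

/-- the straight block -/
theorem tp_S (σ : Sta L M) : TP σ σ ([], []) := by
  have h1 := mem_Rct.1 (sta_mem σ).1
  have h2 := mem_Rct.1 (sta_mem σ).2.1
  refine ⟨pc_S (df_x σ) (df_ne σ), irr_S0, ?_, ?_⟩
  · simp only [pos, add_zero]
    exact (lt_id h1.1).symm
  · intro p hp
    simp only [pv, sh, path, pos, List.map_cons, List.map_nil, List.cons_append, List.nil_append,
      List.mem_cons, List.not_mem_nil, or_false, zero_add] at hp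
    rcases hp with rfl | rfl
    · have e : σ.1.1 + df σ = σ.1.2 := by unfold df; abel
      rw [e]
      exact h2.2
    · rw [add_zero]
      exact h1.2

/-- steps of the second strand -/
theorem tp_E {U V V' : Z3} {v : Dir} (hv : Lat v) (hVV : V' = V + vec v)
    (h : (U, V) ∈ (Rct L M).offDiag) (h' : (U, V') ∈ (Rct L M).offDiag) :
    TP (⟨(U, V'), h'⟩ : Sta L M) (⟨(U, V), h⟩ : Sta L M) ([], [v]) ∧
    Same (tB (df (⟨(U, V'), h'⟩ : Sta L M)) (df (⟨(U, V), h⟩ : Sta L M)) ([], [v])) sq := by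
  subst hVV
  set σ : Sta L M := ⟨(U, V + vec v), h'⟩ with hσ
  set τ : Sta L M := ⟨(U, V), h⟩ with hτ
  have e : df σ = df τ + vec v := by
    simp only [df, hσ, hτ]
    abel
  have hne : df τ + vec v ≠ 0 := by rw [← e]; exact df_ne σ
  have hU := mem_Rct.1 (mem_offDiag.1 h).1
  have hV := mem_Rct.1 (mem_offDiag.1 h).2.1
  have hV' := mem_Rct.1 (mem_offDiag.1 h').2.1
  refine ⟨⟨?_, ?_, ?_, ?_⟩, ?_⟩
  · rw [e]
    exact pc_E (df_x τ) (df_ne τ) hv hne
  · intro c h0 h1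
    simp [pos] at h1
    omega
  · simp only [pos, add_zero]
    exact (lt_id hU.1).symm
  · have e2 : pv ([], [v]) (df τ) = [df τ + vec v, df τ, 0] := by
      simp [pv, sh, path, pos, add_comm]
    intro p hp
    rw [e2] at hp
    simp only [List.mem_cons, List.not_mem_nil, or_false] at hp
    have eU : σ.1.1 = U := rfl
    have eτ : df τ = V - U := rfl
    rw [eU]
    rcases hp with rfl | rfl | rfl
    · have : U + (df τ + vec v) = V + vec v := by rw [eτ]; abel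
      rw [this]
      exact hV'.2
    · have : U + df τ = V := by rw [eτ]; abel
      rw [this]
      exact hV.2
    · rw [add_zero]
      exact hU.2
  · rw [e]
    exact tB_E (df_x τ) (df_ne τ) hv hne

/-- steps of the first strand -/
theorem tp_F {U U' V : Z3} {v : Dir} (hv : Lat v) (hUU : U' = U + vec v)
    (h : (U, V) ∈ (Rct L M).offDiag) (h' : (U', V) ∈ (Rct L M).offDiag) :
    TP (⟨(U, V), h⟩ : Sta L M) (⟨(U', V), h'⟩ : Sta L M) ([v], []) ∧
    Same (tB (df (⟨(U, V), h⟩ : Sta L M)) (df (⟨(U', V), h'⟩ : Sta L M)) ([v], [])) sq := by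
  subst hUU
  set σ : Sta L M := ⟨(U, V), h⟩ with hσ
  set τ : Sta L M := ⟨(U + vec v, V), h'⟩ with hτ
  have e : df σ = df τ + vec v := by
    simp only [df, hσ, hτ]
    abel
  have hne : df τ + vec v ≠ 0 := by rw [← e]; exact df_ne σ
  have hU := mem_Rct.1 (mem_offDiag.1 h).1
  have hU' := mem_Rct.1 (mem_offDiag.1 h').1
  have hV := mem_Rct.1 (mem_offDiag.1 h).2.1
  refine ⟨⟨?_, ?_, ?_, ?_⟩, ?_⟩
  · rw [e]
    exact pc_F (df_x τ) (df_ne τ) hv hne
  · intro c h0 h1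
    have := hv.x
    simp [pos, this] at h1
    omega
  · have e1 : σ.1.1 + pos ([v], ([] : List Dir)).1 = U + vec v := by
      simp only [pos, zero_add]
      rfl
    rw [e1]
    exact (lt_id hU'.1).symm
  · have e2 : pv ([v], []) (df τ) = [df τ + vec v, vec v, 0] := by
      simp [pv, sh, path, pos, add_comm]
    intro p hp
    rw [e2] at hp
    simp only [List.mem_cons, List.not_mem_nil, or_false] at hp
    have eU : σ.1.1 = U := rfl
    have eτ : df τ = V - (U + vec v) := rfl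
    rw [eU]
    rcases hp with rfl | rfl | rfl
    · have : U + (df τ + vec v) = V := by rw [eτ]; abel
      rw [this]
      exact hV.2
    · exact hU'.2
    · rw [add_zero]
      exact hU.2
  · rw [e]
    exact tB_F (df_x τ) (df_ne τ) hv hne

/-- adjacent points different from `X` -/
def Adj (L M : ℕ) (X P Q : Z3) : Prop := P ∈ Rct L M ∧ Q ∈ Rct L M ∧ P ≠ X ∧ Q ≠ X ∧
  ∃ v, Lat v ∧ P = Q + vec v

theorem Adj.symm {X P Q : Z3} (h : Adj L M X P Q) : Adj L M X Q P := by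
  obtain ⟨h1, h2, h3, h4, v, hv, rfl⟩ := h
  exact ⟨h2, h1, h4, h3, KN.neg v, hv.neg, by rw [vec_neg]; abel⟩

/-- connected points -/
def Cn (L M : ℕ) (X : Z3) : Z3 → Z3 → Prop := Relation.ReflTransGen (Adj L M X)

theorem Cn.symm {X P Q : Z3} (h : Cn L M X P Q) : Cn L M X Q P := by
  induction h with
  | refl => exact Relation.ReflTransGen.refl
  | tail h1 h2 ih => exact Relation.ReflTransGen.head h2.symm ih

def pt (y z : ℕ) : Z3 := (0, (y : ℤ), (z : ℤ))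

theorem pt_mem {y z : ℕ} (hy : y ≤ L) (hz : z ≤ M) : pt y z ∈ Rct L M := by
  rw [mem_Rct]
  show (0 : ℤ) = 0 ∧ 0 ≤ (y : ℤ) ∧ (y : ℤ) ≤ L ∧ 0 ≤ (z : ℤ) ∧ (z : ℤ) ≤ M
  omega

theorem pt_surj {P : Z3} (h : P ∈ Rct L M) : ∃ y z : ℕ, y ≤ L ∧ z ≤ M ∧ P = pt y z := by
  rw [mem_Rct] at h
  obtain ⟨h0, h1, h2, h3, h4⟩ := h
  refine ⟨P.2.1.toNat, P.2.2.toNat, by omega, by omega, ?_⟩
  obtain ⟨x, y, z⟩ := P
  simp only at h0 h1 h2 h3 h4 ⊢
  unfold pt
  rw [h0, Int.toNat_of_nonneg h1, Int.toNat_of_nonneg h3]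

theorem pt_inj {y z y' z' : ℕ} : pt y z = pt y' z' ↔ y = y' ∧ z = z' := by
  unfold pt
  simp only [Prod.mk.injEq, true_and, Nat.cast_inj]

theorem row0 {a c z : ℕ} (hc : z ≠ c) (hz : z ≤ M) (n : ℕ) (hn : n ≤ L) :
    Cn L M (pt a c) (pt n z) (pt 0 z) := by
  induction n with
  | zero => exact Relation.ReflTransGen.refl
  | succ n ih =>
    refine Relation.ReflTransGen.head ?_ (ih (by omega))
    refine ⟨pt_mem hn hz, pt_mem (by omega) hz, ?_, ?_, .yp, ⟨by decide, by decide⟩, ?_⟩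
    · rw [Ne, pt_inj]; tauto
    · rw [Ne, pt_inj]; tauto
    · simp [pt, vec]

theorem col0 {a c y : ℕ} (hc : y ≠ a) (hy : y ≤ L) (n : ℕ) (hn : n ≤ M) :
    Cn L M (pt a c) (pt y n) (pt y 0) := by
  induction n with
  | zero => exact Relation.ReflTransGen.refl
  | succ n ih =>
    refine Relation.ReflTransGen.head ?_ (ih (by omega))
    refine ⟨pt_mem hy hn, pt_mem hy (by omega), ?_, ?_, .zp, ⟨by decide, by decide⟩, ?_⟩
    · rw [Ne, pt_inj]; tauto
    · rw [Ne, pt_inj]; tauto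
    · simp [pt, vec]

theorem row {a c z : ℕ} (hc : z ≠ c) (hz : z ≤ M) {n m : ℕ} (hn : n ≤ L) (hm : m ≤ L) :
    Cn L M (pt a c) (pt n z) (pt m z) :=
  Relation.ReflTransGen.trans (row0 hc hz n hn) (row0 hc hz m hm).symm

theorem col {a c y : ℕ} (hc : y ≠ a) (hy : y ≤ L) {n m : ℕ} (hn : n ≤ M) (hm : m ≤ M) :
    Cn L M (pt a c) (pt y n) (pt y m) :=
  Relation.ReflTransGen.trans (col0 hc hy n hn) (col0 hc hy m hm).symm

/-- a rectangle without a point is connected -/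
theorem cn_all (hL : 1 ≤ L) (hM : 1 ≤ M) {X P Q : Z3} (hX : X ∈ Rct L M) (hP : P ∈ Rct L M)
    (hQ : Q ∈ Rct L M) (hPX : P ≠ X) (hQX : Q ≠ X) : Cn L M X P Q := by
  obtain ⟨a, c, ha, hc, rfl⟩ := pt_surj hX
  obtain ⟨y₀, hy₀, hy₀'⟩ : ∃ y₀, y₀ ≤ L ∧ y₀ ≠ a := by
    by_cases h : a = 0
    · exact ⟨1, hL, by omega⟩
    · exact ⟨0, by omega, fun h' => h h'.symm⟩
  obtain ⟨z₀, hz₀, hz₀'⟩ : ∃ z₀, z₀ ≤ M ∧ z₀ ≠ c := by
    by_cases h : c = 0
    · exact ⟨1, hM, by omega⟩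
    · exact ⟨0, by omega, fun h' => h h'.symm⟩
  have key : ∀ P, P ∈ Rct L M → P ≠ pt a c → Cn L M (pt a c) P (pt y₀ z₀) := by
    intro P hP hPX
    obtain ⟨y, z, hy, hz, rfl⟩ := pt_surj hP
    by_cases h : z = c
    · have h2 : y ≠ a := by
        intro h3
        exact hPX (by rw [h, h3])
      exact Relation.ReflTransGen.trans (col h2 hy hz hz₀) (row hz₀' hz₀ hy hy₀)
    · exact Relation.ReflTransGen.trans (row h hz hy hy₀) (col hy₀' hy₀ hz hz₀)
  exact Relation.ReflTransGen.trans (key P hP hPX) (key Q hQ hQX).symm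

/-- all states are connected -/
theorem irr_all (hL : 1 ≤ L) (hM : 1 ≤ M) {s : ℝ≥0∞} (hs : s ≠ 0)
    {U : PowerSeries (Matrix (Sta L M) (Sta L M) ℝ≥0∞)} (hU : U = 1 + Kt L M s * U)
    (σ τ : Sta L M) : en U σ τ ≠ 0 := by
  -- moves of the second strand
  have m2 : ∀ (X P Q : Z3), Cn L M X P Q → X ∈ Rct L M →
      (∀ h : (X, Q) ∈ (Rct L M).offDiag, en U ⟨(X, Q), h⟩ τ ≠ 0) →
      ∀ h : (X, P) ∈ (Rct L M).offDiag, en U ⟨(X, P), h⟩ τ ≠ 0 := by
    intro X P Q hc hX hQ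
    induction hc using Relation.ReflTransGen.head_induction_on with
    | refl => exact hQ
    | @head P P' h1 h2 ih =>
      intro h
      obtain ⟨g1, g2, g3, g4, v, hv, e⟩ := h1
      have hb : (X, P') ∈ (Rct L M).offDiag := mem_offDiag.2 ⟨hX, g2, g4.symm⟩
      have k := tp_E hv e hb h
      exact reach_step hU (Kt_ne hs k.1 k.2) (ih hb)
  have m1 : ∀ (X P Q : Z3), Cn L M X P Q → X ∈ Rct L M →
      (∀ h : (Q, X) ∈ (Rct L M).offDiag, en U ⟨(Q, X), h⟩ τ ≠ 0) →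
      ∀ h : (P, X) ∈ (Rct L M).offDiag, en U ⟨(P, X), h⟩ τ ≠ 0 := by
    intro X P Q hc hX hQ
    induction hc using Relation.ReflTransGen.head_induction_on with
    | refl => exact hQ
    | @head P P' h1 h2 ih =>
      intro h
      obtain ⟨g1, g2, g3, g4, v, hv, e⟩ := h1
      have hb : (P', X) ∈ (Rct L M).offDiag := mem_offDiag.2 ⟨g2, hX, g4⟩
      have e' : P' = P + vec (KN.neg v) := by rw [e, vec_neg]; abel
      have k := tp_F hv.neg e' h hb
      exact reach_step hU (Kt_ne hs k.1 k.2) (ih hb)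
  obtain ⟨⟨A, B⟩, hσ⟩ := σ
  obtain ⟨A', B'⟩ := τ.1
  have hτ := sta_mem τ
  have hAB := mem_offDiag.1 hσ
  obtain ⟨C, hC, hCA, hCA'⟩ : ∃ C ∈ Rct L M, C ≠ A ∧ C ≠ τ.1.1 := by
    have c0 : pt 0 0 ∈ Rct L M := pt_mem (by omega) (by omega)
    have c1 : pt 1 0 ∈ Rct L M := pt_mem hL (by omega)
    have c2 : pt 0 1 ∈ Rct L M := pt_mem (by omega) hM
    have d1 : pt 0 0 ≠ pt 1 0 := by rw [Ne, pt_inj]; omega
    have d2 : pt 0 0 ≠ pt 0 1 := by rw [Ne, pt_inj]; omega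
    have d3 : pt 1 0 ≠ pt 0 1 := by rw [Ne, pt_inj]; omega
    by_cases h0 : pt 0 0 ≠ A ∧ pt 0 0 ≠ τ.1.1
    · exact ⟨_, c0, h0⟩
    by_cases h1 : pt 1 0 ≠ A ∧ pt 1 0 ≠ τ.1.1
    · exact ⟨_, c1, h1⟩
    refine ⟨_, c2, ?_, ?_⟩
    · intro h2
      rw [← h2] at h0 h1
      have e0 : pt 0 0 = τ.1.1 := by
        by_contra hn
        exact h0 ⟨d2, hn⟩
      have e1 : pt 1 0 = τ.1.1 := by
        by_contra hn
        exact h1 ⟨d3, hn⟩
      exact d1 (e0.trans e1.symm)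
    · intro h2
      rw [← h2] at h0 h1
      have e0 : pt 0 0 = A := by
        by_contra hn
        exact h0 ⟨hn, d2⟩
      have e1 : pt 1 0 = A := by
        by_contra hn
        exact h1 ⟨hn, d3⟩
      exact d1 (e0.trans e1.symm)
  have hAA : A ∈ Rct L M := hAB.1
  have s0 : ∀ h : (τ.1.1, τ.1.2) ∈ (Rct L M).offDiag, en U ⟨(τ.1.1, τ.1.2), h⟩ τ ≠ 0 :=
    fun h => reach_refl hU τ
  have s1 := m2 τ.1.1 C τ.1.2 (cn_all hL hM hτ.1 hC hτ.2.1 hCA' hτ.2.2.symm) hτ.1 s0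
  have s2 := m1 C A τ.1.1 (cn_all hL hM hC hAA hτ.1 hCA.symm hCA'.symm) hC s1
  exact m2 A B C (cn_all hL hM hAA hAB.2.1 hC hAB.2.2.symm hCA) hAA s2 hσ

end

end KN.ST
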