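import Mathlib

/-!
# The renewal theorem
-/

set_option autoImplicit false

namespace TubeRen

open Filter Topology Finset

/-- limits of the shifts of a bounded sequence along an ultrafilter -/
theorem shifts {x : ℕ → ℝ} (hx : ∀ n, 0 ≤ x n ∧ x n ≤ 1) (𝒰 : Ultrafilter ℕ) :
    ∃ Y : ℕ → ℝ, ∀ j, 0 ≤ Y j ∧ Y j ≤ 1 ∧ Tendsto (fun n => x (n - j)) 𝒰 (𝓝 (Y j)) := by
  have h : ∀ j, ∃ y : ℝ, 0 ≤ y ∧ y ≤ 1 ∧ Tendsto (fun n => x (n - j)) 𝒰 (𝓝 y) := by
    intro j
    have h1 : Set.Icc (0 : ℝ) 1 ∈ 𝒰.map (fun n => x (n - j)) := by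
      rw [Ultrafilter.mem_map]
      exact Filter.univ_mem' (fun n => hx _)
    obtain ⟨y, hy, h2⟩ := (isCompact_Icc (a := (0 : ℝ)) (b := 1)).ultrafilter_le_nhds' _ h1
    exact ⟨y, hy.1, hy.2, h2⟩
  choose Y h1 h2 h3 using h
  exact ⟨Y, fun j => ⟨h1 j, h2 j, h3 j⟩⟩

/-- the renewal equation in the limit -/
theorem lim_eq {f x : ℕ → ℝ} (hf : ∀ n, 0 ≤ f n) (hs : HasSum f 1)
    (hx : ∀ n, 0 ≤ x n ∧ x n ≤ 1)
    (hr : ∀ n, 1 ≤ n → x n = ∑ i ∈ range (n + 1), f i * x (n - i)) {𝒰 : Ultrafilter ℕ}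
    (hU : (𝒰 : Filter ℕ) ≤ atTop) {Y : ℕ → ℝ}
    (hY : ∀ j, Tendsto (fun n => x (n - j)) 𝒰 (𝓝 (Y j))) (j : ℕ) :
    Y j = ∑' i, f i * Y (j + i) := by
  have h1 : Tendsto (fun n => ∑' i, f i * (if i ≤ n - j then x (n - (j + i)) else 0)) 𝒰
      (𝓝 (∑' i, f i * Y (j + i))) := by
    refine tendsto_tsum_of_dominated_convergence (bound := f) hs.summable ?_ ?_
    · intro i
      refine Tendsto.const_mul _ ?_
      refine (hY (j + i)).congr' ?_
      have : ∀ᶠ n in (𝒰 : Filter ℕ), i + j ≤ n := hU (eventually_ge_atTop _)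
      filter_upwards [this] with n hn
      rw [if_pos (by omega)]
    · refine Eventually.of_forall fun n i => ?_
      rw [Real.norm_eq_abs, abs_mul, abs_of_nonneg (hf i)]
      refine mul_le_of_le_one_right (hf i) ?_
      split_ifs
      · rw [abs_of_nonneg (hx _).1]; exact (hx _).2
      · simp
  refine tendsto_nhds_unique (hY j) (h1.congr' ?_)
  have : ∀ᶠ n in (𝒰 : Filter ℕ), j + 1 ≤ n := hU (eventually_ge_atTop _)
  filter_upwards [this] with n hn
  rw [hr (n - j) (by omega), tsum_eq_sum (s := range (n - j + 1))]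
  · refine sum_congr rfl fun i hi => ?_
    rw [mem_range] at hi
    rw [if_pos (by omega)]
    congr 2
    omega
  · intro i hi
    rw [mem_range] at hi
    rw [if_neg (by omega), mul_zero]

/-- extremal values are constant -/
theorem const_of_max {f Y : ℕ → ℝ} {l : ℝ} (hf : ∀ n, 0 ≤ f n) (hs : HasSum f 1) (h1 : 0 < f 1)
    (hb : ∃ C, ∀ j, |Y j| ≤ C) (hY : ∀ j, Y j = ∑' i, f i * Y (j + i)) (hl : ∀ j, Y j ≤ l)
    (h0 : Y 0 = l) : ∀ j, Y j = l := by
  obtain ⟨C, hC⟩ := hb
  intro j
  induction j with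
  | zero => exact h0
  | succ j ih =>
    refine le_antisymm (hl _) ?_
    have hsm : Summable (fun i => f i * Y (j + i)) := by
      refine Summable.of_norm_bounded (g := fun i => f i * C) (hs.summable.mul_right C) ?_
      intro i
      rw [Real.norm_eq_abs, abs_mul, abs_of_nonneg (hf i)]
      exact mul_le_mul_of_nonneg_left (hC _) (hf i)
    have hsl : HasSum (fun i => f i * l) l := by simpa using hs.mul_right l
    have h2 : HasSum (fun i => f i * l - f i * Y (j + i)) (l - Y j) := by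
      have := hsl.sub hsm.hasSum
      rwa [← hY j] at this
    have h3 : f 1 * l - f 1 * Y (j + 1) ≤ l - Y j :=
      le_hasSum h2 1 (fun i _ => by
        have := mul_le_mul_of_nonneg_left (hl (j + i)) (hf i)
        linarith)
    rw [ih, sub_self] at h3
    have h4 : f 1 * l ≤ f 1 * Y (j + 1) := by linarith
    exact le_of_mul_le_mul_left h4 h1

/-- the tail identity -/
theorem tail_id {f x : ℕ → ℝ} {R : ℕ → ℝ} (hf0 : f 0 = 0) (hR0 : R 0 = 1)
    (hR : ∀ j, R (j + 1) = R j - f (j + 1)) (hx0 : x 0 = 1)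
    (hr : ∀ n, 1 ≤ n → x n = ∑ i ∈ range (n + 1), f i * x (n - i)) (n : ℕ) :
    ∑ j ∈ range (n + 1), R j * x (n - j) = 1 := by
  induction n with
  | zero => simp [hR0, hx0]
  | succ n ih =>
    rw [sum_range_succ', Nat.sub_zero, hR0, one_mul, hr (n + 1) (by omega), sum_range_succ' _ (n + 1),
      hf0, zero_mul, add_zero, ← sum_add_distrib]
    rw [← ih]
    refine sum_congr rfl fun j hj => ?_
    rw [hR]
    have : n + 1 - (j + 1) = n - j := by omega
    rw [this]
    ring

/-- the renewal theorem with a finite mean -/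
theorem efp {f x : ℕ → ℝ} (hf : ∀ n, 0 ≤ f n) (hf0 : f 0 = 0) (hs : HasSum f 1) (h1 : 0 < f 1)
    (hm : Summable (fun n : ℕ => (n : ℝ) * f n)) (hx : ∀ n, 0 ≤ x n ∧ x n ≤ 1) (hx0 : x 0 = 1)
    (hr : ∀ n, 1 ≤ n → x n = ∑ i ∈ range (n + 1), f i * x (n - i)) :
    ∃ L : ℝ, 0 < L ∧ Tendsto x atTop (𝓝 L) := by
  set R : ℕ → ℝ := fun j => 1 - ∑ i ∈ range (j + 1), f i with hRdef
  have hR0 : R 0 = 1 := by simp [hRdef, hf0]
  have hR1 : ∀ j, R (j + 1) = R j - f (j + 1) := by
    intro j
    simp only [hRdef]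
    rw [sum_range_succ _ (j + 1)]
    ring
  have hRn : ∀ j, 0 ≤ R j := fun j => by
    have := sum_le_hasSum (range (j + 1)) (fun i _ => hf i) hs
    simp only [hRdef]
    linarith
  have hRs : Summable R := by
    refine summable_of_sum_range_le (c := ∑' n : ℕ, (n : ℝ) * f n) hRn fun n => ?_
    have h2 : ∀ j, HasSum (fun i => if j < i then f i else 0) (R j) := by
      intro j
      have h3 := hs.sub (hasSum_sum_of_ne_finset_zero (f := fun i => if i ∈ range (j + 1) then f i
        else 0) (s := range (j + 1)) (fun i hi => if_neg hi))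
      have h4 : (∑ b ∈ range (j + 1), if b ∈ range (j + 1) then f b else 0) =
          ∑ i ∈ range (j + 1), f i := sum_congr rfl fun i hi => if_pos hi
      rw [h4] at h3
      have e : (fun i => if j < i then f i else 0) =
          fun i => f i - if i ∈ range (j + 1) then f i else 0 := by
        funext i
        by_cases hi : j < i
        · rw [if_pos hi, if_neg (by rw [mem_range]; omega), sub_zero]
        · rw [if_neg hi, if_pos (by rw [mem_range]; omega), sub_self]
      rw [e]
      exact h3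
    have h5 : HasSum (fun i => ∑ j ∈ range n, if j < i then f i else 0) (∑ j ∈ range n, R j) :=
      hasSum_sum fun j _ => h2 j
    rw [← h5.tsum_eq]
    refine h5.summable.tsum_le_tsum (fun i => ?_) hm
    have h6 : ∑ j ∈ range n, (if j < i then f i else 0) ≤ ∑ j ∈ range i, f i := by
      rw [← sum_filter]
      refine sum_le_sum_of_subset_of_nonneg (fun j hj => ?_) (fun j _ _ => hf i)
      rw [mem_filter] at hj
      exact mem_range.2 hj.2
    simpa using h6
  have hid := tail_id hf0 hR0 hR1 hx0 hr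
  -- along an ultrafilter
  have key : ∀ (𝒰 : Ultrafilter ℕ), (𝒰 : Filter ℕ) ≤ atTop → ∀ Y : ℕ → ℝ,
      (∀ j, Tendsto (fun n => x (n - j)) 𝒰 (𝓝 (Y j))) → ∑' j, R j * Y j = 1 := by
    intro 𝒰 hU Y hY
    have h2 : Tendsto (fun n => ∑' j, R j * (if j ≤ n then x (n - j) else 0)) 𝒰
        (𝓝 (∑' j, R j * Y j)) := by
      refine tendsto_tsum_of_dominated_convergence (bound := R) hRs ?_ ?_
      · intro j
        refine Tendsto.const_mul _ ((hY j).congr' ?_)
        have : ∀ᶠ n in (𝒰 : Filter ℕ), j ≤ n := hU (eventually_ge_atTop _)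
        filter_upwards [this] with n hn
        rw [if_pos hn]
      · refine Eventually.of_forall fun n j => ?_
        rw [Real.norm_eq_abs, abs_mul, abs_of_nonneg (hRn j)]
        refine mul_le_of_le_one_right (hRn j) ?_
        split_ifs
        · rw [abs_of_nonneg (hx _).1]; exact (hx _).2
        · simp
    refine tendsto_nhds_unique h2 (tendsto_const_nhds.congr fun n => ?_)
    rw [tsum_eq_sum (s := range (n + 1)) (fun j hj => by
      rw [mem_range] at hj
      rw [if_neg (by omega), mul_zero]), ← hid n]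
    refine sum_congr rfl fun j hj => ?_
    rw [mem_range] at hj
    rw [if_pos (by omega)]
  set m := ∑' j, R j with hmdef
  have hm1 : 1 ≤ m := by
    have := hRs.le_tsum 0 (fun j _ => hRn j)
    rwa [hR0] at this
  -- the limes superior and the limes inferior
  have hbu : IsBoundedUnder (· ≤ ·) atTop x := ⟨1, by simp; exact ⟨0, fun n _ => (hx n).2⟩⟩
  have hbl : IsBoundedUnder (· ≥ ·) atTop x := ⟨0, by simp; exact ⟨0, fun n _ => (hx n).1⟩⟩
  have cl1 : MapClusterPt (limsup x atTop) atTop x := by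
    rw [mapClusterPt_iff_frequently]
    intro s hs'
    obtain ⟨ε, hε, hsub⟩ := Metric.mem_nhds_iff.1 hs'
    have a1 : ∃ᶠ n in atTop, limsup x atTop - ε < x n :=
      frequently_lt_of_lt_limsup hbl.isCoboundedUnder_le (by linarith)
    have a2 : ∀ᶠ n in atTop, x n < limsup x atTop + ε :=
      eventually_lt_of_limsup_lt (by linarith) hbu
    refine (a1.and_eventually a2).mono fun n hn => hsub ?_
    rw [Metric.mem_ball, Real.dist_eq, abs_lt]
    constructor <;> linarith [hn.1, hn.2]
  have cl2 : MapClusterPt (liminf x atTop) atTop x := by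
    rw [mapClusterPt_iff_frequently]
    intro s hs'
    obtain ⟨ε, hε, hsub⟩ := Metric.mem_nhds_iff.1 hs'
    have a1 : ∃ᶠ n in atTop, x n < liminf x atTop + ε :=
      frequently_lt_of_liminf_lt hbu.isCoboundedUnder_ge (by linarith)
    have a2 : ∀ᶠ n in atTop, liminf x atTop - ε < x n :=
      eventually_lt_of_lt_liminf (by linarith) hbl
    refine (a1.and_eventually a2).mono fun n hn => hsub ?_
    rw [Metric.mem_ball, Real.dist_eq, abs_lt]
    constructor <;> linarith [hn.1, hn.2]
  have sup_le : ∀ (𝒰 : Ultrafilter ℕ), (𝒰 : Filter ℕ) ≤ atTop → ∀ (j : ℕ) (y : ℝ),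
      Tendsto (fun n => x (n - j)) 𝒰 (𝓝 y) → y ≤ limsup x atTop ∧ liminf x atTop ≤ y := by
    intro 𝒰 hU j y hy
    constructor
    · refine le_of_forall_pos_le_add fun ε hε => ?_
      refine le_of_tendsto hy ?_
      have a2 : ∀ᶠ n in atTop, x n < limsup x atTop + ε :=
        eventually_lt_of_limsup_lt (by linarith) hbu
      exact hU (((tendsto_sub_atTop_nat j).eventually a2).mono fun n hn => hn.le)
    · refine le_of_forall_pos_le_add fun ε hε => ?_
      have a2 : ∀ᶠ n in atTop, liminf x atTop - ε < x n :=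
        eventually_lt_of_lt_liminf (by linarith) hbl
      have : liminf x atTop - ε ≤ y := ge_of_tendsto hy
        (hU (((tendsto_sub_atTop_nat j).eventually a2).mono fun n hn => hn.le))
      linarith
  have e1 : limsup x atTop * m = 1 := by
    obtain ⟨𝒰, hU, hlim⟩ := mapClusterPt_iff_ultrafilter.1 cl1
    obtain ⟨Y, hY⟩ := shifts hx 𝒰
    have hY0 : Y 0 = limsup x atTop := tendsto_nhds_unique (hY 0).2.2 (by simpa using hlim)
    have hc := const_of_max hf hs h1 ⟨1, fun j => abs_le.2 ⟨by linarith [(hY j).1], (hY j).2.1⟩⟩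
      (lim_eq hf hs hx hr hU fun j => (hY j).2.2) (fun j => (sup_le 𝒰 hU j _ (hY j).2.2).1) hY0
    have := key 𝒰 hU Y fun j => (hY j).2.2
    simp only [hc] at this
    rw [tsum_mul_right] at this
    rw [mul_comm]
    exact this
  have e2 : liminf x atTop * m = 1 := by
    obtain ⟨𝒰, hU, hlim⟩ := mapClusterPt_iff_ultrafilter.1 cl2
    obtain ⟨Y, hY⟩ := shifts hx 𝒰
    have hY0 : Y 0 = liminf x atTop := tendsto_nhds_unique (hY 0).2.2 (by simpa using hlim)
    have hc := const_of_max (Y := fun j => - Y j) (l := - liminf x atTop) hf hs h1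
      ⟨1, fun j => by rw [abs_neg]; exact abs_le.2 ⟨by linarith [(hY j).1], (hY j).2.1⟩⟩
      (fun j => by
        have := lim_eq hf hs hx hr hU (fun j => (hY j).2.2) j
        simp only [mul_neg, tsum_neg]
        rw [← this]) (fun j => neg_le_neg (sup_le 𝒰 hU j _ (hY j).2.2).2) (by simp only [hY0])
    have := key 𝒰 hU Y fun j => (hY j).2.2
    have hc' : ∀ j, Y j = liminf x atTop := fun j => neg_injective (hc j)
    simp only [hc'] at this
    rw [tsum_mul_right] at this
    rw [mul_comm]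
    exact this
  have hm0 : 0 < m := by linarith
  refine ⟨1 / m, by positivity, ?_⟩
  have e3 : limsup x atTop = 1 / m := by rw [eq_div_iff hm0.ne']; exact e1
  have e4 : liminf x atTop = 1 / m := by rw [eq_div_iff hm0.ne']; exact e2
  exact tendsto_of_liminf_eq_limsup e4 e3 hbu hbl

end TubeRen
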