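import Pool.Agent.H132.TB.Sm

/-!
# The asymptotic form
-/

set_option autoImplicit false

namespace KN.ST

open KN KN.KQ Finset PowerSeries TubeRen Filter Topology
open scoped Classical ENNReal

noncomputable section

variable {L M : ℕ}

theorem ts_real {N : ℕ} {k : List V} (h : TS L M N k) : ∃ w, SAP w ∧ Same (vl w) k := by
  cases N with
  | zero =>
    have h1 : SAP sqw := by refine ⟨by simp [sqw], by decide, by decide⟩
    exact ⟨sqw, h1, Same.symm h⟩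
  | succ N =>
    obtain ⟨k', t, -, -, -, l1, v, l2, hF, -, -, h3⟩ := h
    exact ⟨join l1 v l2, S_glueSAP_proof l1 v l2 hF, h3.symm⟩

/-- a state of two adjacent strands -/
def σ₀ (hL : 1 ≤ L) : Sta L M := ⟨(pt 0 0, pt 1 0), mem_offDiag.2 ⟨pt_mem (by omega) (by omega),
  pt_mem hL (by omega), by rw [Ne, pt_inj]; omega⟩⟩

theorem df_σ₀ (hL : 1 ≤ L) : df (σ₀ hL : Sta L M) = vec .yp := by
  simp [df, σ₀, pt, vec]

theorem il_one : IL [.ym] := by
  intro c _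
  simp [X, cx]

theorem ir_one : IR [.yp] := by
  intro c _
  simp [X, cx]

theorem lok₀ (hL : 1 ≤ L) : LOk (σ₀ hL : Sta L M) [.ym] := by
  have hy : Lat Dir.yp := ⟨by decide, by decide⟩
  refine ⟨?_, il_one, ?_⟩
  · rw [df_σ₀]
    exact la_one hy
  · intro p hp
    simp only [path, pos, List.mem_cons, List.not_mem_nil, or_false] at hp
    have h0 := (mem_Rct.1 (pt_mem (L := L) (M := M) (y := 0) (z := 0) (by omega) (by omega))).2
    have h1 := (mem_Rct.1 (pt_mem (L := L) (M := M) (y := 1) (z := 0) hL (by omega))).2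
    rcases hp with rfl | rfl
    · have e : (σ₀ hL : Sta L M).1.2 + (0 + vec .ym) = pt 0 0 := by
        simp [σ₀, pt, vec]
      rw [e]
      exact h0
    · rw [add_zero]
      exact h1

theorem rok₀ (hL : 1 ≤ L) : ROk (σ₀ hL : Sta L M) [.yp] := by
  have hy : Lat Dir.yp := ⟨by decide, by decide⟩
  refine ⟨?_, ir_one, ?_⟩
  · rw [df_σ₀]
    exact (pa_one hy).ra
  · intro p hp
    simp only [path, pos, List.mem_cons, List.not_mem_nil, or_false] at hp
    have h0 := (mem_Rct.1 (pt_mem (L := L) (M := M) (y := 0) (z := 0) (by omega) (by omega))).2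
    have h1 := (mem_Rct.1 (pt_mem (L := L) (M := M) (y := 1) (z := 0) hL (by omega))).2
    rcases hp with rfl | rfl
    · have e : (σ₀ hL : Sta L M).1.1 + (0 + vec .yp) = pt 1 0 := by
        simp [σ₀, pt, vec]
      rw [e]
      exact h1
    · rw [add_zero]
      exact h0

/-- the condition for the straight ends -/
theorem cd₀ (hL : 1 ≤ L) {k : List V} (hk : ∃ w, SAP w ∧ Same (vl w) k) {B : List (Bt L M)}
    (h : Fd sq (B.map ty) k) : Cd k (σ₀ hL) (σ₀ hL) [.ym] [.yp] B := by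
  have hy : Lat Dir.yp := ⟨by decide, by decide⟩
  unfold Cd
  rw [df_σ₀, fd_append]
  have h1 : Same (tL (vec .yp) [.ym]) sq := by
    unfold tL
    rw [cp_one hy]
    exact (sq_x hy).2
  have h2 : Same (tR (vec .yp) [.yp]) sq := by
    unfold tR
    rw [cp_one hy]
    exact (sq_x hy).2
  have h3 : ∃ w, SAP w ∧ Same (vl w) (tR (vec .yp) [.yp]) := by
    refine ⟨_, ?_, Same.refl _⟩
    rw [cp_one hy]
    exact (sq_x hy).1
  obtain ⟨w, -, hw⟩ := isSum_exists hk h3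
  exact ⟨k, fd_left h1.symm h, _, hw, right_unit hw h2⟩

/-- the constants -/
structure Ps (y sr R : ℝ) : Prop where
  s0 : 0 < sr
  hy : y * sr ^ 8 = 1
  R1 : 1 < R
  v : 6 * (sr ^ 2 * R) < 1

theorem ps_exists {y : ℝ} (hy : 1296 < y) : ∃ sr R : ℝ, Ps y sr R := by
  have hy0 : 0 < y := by linarith
  set x : ℝ := y ^ (-(1 / 8) : ℝ) with hx
  have hx0 : 0 < x := Real.rpow_pos_of_pos hy0 _
  have hx8 : y * x ^ 8 = 1 := by
    rw [hx, ← Real.rpow_natCast, ← Real.rpow_mul hy0.le]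
    nth_rewrite 1 [← Real.rpow_one y]
    rw [← Real.rpow_add hy0]
    norm_num
  have h6 : 6 * x ^ 2 < 1 := by
    by_contra hn
    push Not at hn
    have h1 : (1 / 6 : ℝ) ^ 4 ≤ (x ^ 2) ^ 4 :=
      pow_le_pow_left₀ (by norm_num) (by linarith) 4
    have h2 : (x ^ 2) ^ 4 = x ^ 8 := by ring
    rw [h2] at h1
    have h3 : 1296 * (1 / 6 : ℝ) ^ 4 < y * x ^ 8 := by
      calc 1296 * (1 / 6 : ℝ) ^ 4 < y * (1 / 6) ^ 4 := by
            exact mul_lt_mul_of_pos_right hy (by norm_num)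
        _ ≤ y * x ^ 8 := mul_le_mul_of_nonneg_left h1 hy0.le
    rw [hx8] at h3
    norm_num at h3
  have hx2 : 0 < 6 * x ^ 2 := by positivity
  refine ⟨x, (1 + 1 / (6 * x ^ 2)) / 2, hx0, hx8, ?_, ?_⟩
  · have : 1 < 1 / (6 * x ^ 2) := by rw [lt_div_iff₀ hx2]; linarith
    linarith
  · have : 6 * (x ^ 2 * ((1 + 1 / (6 * x ^ 2)) / 2)) = (6 * x ^ 2 + 1) / 2 := by
      field_simp
    rw [this]
    linarith

theorem Ps.ad {y sr R : ℝ} (h : Ps y sr R) : Ad (ENNReal.ofReal sr) (ENNReal.ofReal R) := by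
  have h1 := h.s0
  have h2 := h.R1
  have h3 := h.v
  refine ⟨by simpa using h1, ?_, ?_, by simp, ?_⟩
  · rw [← ENNReal.ofReal_one]
    apply ENNReal.ofReal_le_ofReal
    by_contra hn
    push Not at hn
    nlinarith [pow_pos h1 2]
  · rw [← ENNReal.ofReal_one]
    exact ENNReal.ofReal_le_ofReal h2.le
  · rw [← ENNReal.ofReal_pow h1.le, ← ENNReal.ofReal_mul (by positivity)]
    have : (6 : ℝ≥0∞) = ENNReal.ofReal 6 := by simp
    rw [this, ← ENNReal.ofReal_mul (by norm_num), ← ENNReal.ofReal_one]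
    exact (ENNReal.ofReal_lt_ofReal_iff (by norm_num)).2 h3

/-- the asymptotics of the sums with `j` knotted blocks -/
theorem Ps.tj {y sr R : ℝ} (h : Ps y sr R) (hL : 1 ≤ L) (hM : 1 ≤ M) :
    ∃ z : ℝ, 0 < z ∧ z < R ^ 2 ∧ ∀ (k : List V) (j : ℕ), ∃ C g : ℝ, 0 ≤ C ∧
      As z j (TJ (L := L) (M := M) (ENNReal.ofReal sr) k j) C g ∧
      (0 < g ↔ ∃ (e : Ed L M) (B : List (Bt L M)), we (ENNReal.ofReal sr) e ≠ 0 ∧
        B.length = j ∧ Cd k e.1.1 e.1.2 e.2.1 e.2.2 B) := by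
  have ha := h.ad
  set s := ENNReal.ofReal sr with hs
  have hR1 := h.R1
  have hZ : 0 < R ^ 2 := by positivity
  have hZe : ENNReal.ofReal (R ^ 2) = ENNReal.ofReal R ^ 2 := ENNReal.ofReal_pow (by linarith) 2
  obtain ⟨W, U, hD⟩ := dat_exists (Kt_zero (L := L) (M := M) s) (σ₀ hL)
  obtain ⟨z, B, hz, hzZ, hB, hU⟩ := hD.mr hZ (by rw [hZe]; exact ha.kt_fin)
    (irr_all hL hM ha.s0 hD.hU) (by
      have h1 := Kt_one s (σ₀ hL : Sta L M)
      have h2 : (1 : ℝ≥0∞) < ENNReal.ofReal (R ^ 2) := by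
        rw [← ENNReal.ofReal_one]
        exact (ENNReal.ofReal_lt_ofReal_iff hZ).2 (by nlinarith)
      calc (1 : ℝ≥0∞) < ENNReal.ofReal (R ^ 2) := h2
        _ = ENNReal.ofReal (R ^ 2) * 1 := (mul_one _).symm
        _ ≤ _ := mul_le_mul_right h1 _)
  have hzle : ∀ n : ℕ, ENNReal.ofReal (z ^ n) ≤ (ENNReal.ofReal R ^ 2) ^ n := by
    intro n
    rw [ENNReal.ofReal_pow hz.le, ← hZe]
    exact pow_le_pow_left' (ENNReal.ofReal_le_ofReal hzZ.le) n
  set M1 : ℝ := (∑' x : Bt L M, mwt s x * (ENNReal.ofReal R ^ 2) ^ msz x).toReal with hM1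
  have hMle : ∑' x : Bt L M, mwt s x * ENNReal.ofReal (z ^ msz x) ≤ ENNReal.ofReal M1 := by
    rw [hM1, ENNReal.ofReal_toReal ha.bt_fin]
    exact ENNReal.tsum_le_tsum fun x => mul_le_mul_right (hzle _) _
  set M2 : ℝ := (∑' e : Ed L M, we s e * (ENNReal.ofReal R ^ 2) ^ ae e).toReal with hM2
  have hMle2 : ∑' e : Ed L M, we s e * ENNReal.ofReal (z ^ ae e) ≤ ENNReal.ofReal M2 := by
    rw [hM2, ENNReal.ofReal_toReal ha.ends]
    exact ENNReal.tsum_le_tsum fun x => mul_le_mul_right (hzle _) _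
  refine ⟨z, hz, hzZ, fun k j => ?_⟩
  obtain ⟨C, hC, hY⟩ := yc_as (src := msrc) (tgt := mtgt) (wt := mwt s) (sz := msz) hz hB
    ENNReal.toReal_nonneg hMle (fun b => ωb_ne ha.s0 b.1.2) hU j
  simp only [← AA_eq hD.hU] at hY
  choose γ hγ hpos using fun e : Ed L M => hY (Cd k e.1.1 e.1.2 e.2.1 e.2.2) e.1.1 e.1.2
  obtain ⟨g', h1, h2⟩ := As.mix (c := fun e : Ed L M => we s e) (a := ae)
    (G := fun e n => coeff n (AA s j (Cd k e.1.1 e.1.2 e.2.1 e.2.2)) e.1.1 e.1.2)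
    (γ := γ) hz hC ENNReal.toReal_nonneg hγ hMle2
  refine ⟨_, g', by positivity, h1, ?_⟩
  rw [h2]
  constructor
  · rintro ⟨e, h3, h4⟩
    obtain ⟨B, h5, h6⟩ := (hpos e).1 h4
    exact ⟨e, B, h3, h5, h6⟩
  · rintro ⟨e, B, h3, h5, h6⟩
    exact ⟨e, h3, (hpos e).2 ⟨B, h5, h6⟩⟩

end

end KN.ST
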