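import Pool.Agent.H132.TB.Fn

/-!
# The limit
-/

set_option autoImplicit false

namespace KN.ST

open KN KN.KQ Finset PowerSeries TubeRen Filter Topology
open scoped Classical ENNReal

noncomputable section

variable {L M : ℕ}

/-- the sum over the polygons of an oriented type -/
def SO (L M : ℕ) (y : ℝ) (k : List V) (n : ℕ) : ℝ :=
  ∑ w ∈ K (KO k) n, (Np L M w : ℝ) * y ^ xt w

theorem pow_ratio {j R : ℕ} (h : j ≤ R) : Tendsto (fun N : ℕ => (N : ℝ) ^ j / (N : ℝ) ^ R) atTop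
    (𝓝 (if j = R then 1 else 0)) := by
  by_cases hj : j = R
  · subst hj
    rw [if_pos rfl]
    refine tendsto_const_nhds.congr' ?_
    filter_upwards [eventually_gt_atTop 0] with N hN
    rw [div_self]
    have : (0 : ℝ) < N := by exact_mod_cast hN
    positivity
  · rw [if_neg hj]
    obtain ⟨i, hi⟩ : ∃ i, R = j + (i + 1) := ⟨R - j - 1, by omega⟩
    have h1 : Tendsto (fun N : ℕ => 1 / (N : ℝ) ^ (i + 1)) atTop (𝓝 0) := by
      refine Tendsto.div_atTop tendsto_const_nhds ?_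
      exact (tendsto_pow_atTop (by omega)).comp tendsto_natCast_atTop_atTop
    refine h1.congr' ?_
    filter_upwards [eventually_gt_atTop 0] with N hN
    have : (0 : ℝ) < N := by exact_mod_cast hN
    rw [hi, pow_add (N : ℝ) j]
    field_simp

theorem as_pow {z : ℝ} {j R : ℕ} (hj : j ≤ R) {G : ℕ → ℝ≥0∞} {C g : ℝ} (h : As z j G C g) :
    Tendsto (fun N : ℕ => (G N).toReal * z ^ N / (N : ℝ) ^ R) atTop
      (𝓝 (g * (1 / (j.factorial : ℝ)) * (if j = R then 1 else 0))) := by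
  refine ((h.lim.mul (P_pow j)).mul (pow_ratio hj)).congr' ?_
  filter_upwards [eventually_gt_atTop 0] with N hN
  have h1 : (0 : ℝ) < N := by exact_mod_cast hN
  have h2 := P_pos j N
  field_simp

theorem SO_eq {y : ℝ} (hy : 0 ≤ y) (k : List V) (n : ℕ) : ENNReal.ofReal (SO L M y k n) =
    ∑' w : List Dir, (if SAP w ∧ w.length = n ∧ Same (vl w) k then
      (Np L M w : ℝ≥0∞) * ENNReal.ofReal y ^ xt w else 0) := by
  unfold SO
  rw [ENNReal.ofReal_sum_of_nonneg (fun w _ => by positivity)]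
  rw [tsum_eq_sum (s := K (KO k) n) (fun w hw => if_neg (fun h => hw (mem_K.2 ⟨h.2.1, h.1, h.2.2⟩)))]
  refine Finset.sum_congr rfl fun w hw => ?_
  have h1 := mem_K.1 hw
  rw [if_pos ⟨h1.2.1, h1.1, h1.2.2⟩, ENNReal.ofReal_mul (by positivity), ENNReal.ofReal_natCast,
    ENNReal.ofReal_pow hy]

theorem Ps.lim {y sr R' : ℝ} (h : Ps y sr R') (hL : 1 ≤ L) (hM : 1 ≤ M) :
    ∃ z : ℝ, 0 < z ∧ ∀ (k : List V) (R : ℕ), TS L M R k → (∀ i, TS L M i k → i ≤ R) →
      ∃ G : ℝ, 0 < G ∧ Tendsto (fun N : ℕ => SO L M y k (2 * N) * (sr ^ 8 * z) ^ N /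
        (N * (N : ℝ) ^ R)) atTop (𝓝 G) := by
  obtain ⟨z, hz, hzR, hT⟩ := h.tj hL hM
  refine ⟨z, hz, fun k R hk hR => ?_⟩
  have ha := h.ad
  set s := ENNReal.ofReal sr with hs
  have hs0 := h.s0
  have hR1 := h.R1
  have hy0 : 0 < y := by
    by_contra hn
    push Not at hn
    have h1 := h.hy
    nlinarith [pow_pos hs0 8]
  have hY : ENNReal.ofReal y * s ^ 8 = 1 := by
    rw [hs, ← ENNReal.ofReal_pow hs0.le, ← ENNReal.ofReal_mul hy0.le, h.hy, ENNReal.ofReal_one]
  choose C g hC hg hpos using hT k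
  have hTt : ∀ j N, TJ (L := L) (M := M) s k j N ≠ ⊤ := fun j N => (hg j).fin hz N
  set T : ℕ → ℝ := fun N => (∑ j ∈ range (R + 1), TJ (L := L) (M := M) s k j N).toReal with hTd
  have hTl : Tendsto (fun N : ℕ => T N * z ^ N / (N : ℝ) ^ R) atTop
      (𝓝 (∑ j ∈ range (R + 1), g j * (1 / (j.factorial : ℝ)) * (if j = R then 1 else 0))) := by
    refine (tendsto_finsetSum _ fun j hj => as_pow (j := j) (R := R) (by
      rw [mem_range] at hj; omega) (hg j)).congr fun N => ?_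
    simp only [hTd]
    rw [ENNReal.toReal_sum (fun j _ => hTt j N), sum_mul, sum_div]
  have hsum : ∑ j ∈ range (R + 1), g j * (1 / (j.factorial : ℝ)) * (if j = R then 1 else 0) =
      g R * (1 / (R.factorial : ℝ)) := by
    rw [Finset.sum_eq_single R]
    · simp
    · intro j _ hj
      rw [if_neg hj, mul_zero]
    · intro h1
      exact absurd (mem_range.2 (by omega)) h1
  rw [hsum] at hTl
  have hgR : 0 < g R := by
    rw [hpos]
    obtain ⟨B, hB1, hB2⟩ := blocks_max hk hR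
    refine ⟨((σ₀ hL, σ₀ hL), ([.ym], [.yp])), B, ?_, hB1, cd₀ hL (ts_real hk) hB2⟩
    have hw : we s (((σ₀ hL, σ₀ hL), ([.ym], [.yp])) : Ed L M) = ωa s [.ym] * ωa s [.yp] :=
      if_pos ⟨lok₀ hL, rok₀ hL⟩
    rw [hw]
    exact mul_ne_zero (pow_ne_zero _ ha.s0) (pow_ne_zero _ ha.s0)
  set G : ℝ := 2 * (g R * (1 / (R.factorial : ℝ))) with hG
  have hG0 : 0 < G := by positivity
  refine ⟨G, hG0, ?_⟩
  -- the words without a cut
  set NC : ℕ → ℝ≥0∞ := fun n => (∑' w : List Dir, (if SAP w ∧ w.length = n ∧ Same (vl w) k ∧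
    ¬ ∃ c, X w c = 2 then (Np L M w : ℝ≥0∞) * ENNReal.ofReal y ^ xt w else 0)) * (s ^ 4) ^ n
    with hNC
  have hNCle : ∀ n, NC n ≤ ((Rct L M).card : ℝ≥0∞) * (6 * s ^ 2) ^ n :=
    fun n => nocut_le hY ha.s1 k n
  have hst : s ≠ ⊤ := by rw [hs]; simp
  have hNCt : ∀ n, NC n ≠ ⊤ := fun n => ne_top_of_le_ne_top
    (ENNReal.mul_ne_top (ENNReal.natCast_ne_top _) (ENNReal.pow_ne_top
      (ENNReal.mul_ne_top (by norm_num) (ENNReal.pow_ne_top hst)))) (hNCle n)
  have hid : ∀ N, ENNReal.ofReal (SO L M y k (2 * N)) * (s ^ 4) ^ (2 * N) =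
      ((2 * N : ℕ) : ℝ≥0∞) * ∑ j ∈ range (R + 1), TJ (L := L) (M := M) s k j N + NC (2 * N) := by
    intro N
    rw [SO_eq hy0.le, ← cut_sum hY hR N]
    simp only [hNC]
    rw [← add_mul, ← ENNReal.tsum_add]
    congr 1
    refine tsum_congr fun w => ?_
    by_cases h1 : SAP w ∧ w.length = 2 * N ∧ Same (vl w) k
    · by_cases h2 : ∃ c, X w c = 2
      · rw [if_pos h1, if_pos ⟨h1.1, h1.2.1, h1.2.2, h2⟩, if_neg (fun h3 => h3.2.2.2 h2), add_zero]
      · rw [if_pos h1, if_neg (fun h3 => h2 h3.2.2.2), if_pos ⟨h1.1, h1.2.1, h1.2.2, h2⟩, zero_add]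
    · rw [if_neg h1, if_neg (fun h3 => h1 ⟨h3.1, h3.2.1, h3.2.2.1⟩),
        if_neg (fun h3 => h1 ⟨h3.1, h3.2.1, h3.2.2.1⟩), add_zero]
  have hidr : ∀ N : ℕ, SO L M y k (2 * N) * (sr ^ 8) ^ N = 2 * N * T N + (NC (2 * N)).toReal := by
    intro N
    have h1 := congrArg ENNReal.toReal (hid N)
    have hSO : 0 ≤ SO L M y k (2 * N) := by
      unfold SO
      positivity
    rw [ENNReal.toReal_add (ENNReal.mul_ne_top (ENNReal.natCast_ne_top _)
      (ENNReal.sum_ne_top.2 fun j _ => hTt j N)) (hNCt _), ENNReal.toReal_mul, ENNReal.toReal_mul,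
      ENNReal.toReal_ofReal hSO, ENNReal.toReal_natCast] at h1
    have h2 : ((s ^ 4) ^ (2 * N)).toReal = (sr ^ 8) ^ N := by
      rw [hs, ← ENNReal.ofReal_pow hs0.le, ← ENNReal.ofReal_pow (by positivity),
        ENNReal.toReal_ofReal (by positivity)]
      ring
    rw [h2] at h1
    rw [h1]
    push_cast
    rfl
  -- the limit
  have hq : Tendsto (fun N : ℕ => (NC (2 * N)).toReal * z ^ N / (N * (N : ℝ) ^ R)) atTop
      (𝓝 0) := by
    set q : ℝ := (6 * sr ^ 2) ^ 2 * z with hqd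
    have hq0 : 0 ≤ q := by positivity
    have hq1 : q < 1 := by
      have h1 : (6 * sr ^ 2) ^ 2 * z < (6 * sr ^ 2) ^ 2 * R' ^ 2 :=
        mul_lt_mul_of_pos_left hzR (by positivity)
      have h2 : (6 * sr ^ 2) ^ 2 * R' ^ 2 = (6 * (sr ^ 2 * R')) ^ 2 := by ring
      have h3 : (6 * (sr ^ 2 * R')) ^ 2 < 1 := by
        have h4 := h.v
        have h5 : 0 < 6 * (sr ^ 2 * R') := by positivity
        nlinarith
      linarith
    have h1 : Tendsto (fun N : ℕ => ((Rct L M).card : ℝ) * q ^ N) atTop (𝓝 0) := by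
      have := (tendsto_pow_atTop_nhds_zero_of_lt_one hq0 hq1).const_mul ((Rct L M).card : ℝ)
      rwa [mul_zero] at this
    refine squeeze_zero' ?_ ?_ h1
    · refine Eventually.of_forall fun N => ?_
      have : 0 ≤ (NC (2 * N)).toReal := ENNReal.toReal_nonneg
      positivity
    · filter_upwards [eventually_ge_atTop 1] with N hN
      have hN1 : (1 : ℝ) ≤ N := by exact_mod_cast hN
      have h2 : (NC (2 * N)).toReal ≤ ((Rct L M).card : ℝ) * (6 * sr ^ 2) ^ (2 * N) := by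
        have h3 := ENNReal.toReal_mono (ENNReal.mul_ne_top (ENNReal.natCast_ne_top _)
          (ENNReal.pow_ne_top (ENNReal.mul_ne_top (by norm_num) (ENNReal.pow_ne_top hst))))
          (hNCle (2 * N))
        refine h3.trans (le_of_eq ?_)
        rw [ENNReal.toReal_mul, ENNReal.toReal_natCast, ENNReal.toReal_pow, ENNReal.toReal_mul,
          ENNReal.toReal_pow, hs, ENNReal.toReal_ofReal hs0.le]
        simp
      have h4 : (1 : ℝ) ≤ N * (N : ℝ) ^ R := by
        have := one_le_pow₀ (n := R) hN1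
        nlinarith
      rw [div_le_iff₀ (by linarith)]
      have h5 : 0 ≤ ((Rct L M).card : ℝ) * q ^ N := by positivity
      calc (NC (2 * N)).toReal * z ^ N ≤ ((Rct L M).card : ℝ) * (6 * sr ^ 2) ^ (2 * N) * z ^ N :=
            mul_le_mul_of_nonneg_right h2 (by positivity)
        _ = ((Rct L M).card : ℝ) * q ^ N := by
            rw [hqd, mul_pow, pow_mul]
            ring
        _ = ((Rct L M).card : ℝ) * q ^ N * 1 := (mul_one _).symm
        _ ≤ _ := mul_le_mul_of_nonneg_left h4 h5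
  have hfin := (hTl.const_mul 2).add hq
  rw [add_zero] at hfin
  refine hfin.congr' ?_
  filter_upwards [eventually_ge_atTop 1] with N hN
  have hN1 : (0 : ℝ) < N := by exact_mod_cast hN
  rw [mul_pow, ← mul_assoc, hidr N]
  field_simp

end

end KN.ST
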