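import Pool.Agent.H132.TB.Fn2
import Pool.Agent.H132.ST.Link2

/-!
# Knot types without orientation
-/

set_option autoImplicit false

namespace KN.ST

open KN KN.KQ Finset TubeRen Filter Topology
open scoped Classical ENNReal

noncomputable section

variable {L M : ℕ}

/-- the sum over the polygons of a type -/
def ST' (L M : ℕ) (y : ℝ) (k : List V) (n : ℕ) : ℝ :=
  ∑ w ∈ K (KT k) n, (Np L M w : ℝ) * y ^ xt w

theorem path_back0 {w : List Dir} (h0 : pos w = 0) (p : Z3) : p ∈ path (back w) ↔ p ∈ path w := by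
  have h1 : path (back w) = (path w).reverse := by
    rw [LAYU.path_back, h0]
    simp
  rw [h1, List.mem_reverse]

theorem Np_back {w : List Dir} (h0 : pos w = 0) : Np L M (back w) = Np L M w := by
  unfold Np
  simp only [path_back0 h0]

theorem SO_rev (y : ℝ) (k : List V) (n : ℕ) : SO L M y k.reverse n = SO L M y k n := by
  unfold SO
  refine Finset.sum_bij (fun w _ => back w) ?_ ?_ ?_ ?_
  · intro w hw
    have hw' := mem_K.1 hw
    obtain ⟨h3, h4⟩ := back_word S_rot_proof c_rev S_simple_proof hw'.2.1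
    refine mem_K.2 ⟨by simpa [back] using hw'.1, h3, ?_⟩
    have h5 := (c_rev _ _).2 hw'.2.2
    rw [List.reverse_reverse] at h5
    exact h4.trans h5
  · intro w _ w' _ h
    exact back_inj h
  · intro w hw
    have hw' := mem_K.1 hw
    obtain ⟨h3, h4⟩ := back_word S_rot_proof c_rev S_simple_proof hw'.2.1
    refine ⟨back w, mem_K.2 ⟨by simpa [back] using hw'.1, h3, ?_⟩, back_back' w⟩
    exact h4.trans ((c_rev _ _).2 hw'.2.2)
  · intro w hw
    have hw' := mem_K.1 hw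
    rw [Np_back hw'.2.1.2.1, xt_back hw'.2.1.2.1]

theorem ST_eq (y : ℝ) (k : List V) : ∃ c : ℝ, 0 < c ∧ ∀ n, ST' L M y k n = c * SO L M y k n := by
  by_cases h : Same k k.reverse
  · refine ⟨1, one_pos, fun n => ?_⟩
    rw [one_mul]
    unfold ST' SO
    refine Finset.sum_congr ?_ fun _ _ => rfl
    ext w
    rw [mem_K, mem_K]
    constructor
    · rintro ⟨h1, h2, h3 | h3⟩
      · exact ⟨h1, h2, h3⟩
      · exact ⟨h1, h2, h3.trans h.symm⟩
    · rintro ⟨h1, h2, h3⟩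
      exact ⟨h1, h2, Or.inl h3⟩
  · refine ⟨2, two_pos, fun n => ?_⟩
    have h1 : K (KT k) n = K (KO k) n ∪ K (KO k.reverse) n := by
      ext w
      rw [mem_union, mem_K, mem_K, mem_K]
      constructor
      · rintro ⟨h1, h2, h3 | h3⟩
        · exact Or.inl ⟨h1, h2, h3⟩
        · exact Or.inr ⟨h1, h2, h3⟩
      · rintro (⟨h1, h2, h3⟩ | ⟨h1, h2, h3⟩)
        · exact ⟨h1, h2, Or.inl h3⟩
        · exact ⟨h1, h2, Or.inr h3⟩
    have h2 : Disjoint (K (KO k) n) (K (KO k.reverse) n) := by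
      rw [Finset.disjoint_left]
      intro w h3 h4
      exact h ((Same.symm (mem_K.1 h3).2.2).trans (mem_K.1 h4).2.2)
    have h3 := SO_rev (L := L) (M := M) y k n
    unfold ST'
    rw [h1, Finset.sum_union h2]
    unfold SO at h3 ⊢
    rw [h3]
    ring

/-- knots in the tube, without orientation -/
theorem inT_iff (t : List V) : InT L M t ↔ ∃ w, SAP w ∧ KT t w ∧ 0 < Np L M w := by
  have hN : ∀ w : List Dir, 0 < Np L M w ↔ ∃ u : Z3, ∀ p ∈ path w, Tb L M (u + p) := by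
    intro w
    unfold Np
    rw [Finset.card_pos]
    constructor
    · rintro ⟨u, hu⟩
      rw [mem_filter] at hu
      exact ⟨u, hu.2⟩
    · rintro ⟨u, hu⟩
      have h1 : ∀ p ∈ path w, Tb L M (lt u + p) := fun p hp => (tb_lat (by simp [lt])).1 (hu p hp)
      refine ⟨lt u, ?_⟩
      rw [mem_filter, mem_Rct]
      refine ⟨⟨rfl, ?_⟩, h1⟩
      have := h1 0 (zero_mem_path _)
      rwa [add_zero] at this
  constructor
  · rintro ⟨w, u, h1, h2, h3⟩
    exact ⟨w, h1, Or.inl h2, (hN w).2 ⟨u, h3⟩⟩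
  · rintro ⟨w, h1, h2 | h2, h3⟩
    · obtain ⟨u, hu⟩ := (hN w).1 h3
      exact ⟨w, u, h1, h2, hu⟩
    · obtain ⟨u, hu⟩ := (hN w).1 h3
      obtain ⟨h4, h5⟩ := back_word S_rot_proof c_rev S_simple_proof h1
      have h6 := (c_rev _ _).2 h2
      rw [List.reverse_reverse] at h6
      exact ⟨back w, u, h4, h5.trans h6, fun p hp => hu p ((path_back0 h1.2.1 p).1 hp)⟩

/-- the main theorem -/
theorem tube_main {y : ℝ} (hy : 1296 < y) (hL : 1 ≤ L) (hM : 1 ≤ M) :
    ∃ μ : ℝ, 0 < μ ∧ ∀ (k : List V) (R : ℕ), TS L M R k → (∀ i, TS L M i k → i ≤ R) →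
      ∃ A : ℝ, 0 < A ∧ Tendsto (fun N : ℕ => (ST' L M y k (2 * N) / (2 * ((2 * N : ℕ) : ℝ))) /
        ((2 * N : ℝ) ^ R * μ ^ (2 * N))) atTop (𝓝 A) := by
  obtain ⟨sr, R', h⟩ := ps_exists hy
  obtain ⟨z, hz, hlim⟩ := h.lim hL hM
  have hs0 := h.s0
  have hpos : 0 < sr ^ 8 * z := by positivity
  refine ⟨Real.sqrt (1 / (sr ^ 8 * z)), Real.sqrt_pos.2 (by positivity), fun k R hk hR => ?_⟩
  obtain ⟨G, hG, hT⟩ := hlim k R hk hR
  obtain ⟨c, hc, hce⟩ := ST_eq (L := L) (M := M) y k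
  have hμ : ∀ N : ℕ, Real.sqrt (1 / (sr ^ 8 * z)) ^ (2 * N) = 1 / (sr ^ 8 * z) ^ N := by
    intro N
    rw [pow_mul, Real.sq_sqrt (by positivity), one_div, inv_pow, one_div]
  refine ⟨c * G / (4 * 2 ^ R), by positivity, ?_⟩
  have h1 := hT.const_mul (c / (4 * 2 ^ R))
  have e : c / (4 * 2 ^ R) * G = c * G / (4 * 2 ^ R) := by ring
  rw [e] at h1
  refine h1.congr' ?_
  filter_upwards [eventually_ge_atTop 1] with N hN
  have hN1 : (0 : ℝ) < N := by exact_mod_cast hN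
  rw [hce, hμ, mul_pow (2 : ℝ)]
  push_cast
  field_simp
  ring

end

end KN.ST
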