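import Pool.Agent.H132.TB.Mr5

/-!
# The kernel of a family of blocks
-/

set_option autoImplicit false

namespace TubeRen

open Filter Topology Finset PowerSeries
open scoped ENNReal

variable {S : Type} [Fintype S] [DecidableEq S] {γ : Type}

/-- the kernel -/
noncomputable def Kb (src tgt : γ → S) (wt : γ → ℝ≥0∞) (sz : γ → ℕ) :
    PowerSeries (Matrix S S ℝ≥0∞) :=
  PowerSeries.mk fun n => Matrix.of fun a d =>
    ∑' x, if src x = a ∧ tgt x = d ∧ sz x = n then wt x else 0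

theorem tsum_fin {ι κ : Type} (s : Finset κ) (f : κ → ι → ℝ≥0∞) :
    ∑ i ∈ s, ∑' x, f i x = ∑' x, ∑ i ∈ s, f i x :=
  (Summable.tsum_finsetSum fun _ _ => ENNReal.summable).symm

theorem Kb_mul (src tgt : γ → S) (wt : γ → ℝ≥0∞) (sz : γ → ℕ)
    (Y : PowerSeries (Matrix S S ℝ≥0∞)) :
    Kb src tgt wt sz * Y = Rc src tgt wt sz (fun _ => Y) := by
  ext n a c
  rw [coeff_mul, Matrix.sum_apply]
  simp only [Matrix.mul_apply, Kb, Rc, coeff_mk, Matrix.of_apply]
  have h1 : ∀ p : ℕ × ℕ, ∑ d, (∑' x, if src x = a ∧ tgt x = d ∧ sz x = p.1 then wt x else 0) *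
      coeff p.2 Y d c = ∑' x, ∑ d, (if src x = a ∧ tgt x = d ∧ sz x = p.1 then wt x else 0) *
      coeff p.2 Y d c := by
    intro p
    rw [← tsum_fin]
    refine sum_congr rfl fun d _ => ?_
    rw [ENNReal.tsum_mul_right]
  simp only [h1]
  rw [tsum_fin]
  refine tsum_congr fun x => ?_
  have h2 : ∀ p : ℕ × ℕ, ∑ d, (if src x = a ∧ tgt x = d ∧ sz x = p.1 then wt x else 0) *
      coeff p.2 Y d c = if sz x = p.1 then (if src x = a then wt x else 0) *
        coeff p.2 Y (tgt x) c else 0 := by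
    intro p
    rw [Finset.sum_eq_single (tgt x)]
    · by_cases h3 : sz x = p.1
      · by_cases h4 : src x = a
        · simp [h3, h4]
        · simp [h4]
      · simp [h3]
    · intro d _ hd
      rw [if_neg (fun h => hd h.2.1.symm), zero_mul]
    · simp
  simp only [h2]
  by_cases h3 : sz x ≤ n
  · rw [if_pos h3, Finset.sum_eq_single (sz x, n - sz x)]
    · rw [if_pos rfl]
    · rintro ⟨i, j⟩ hij hne
      rw [Finset.HasAntidiagonal.mem_antidiagonal] at hij
      rw [if_neg]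
      rintro rfl
      exact hne (by simp only at hij ⊢; congr 1; omega)
    · intro h4
      exfalso
      exact h4 (by rw [Finset.HasAntidiagonal.mem_antidiagonal]; simp only; omega)
  · rw [if_neg h3]
    refine Finset.sum_eq_zero fun p hp => ?_
    rw [Finset.HasAntidiagonal.mem_antidiagonal] at hp
    rw [if_neg (by omega)]

theorem Kb_zero {src tgt : γ → S} {wt : γ → ℝ≥0∞} {sz : γ → ℕ} (h : ∀ x, 0 < sz x) :
    coeff 0 (Kb src tgt wt sz) = 0 := by
  ext a c
  simp only [Kb, coeff_mk, Matrix.of_apply, Matrix.zero_apply, ENNReal.tsum_eq_zero]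
  intro x
  rw [if_neg]
  rintro ⟨-, -, h1⟩
  have := h x
  omega

/-- the value of the kernel -/
theorem Kb_ev {src tgt : γ → S} {wt : γ → ℝ≥0∞} {sz : γ → ℕ} (z : ℝ≥0∞) (a d : S) :
    ev z (en (Kb src tgt wt sz) a d) ≤ ∑' x, wt x * z ^ sz x := by
  unfold ev
  simp only [coeff_en, Kb, coeff_mk, Matrix.of_apply, ← ENNReal.tsum_mul_right]
  rw [ENNReal.tsum_comm]
  refine ENNReal.tsum_le_tsum fun x => ?_
  rw [tsum_eq_single (sz x)]
  · split_ifs
    · exact le_refl _
    · rw [zero_mul]; exact zero_le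
  · intro n hn
    rw [if_neg (fun h => hn h.2.2.symm), zero_mul]

/-- one block -/
theorem Kb_ge {src tgt : γ → S} {wt : γ → ℝ≥0∞} {sz : γ → ℕ} (x : γ) :
    wt x ≤ coeff (sz x) (en (Kb src tgt wt sz) (src x) (tgt x)) := by
  simp only [coeff_en, Kb, coeff_mk, Matrix.of_apply]
  refine le_trans ?_ (ENNReal.le_tsum x)
  rw [if_pos ⟨rfl, rfl, rfl⟩]

/-- the matrices of a family of blocks -/
theorem dat_exists {K : PowerSeries (Matrix S S ℝ≥0∞)} (h : coeff 0 K = 0) (o : S) :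
    ∃ W U, Dat K W U o := by
  obtain ⟨W, hW⟩ := sol_exists (K0 K o) 1 (coeff0_K0 h o)
  obtain ⟨U, hU⟩ := sol_exists K 1 h
  exact ⟨W, U, ⟨h, hW, hU⟩⟩

/-- reachable states -/
theorem reach_step {K U : PowerSeries (Matrix S S ℝ≥0∞)} (hU : U = 1 + K * U) {a c b : S}
    (h1 : en K a c ≠ 0) (h2 : en U c b ≠ 0) : en U a b ≠ 0 := by
  intro h
  rw [hU, en_add, en_mul] at h
  obtain ⟨m, hm⟩ := exists_coeff h1
  obtain ⟨n, hn⟩ := exists_coeff h2
  have h3 := congrArg (coeff (m + n)) h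
  rw [map_add, map_zero, map_sum] at h3
  have h4 := (add_eq_zero.1 h3).2
  have h5 := (Finset.sum_eq_zero_iff.1 h4) c (mem_univ c)
  rw [coeff_mul] at h5
  have h6 := (Finset.sum_eq_zero_iff.1 h5) (m, n) (by
    rw [Finset.HasAntidiagonal.mem_antidiagonal])
  exact mul_ne_zero hm hn h6

theorem reach_refl {K U : PowerSeries (Matrix S S ℝ≥0∞)} (hU : U = 1 + K * U) (a : S) :
    en U a a ≠ 0 := by
  intro h
  rw [hU, en_add, en_one, if_pos rfl] at h
  have h3 := congrArg (coeff 0) h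
  rw [map_add, map_zero] at h3
  have h4 := (add_eq_zero.1 h3).1
  simp at h4

end TubeRen
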