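import Pool.Agent.H132.TB.Typ2
import Pool.Agent.H132.TB.Kc

/-!
# The kernel of the tube and the generating functions of the chains
-/

set_option autoImplicit false

namespace KN.ST

open KN KN.KQ Finset PowerSeries TubeRen
open scoped Classical ENNReal

noncomputable section

variable {L M : ℕ}

/-- the parity of a state -/
def pp (σ : Sta L M) : ℕ := (cp (df σ)).length % 2

theorem pp_le (σ : Sta L M) : pp σ ≤ 1 := by
  unfold pp
  omega

/-- triples of two states and a block -/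
abbrev Tr (L M : ℕ) : Type := (Sta L M × Sta L M) × Blk

/-- the unknotted blocks in the tube -/
abbrev T0 (L M : ℕ) : Type := {x : Tr L M //
  TP x.1.1 x.1.2 x.2 ∧ Same (tB (df x.1.1) (df x.1.2) x.2) sq}

/-- the size of a block -/
def szb (x : Tr L M) : ℕ := (bl x.2 + 2 + pp x.1.2 - pp x.1.1) / 2

/-- the weight of a block -/
def ωb (s : ℝ≥0∞) (b : Blk) : ℝ≥0∞ := s ^ (4 * bl b - 8 * wd b)

/-- the weight of a chain -/
def wl (s : ℝ≥0∞) (bs : List Blk) : ℝ≥0∞ := (bs.map (ωb s)).prod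

theorem par_tp {σ τ : Sta L M} {b : Blk} (h : TP σ τ b) :
    2 * szb ((σ, τ), b) + pp σ = bl b + 2 + pp τ ∧ 0 < szb ((σ, τ), b) := by
  have hτ := pa_cp (df_x τ) (df_ne τ)
  have hσ := pa_cp (df_x σ) (df_ne σ)
  have h1 := even_of_closed (sap_poly hσ.la (h.pc.ra hτ.ra)).2.1
  have h2 : (Poly (back (cp (df σ))) (Rw1 b (cp (df τ)))).length =
      (cp (df σ)).length + (cp (df τ)).length + bl b + 4 := by
    simp only [Poly, Rw1, bl, back, List.length_cons, List.length_append, List.length_reverse,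
      List.length_map]
    ring
  rw [h2] at h1
  unfold szb pp
  simp only
  omega

theorem par_l {σ : Sta L M} {l : List Dir} (h : LOk σ l) : (l.length + pp σ) % 2 = 0 := by
  have hσ := pa_cp (df_x σ) (df_ne σ)
  have h1 := even_of_closed (sap_poly h.la hσ.ra).2.1
  have h2 : (Poly l (cp (df σ))).length = l.length + (cp (df σ)).length + 2 := by
    simp only [Poly, List.length_cons, List.length_append]
    ring
  rw [h2] at h1
  unfold pp
  omega

theorem par_r {σ : Sta L M} {r : List Dir} (h : ROk σ r) : (r.length + pp σ) % 2 = 0 ∧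
    1 ≤ r.length := by
  have hσ := pa_cp (df_x σ) (df_ne σ)
  have h1 := even_of_closed (sap_poly hσ.la h.ra).2.1
  have h2 : (Poly (back (cp (df σ))) r).length = r.length + (cp (df σ)).length + 2 := by
    simp only [Poly, back, List.length_cons, List.length_append, List.length_reverse,
      List.length_map]
    ring
  rw [h2] at h1
  have h3 : r ≠ [] := zero_ne_nil (by rw [h.ra.en]; exact h.ra.ne)
  have := List.length_pos_iff.2 h3
  unfold pp
  omega

/-- the kernel of the unknotted blocks -/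
def Kt (L M : ℕ) (s : ℝ≥0∞) : PowerSeries (Matrix (Sta L M) (Sta L M) ℝ≥0∞) :=
  Kb (fun x : T0 L M => x.1.1.1) (fun x => x.1.1.2) (fun x => ωb s x.1.2) (fun x => szb x.1)

theorem Kt_zero (s : ℝ≥0∞) : coeff 0 (Kt L M s) = 0 := Kb_zero fun x => (par_tp x.2.1).2

/-- the generating functions of the chains -/
def AA (s : ℝ≥0∞) (j : ℕ) (Φ : List (Bt L M) → Prop) :
    PowerSeries (Matrix (Sta L M) (Sta L M) ℝ≥0∞) :=
  PowerSeries.mk fun n => Matrix.of fun σ σ' => ∑' bs : List Blk,
    if TC σ bs σ' ∧ (kb σ bs).length = j ∧ Φ (kb σ bs) ∧ 2 * n + pp σ = ln bs + pp σ' then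
      wl s bs else 0

theorem tsum_list (f : List Blk → ℝ≥0∞) :
    ∑' l : List Blk, f l = f [] + ∑' b : Blk, ∑' l : List Blk, f (b :: l) := by
  have h1 : ∑' x : Blk × List Blk, f (x.1 :: x.2) =
      ∑' l : List Blk, (if l = [] then 0 else f l) := by
    have : ∀ x : Blk × List Blk, f (x.1 :: x.2) =
        (fun l : List Blk => if l = [] then 0 else f l) (x.1 :: x.2) := fun x => by simp
    refine (tsum_congr this).trans ?_
    refine Function.Injective.tsum_eq (f := fun l : List Blk => if l = [] then (0 : ℝ≥0∞) else f l)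
      (g := fun x : Blk × List Blk => x.1 :: x.2) ?_ ?_
    · rintro ⟨b, l⟩ ⟨b', l'⟩ h
      simpa using h
    · intro l hl
      cases l with
      | nil => exact absurd (if_pos rfl) hl
      | cons b l => exact ⟨(b, l), rfl⟩
  rw [ENNReal.tsum_prod'] at h1
  rw [h1]
  have h2 : f [] = ∑' l : List Blk, if l = [] then f l else 0 := by
    rw [tsum_eq_single []]
    · simp
    · intro l hl
      rw [if_neg hl]
  rw [h2, ← ENNReal.tsum_add]
  refine tsum_congr fun l => ?_
  split_ifs <;> simp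

theorem tsum_T (Q : Tr L M → Prop) (F : Tr L M → ℝ≥0∞) (σ : Sta L M) :
    ∑' x : {x : Tr L M // Q x}, (if x.1.1.1 = σ then F x.1 else 0) =
      ∑ τ : Sta L M, ∑' b : Blk, if Q ((σ, τ), b) then F ((σ, τ), b) else 0 := by
  have h1 := tsum_subtype {x : Tr L M | Q x} (fun x => if x.1.1 = σ then F x else 0)
  refine h1.trans ?_
  rw [ENNReal.tsum_prod', ENNReal.tsum_prod', tsum_fintype]
  simp only [tsum_fintype]
  rw [Finset.sum_eq_single σ]
  · refine Finset.sum_congr rfl fun τ _ => tsum_congr fun b => ?_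
    simp only [Set.indicator, Set.mem_ofPred_eq, if_true]
  · intro σ' _ hσ'
    refine Finset.sum_eq_zero fun τ _ => ?_
    rw [ENNReal.tsum_eq_zero]
    intro b
    simp only [Set.indicator, Set.mem_ofPred_eq]
    rw [if_neg hσ']
    simp
  · simp

theorem ln_cons' (b : Blk) (bs : List Blk) : ln (b :: bs) = bl b + 2 + ln bs := ln_cons b bs

theorem wl_cons (s : ℝ≥0∞) (b : Blk) (bs : List Blk) : wl s (b :: bs) = ωb s b * wl s bs := by
  simp [wl]

/-- chains that begin with an unknotted block -/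
theorem cons_triv {s : ℝ≥0∞} {j n : ℕ} {Φ : List (Bt L M) → Prop} {σ τ σ' : Sta L M} {b : Blk}
    (h : TP σ τ b) (ht : Same (tB (df σ) (df τ) b) sq) :
    ∑' bs : List Blk, (if TC σ (b :: bs) σ' ∧ (kb σ (b :: bs)).length = j ∧ Φ (kb σ (b :: bs)) ∧
      2 * n + pp σ = ln (b :: bs) + pp σ' then wl s (b :: bs) else 0) =
    if szb ((σ, τ), b) ≤ n then ωb s b * coeff (n - szb ((σ, τ), b)) (AA s j Φ) τ σ' else 0 := by
  have hp := par_tp h
  have hk : ∀ bs, kb σ (b :: bs) = kb τ bs := fun bs => by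
    rw [kb_cons h, dif_neg (by simpa using ht)]
  have hTC : ∀ bs, TC σ (b :: bs) σ' ↔ TC τ bs σ' := fun bs => by
    constructor
    · rintro ⟨ρ, h1, h2⟩
      rw [h.uniq h1]
      exact h2
    · intro h2
      exact ⟨τ, h, h2⟩
  simp only [hk, hTC, ln_cons', wl_cons]
  split_ifs with hn
  · simp only [AA, coeff_mk, Matrix.of_apply]
    rw [← ENNReal.tsum_mul_left]
    refine tsum_congr fun bs => ?_
    have e : (2 * n + pp σ = bl b + 2 + ln bs + pp σ') ↔
        (2 * (n - szb ((σ, τ), b)) + pp τ = ln bs + pp σ') := by omega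
    simp only [e]
    split_ifs <;> simp
  · rw [ENNReal.tsum_eq_zero]
    intro bs
    rw [if_neg]
    rintro ⟨-, -, -, h4⟩
    have h1 := pp_le σ
    have h2 := pp_le τ
    have h3 := pp_le σ'
    omega

/-- chains that begin with a knotted block -/
theorem cons_knot {s : ℝ≥0∞} {j n : ℕ} {Φ : List (Bt L M) → Prop} {σ τ σ' : Sta L M} {b : Blk}
    (h : TP σ τ b) (ht : ¬ Same (tB (df σ) (df τ) b) sq) :
    ∑' bs : List Blk, (if TC σ (b :: bs) σ' ∧ (kb σ (b :: bs)).length = j + 1 ∧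
      Φ (kb σ (b :: bs)) ∧ 2 * n + pp σ = ln (b :: bs) + pp σ' then wl s (b :: bs) else 0) =
    if szb ((σ, τ), b) ≤ n then ωb s b * coeff (n - szb ((σ, τ), b))
      (AA s j (fun B => Φ ((⟨((σ, τ), b), h, ht⟩ : Bt L M) :: B))) τ σ' else 0 := by
  have hp := par_tp h
  have hk : ∀ bs, kb σ (b :: bs) = (⟨((σ, τ), b), h, ht⟩ : Bt L M) :: kb τ bs := fun bs => by
    rw [kb_cons h, dif_pos ht]
  have hTC : ∀ bs, TC σ (b :: bs) σ' ↔ TC τ bs σ' := fun bs => by
    constructor
    · rintro ⟨ρ, h1, h2⟩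
      rw [h.uniq h1]
      exact h2
    · intro h2
      exact ⟨τ, h, h2⟩
  simp only [hk, hTC, ln_cons', wl_cons, List.length_cons, add_left_inj]
  split_ifs with hn
  · simp only [AA, coeff_mk, Matrix.of_apply]
    rw [← ENNReal.tsum_mul_left]
    refine tsum_congr fun bs => ?_
    have e : (2 * n + pp σ = bl b + 2 + ln bs + pp σ') ↔
        (2 * (n - szb ((σ, τ), b)) + pp τ = ln bs + pp σ') := by omega
    simp only [e]
    split_ifs <;> simp
  · rw [ENNReal.tsum_eq_zero]
    intro bs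
    rw [if_neg]
    rintro ⟨-, -, -, h4⟩
    have h1 := pp_le σ
    have h2 := pp_le τ
    have h3 := pp_le σ'
    omega

/-- no knotted blocks: the list begins with an unknotted block -/
theorem cons_knot0 {s : ℝ≥0∞} {n : ℕ} {Φ : List (Bt L M) → Prop} {σ τ σ' : Sta L M} {b : Blk}
    (h : TP σ τ b) (ht : ¬ Same (tB (df σ) (df τ) b) sq) :
    ∑' bs : List Blk, (if TC σ (b :: bs) σ' ∧ (kb σ (b :: bs)).length = 0 ∧
      Φ (kb σ (b :: bs)) ∧ 2 * n + pp σ = ln (b :: bs) + pp σ' then wl s (b :: bs) else 0) = 0 := by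
  rw [ENNReal.tsum_eq_zero]
  intro bs
  rw [if_neg]
  rintro ⟨-, h4, -⟩
  rw [kb_cons h, dif_pos ht] at h4
  simp at h4

/-- the sum over the first blocks -/
theorem first_sum {s : ℝ≥0∞} {j n : ℕ} {Φ : List (Bt L M) → Prop} {σ σ' : Sta L M} :
    coeff n (AA s j Φ) σ σ' = (if σ = σ' ∧ j = 0 ∧ Φ [] ∧ n = 0 then 1 else 0) +
      ∑ τ : Sta L M, ∑' b : Blk, if TP σ τ b then ∑' bs : List Blk,
        (if TC σ (b :: bs) σ' ∧ (kb σ (b :: bs)).length = j ∧ Φ (kb σ (b :: bs)) ∧
        2 * n + pp σ = ln (b :: bs) + pp σ' then wl s (b :: bs) else 0) else 0 := by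
  simp only [AA, coeff_mk, Matrix.of_apply]
  rw [tsum_list]
  congr 1
  · simp only [TC, kb, List.length_nil, ln_nil, wl, List.map_nil, List.prod_nil, zero_add]
    by_cases h : σ = σ'
    · subst h
      simp only [true_and]
      by_cases h0 : j = 0
      · subst h0
        by_cases hn : n = 0
        · subst hn
          simp
        · rw [if_neg (by omega), if_neg (fun h => hn h.2.2)]
      · rw [if_neg (fun h => h0 h.1.symm), if_neg (fun h => h0 h.1)]
    · rw [if_neg (fun h' => h h'.1), if_neg (fun h' => h h'.1)]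
  · rw [tsum_fin]
    refine tsum_congr fun b => ?_
    by_cases hex : ∃ τ, TP σ τ b
    · obtain ⟨τ, hτ⟩ := hex
      rw [Finset.sum_eq_single τ]
      · rw [if_pos hτ]
      · intro ρ _ hρ
        rw [if_neg]
        intro h
        exact hρ (h.uniq hτ)
      · simp
    · rw [Finset.sum_eq_zero (fun τ _ => if_neg fun h => hex ⟨τ, h⟩), ENNReal.tsum_eq_zero]
      intro bs
      rw [if_neg]
      rintro ⟨⟨τ, h1, -⟩, -⟩
      exact hex ⟨τ, h1⟩

/-- the marked blocks -/
abbrev msrc (x : Bt L M) : Sta L M := x.1.1.1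
abbrev mtgt (x : Bt L M) : Sta L M := x.1.1.2
abbrev mwt (s : ℝ≥0∞) (x : Bt L M) : ℝ≥0∞ := ωb s x.1.2
abbrev msz (x : Bt L M) : ℕ := szb x.1

theorem Kt_mul {s : ℝ≥0∞} {n : ℕ} {σ σ' : Sta L M}
    (Y : PowerSeries (Matrix (Sta L M) (Sta L M) ℝ≥0∞)) :
    coeff n (Kt L M s * Y) σ σ' = ∑ τ : Sta L M, ∑' b : Blk,
      if TP σ τ b ∧ Same (tB (df σ) (df τ) b) sq then
        (if szb ((σ, τ), b) ≤ n then ωb s b * coeff (n - szb ((σ, τ), b)) Y τ σ' else 0)
      else 0 := by
  unfold Kt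
  rw [Kb_mul]
  simp only [Rc, coeff_mk, Matrix.of_apply]
  refine Eq.trans ?_ ((tsum_T (fun x : Tr L M => TP x.1.1 x.1.2 x.2 ∧
    Same (tB (df x.1.1) (df x.1.2) x.2) sq)
    (fun x => if szb x ≤ n then ωb s x.2 * coeff (n - szb x) Y x.1.2 σ' else 0) σ).trans ?_)
  · refine tsum_congr fun x => ?_
    split_ifs <;> simp
  · refine Finset.sum_congr rfl fun τ _ => tsum_congr fun b => ?_
    by_cases h : TP σ τ b ∧ Same (tB (df σ) (df τ) b) sq
    · rw [if_pos h, if_pos h]
    · rw [if_neg h, if_neg h]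

theorem AA_zero {s : ℝ≥0∞} {Φ : List (Bt L M) → Prop} :
    AA s 0 Φ = (if Φ [] then 1 else 0) + Kt L M s * AA s 0 Φ := by
  ext n σ σ'
  rw [map_add, Matrix.add_apply, Kt_mul, first_sum]
  congr 1
  · by_cases h : Φ []
    · rw [if_pos h]
      simp only [h, true_and]
      rw [coeff_one]
      by_cases hn : n = 0
      · subst hn
        simp [Matrix.one_apply]
      · simp [hn]
    · rw [if_neg h]
      simp [h]
  · refine Finset.sum_congr rfl fun τ _ => tsum_congr fun b => ?_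
    by_cases h : TP σ τ b
    · rw [if_pos h]
      by_cases ht : Same (tB (df σ) (df τ) b) sq
      · rw [if_pos ⟨h, ht⟩, cons_triv h ht]
      · rw [if_neg (fun h' => ht h'.2), cons_knot0 h ht]
    · rw [if_neg h, if_neg (fun h' => h h'.1)]

theorem AA_succ {s : ℝ≥0∞} {j : ℕ} {Φ : List (Bt L M) → Prop} :
    AA s (j + 1) Φ = Rc msrc mtgt (mwt s) msz (fun x => AA s j (fun B => Φ (x :: B))) +
      Kt L M s * AA s (j + 1) Φ := by
  ext n σ σ'
  rw [map_add, Matrix.add_apply, Kt_mul, first_sum, if_neg (fun h => by simp at h), zero_add]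
  have h1 : coeff n (Rc msrc mtgt (mwt s) msz (fun x : Bt L M =>
      AA s j (fun B => Φ (x :: B)))) σ σ' = ∑ τ : Sta L M, ∑' b : Blk,
      if h : TP σ τ b ∧ ¬ Same (tB (df σ) (df τ) b) sq then
        (if szb ((σ, τ), b) ≤ n then ωb s b * coeff (n - szb ((σ, τ), b))
          (AA s j (fun B => Φ ((⟨((σ, τ), b), h⟩ : Bt L M) :: B))) τ σ' else 0)
      else 0 := by
    simp only [Rc, coeff_mk, Matrix.of_apply]
    have h2 := tsum_T (fun x : Tr L M => TP x.1.1 x.1.2 x.2 ∧
      ¬ Same (tB (df x.1.1) (df x.1.2) x.2) sq) (fun x => if h : TP x.1.1 x.1.2 x.2 ∧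
      ¬ Same (tB (df x.1.1) (df x.1.2) x.2) sq then (if szb x ≤ n then ωb s x.2 *
        coeff (n - szb x) (AA s j (fun B => Φ ((⟨x, h⟩ : Bt L M) :: B))) x.1.2 σ' else 0)
        else 0) σ
    refine Eq.trans ?_ (h2.trans ?_)
    · refine tsum_congr fun x => ?_
      rw [dif_pos x.2]
      split_ifs <;> simp
    · refine Finset.sum_congr rfl fun τ _ => tsum_congr fun b => ?_
      simp only
      split_ifs <;> rfl
  rw [h1, ← Finset.sum_add_distrib]
  refine Finset.sum_congr rfl fun τ _ => ?_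
  rw [← ENNReal.tsum_add]
  refine tsum_congr fun b => ?_
  by_cases h : TP σ τ b
  · rw [if_pos h]
    by_cases ht : Same (tB (df σ) (df τ) b) sq
    · rw [dif_neg (fun h' => h'.2 ht), if_pos ⟨h, ht⟩, cons_triv h ht, zero_add]
    · rw [cons_knot h ht, dif_pos ⟨h, ht⟩,
        if_neg (c := TP σ τ b ∧ Same (tB (df σ) (df τ) b) sq) (fun h' => ht h'.2), add_zero]
  · rw [if_neg h, dif_neg (fun h' => h h'.1), if_neg (fun h' => h h'.1), add_zero]

/-- the generating functions are those of the abstract recursion -/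
theorem AA_eq {s : ℝ≥0∞} {U : PowerSeries (Matrix (Sta L M) (Sta L M) ℝ≥0∞)}
    (hU : U = 1 + Kt L M s * U) (j : ℕ) : ∀ Φ : List (Bt L M) → Prop,
    AA s j Φ = Yc U msrc mtgt (mwt s) msz j Φ := by
  induction j with
  | zero =>
    intro Φ
    refine sol_unique (Kt_zero s) AA_zero ?_
    simp only [Yc]
    by_cases h : Φ []
    · rw [if_pos h, if_pos h]
      exact hU
    · rw [if_neg h, if_neg h, mul_zero, add_zero]
  | succ j ih =>
    intro Φ
    refine sol_unique (Kt_zero s) AA_succ ?_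
    simp only [Yc]
    simp only [← ih]
    set R := Rc msrc mtgt (mwt s) msz (fun x : Bt L M => AA s j (fun B => Φ (x :: B))) with hR
    calc U * R = (1 + Kt L M s * U) * R := by rw [← hU]
      _ = R + Kt L M s * (U * R) := by rw [add_mul, one_mul, mul_assoc]

end

end KN.ST
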