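import Pool.Agent.H132.TB.As

/-!
# Convolutions and chains with finitely many marked blocks
-/

set_option autoImplicit false

namespace TubeRen

open Filter Topology Finset PowerSeries Asymptotics
open scoped ENNReal

variable {z : ℝ} {j : ℕ} {C g : ℝ}

theorem avg {a : ℕ → ℝ} {p : ℕ → ℝ} {l : ℝ} (hp : ∀ n, 0 < p n)
    (hs : Tendsto (fun n => ∑ i ∈ range n, p i) atTop atTop)
    (h : Tendsto (fun n => a n / p n) atTop (𝓝 l)) :
    Tendsto (fun m => (∑ i ∈ range (m + 1), a i) / ∑ i ∈ range (m + 1), p i) atTop (𝓝 l) := by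
  have h1 : (fun n => a n - l * p n) =o[atTop] p := by
    rw [isLittleO_iff_tendsto' (Eventually.of_forall fun n hn => absurd hn (hp n).ne')]
    have h2 := h.sub_const l
    rw [sub_self] at h2
    refine h2.congr fun n => ?_
    rw [sub_div, mul_div_assoc, div_self (hp n).ne', mul_one]
  have h2 := h1.sum_range (fun n => (hp n).le) hs
  have h3 := h2.tendsto_div_nhds_zero
  have h4 := (h3.comp (tendsto_add_atTop_nat 1)).add_const l
  rw [zero_add] at h4
  refine h4.congr fun m => ?_
  simp only [Function.comp]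
  have hpos : 0 < ∑ i ∈ range (m + 1), p i :=
    sum_pos (fun i _ => hp i) ⟨0, by simp⟩
  rw [sum_sub_distrib, ← mul_sum, sub_div, mul_div_assoc, div_self hpos.ne', mul_one,
    sub_add_cancel]

theorem P_sum_top (j : ℕ) : Tendsto (fun n => ∑ i ∈ range n, P j i) atTop atTop := by
  have h1 : ∀ n : ℕ, (n : ℝ) ≤ ∑ i ∈ range n, P j i := by
    intro n
    have h2 : ∀ i ∈ range n, (1 : ℝ) ≤ P j i := by
      intro i _
      unfold P
      exact_mod_cast Nat.choose_pos (Nat.le_add_left j i)
    calc (n : ℝ) = ∑ _i ∈ range n, (1 : ℝ) := by simp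
      _ ≤ _ := sum_le_sum h2
  exact tendsto_atTop_mono h1 tendsto_natCast_atTop_atTop

/-- the convolution of a convergent sequence and one of polynomial growth -/
theorem As.conv {x G : ℕ → ℝ≥0∞} {B L : ℝ} (hz : 0 < z) (hB : 0 ≤ B) (hC : 0 ≤ C)
    (hx : As z 0 x B L) (hG : As z j G C g) :
    As z (j + 1) (fun m => ∑ i ∈ range (m + 1), x (m - i) * G i) (B * C) (L * g) := by
  have hxb : ∀ m, x m * ENNReal.ofReal (z ^ m) ≤ ENNReal.ofReal B := fun m => by
    have := hx.bd m
    rwa [P_zero, mul_one] at this
  refine ⟨fun m => ?_, ?_⟩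
  · rw [sum_mul, ← P_sum, mul_sum, ENNReal.ofReal_sum_of_nonneg (fun i _ => by
      have := P_pos j i
      positivity)]
    refine sum_le_sum fun i hi => ?_
    rw [mem_range] at hi
    have e : z ^ m = z ^ (m - i) * z ^ i := by rw [← pow_add]; congr 1; omega
    rw [e, ENNReal.ofReal_mul (by positivity), mul_assoc B, ENNReal.ofReal_mul hB]
    calc x (m - i) * G i * (ENNReal.ofReal (z ^ (m - i)) * ENNReal.ofReal (z ^ i)) =
          (x (m - i) * ENNReal.ofReal (z ^ (m - i))) * (G i * ENNReal.ofReal (z ^ i)) := by ring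
      _ ≤ _ := mul_le_mul' (hxb _) (hG.bd i)
  · set xr : ℕ → ℝ := fun m => (x m).toReal * z ^ m with hxr
    set Gr : ℕ → ℝ := fun m => (G m).toReal * z ^ m with hGr
    have hxl : Tendsto xr atTop (𝓝 L) := by
      have := hx.lim
      simp only [P_zero, div_one] at this
      exact this
    have hGl : Tendsto (fun m => Gr m / P j m) atTop (𝓝 g) := hG.lim
    have hGb : ∀ m, Gr m ≤ C * P j m := fun m => hG.bdr hz hC m
    have hG0 : ∀ m, 0 ≤ Gr m := fun m => by
      have : 0 ≤ (G m).toReal := ENNReal.toReal_nonneg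
      simp only [hGr]; positivity
    have e0 : ∀ m, (∑ i ∈ range (m + 1), x (m - i) * G i).toReal * z ^ m =
        ∑ i ∈ range (m + 1), xr (m - i) * Gr i := by
      intro m
      rw [ENNReal.toReal_sum (fun i _ => ENNReal.mul_ne_top (hx.fin hz _) (hG.fin hz _)), sum_mul]
      refine sum_congr rfl fun i hi => ?_
      rw [mem_range] at hi
      have e : z ^ m = z ^ (m - i) * z ^ i := by rw [← pow_add]; congr 1; omega
      rw [ENNReal.toReal_mul, e]
      simp only [hxr, hGr]
      ring
    simp only [e0]
    have h2 : Tendsto (fun m => (∑ i ∈ range (m + 1), Gr i) / P (j + 1) m) atTop (𝓝 g) := by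
      have := avg (P_pos j) (P_sum_top j) hGl
      simpa only [P_sum] using this
    have h3 : Tendsto (fun m : ℕ => (∑ i ∈ range (m + 1), |xr i - L|) / ((m : ℝ) + 1)) atTop
        (𝓝 0) := by
      have h4 : Tendsto (fun n => |xr n - L| / P 0 n) atTop (𝓝 0) := by
        simp only [P_zero, div_one]
        have := (hxl.sub_const L).abs
        simpa using this
      have := avg (P_pos 0) (P_sum_top 0) h4
      refine this.congr fun m => ?_
      congr 1
      simp [P_zero]
    have h5 : Tendsto (fun m => (∑ i ∈ range (m + 1), (xr (m - i) - L) * Gr i) / P (j + 1) m)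
        atTop (𝓝 0) := by
      have h6 := h3.const_mul (C * (j + 1))
      rw [mul_zero] at h6
      refine squeeze_zero_norm (fun m => ?_) h6
      have hP1 := P_pos (j + 1) m
      have hP := P_pos j m
      rw [Real.norm_eq_abs, abs_div, abs_of_pos hP1, div_le_iff₀ hP1]
      have h7 : |∑ i ∈ range (m + 1), (xr (m - i) - L) * Gr i| ≤
          C * P j m * ∑ i ∈ range (m + 1), |xr i - L| := by
        refine (abs_sum_le_sum_abs _ _).trans ?_
        rw [← Finset.sum_range_reflect (fun i => |xr i - L|), mul_sum]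
        refine sum_le_sum fun i hi => ?_
        rw [mem_range] at hi
        have e : m + 1 - 1 - i = m - i := by omega
        rw [e, abs_mul, abs_of_nonneg (hG0 i), mul_comm]
        refine mul_le_mul_of_nonneg_right ?_ (abs_nonneg _)
        exact (hGb i).trans (mul_le_mul_of_nonneg_left (P_mono j (by omega)) hC)
      refine h7.trans ?_
      have h8 := P_ge j m
      have hS : 0 ≤ ∑ i ∈ range (m + 1), |xr i - L| := sum_nonneg fun i _ => abs_nonneg _
      have hm : (0 : ℝ) < m + 1 := by positivity
      have e2 : C * (j + 1) * ((∑ i ∈ range (m + 1), |xr i - L|) / ((m : ℝ) + 1)) * P (j + 1) m =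
          C * (((j + 1) * P (j + 1) m) / (m + 1)) * ∑ i ∈ range (m + 1), |xr i - L| := by
        field_simp
      rw [e2]
      refine mul_le_mul_of_nonneg_right (mul_le_mul_of_nonneg_left ?_ hC) hS
      rw [le_div_iff₀ hm]
      exact h8
    have h9 := h5.add (h2.const_mul L)
    rw [zero_add] at h9
    refine h9.congr fun m => ?_
    rw [← mul_div_assoc, ← add_div]
    congr 1
    rw [mul_sum, ← sum_add_distrib]
    refine sum_congr rfl fun i _ => ?_
    ring

section Chain

variable {S : Type} [Fintype S] [DecidableEq S] {β : Type}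

/-- a marked block followed by a chain -/
noncomputable def Rc (src tgt : β → S) (wt : β → ℝ≥0∞) (sz : β → ℕ)
    (Y : β → PowerSeries (Matrix S S ℝ≥0∞)) : PowerSeries (Matrix S S ℝ≥0∞) :=
  PowerSeries.mk fun n => Matrix.of fun a c => ∑' b, if sz b ≤ n then
    (if src b = a then wt b else 0) * coeff (n - sz b) (Y b) (tgt b) c else 0

open scoped Classical in
/-- chains with `j` marked blocks with a condition on the list of the marked blocks -/
noncomputable def Yc (U : PowerSeries (Matrix S S ℝ≥0∞)) (src tgt : β → S) (wt : β → ℝ≥0∞)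
    (sz : β → ℕ) : ℕ → (List β → Prop) → PowerSeries (Matrix S S ℝ≥0∞)
  | 0, Φ => if Φ [] then U else 0
  | j + 1, Φ => U * Rc src tgt wt sz (fun b => Yc U src tgt wt sz j (fun L => Φ (b :: L)))

variable {U : PowerSeries (Matrix S S ℝ≥0∞)} {src tgt : β → S} {wt : β → ℝ≥0∞} {sz : β → ℕ}

theorem yc_as (hz : 0 < z) {B M : ℝ} (hB : 0 ≤ B) (hM0 : 0 ≤ M)
    (hM : ∑' b, wt b * ENNReal.ofReal (z ^ sz b) ≤ ENNReal.ofReal M) (hwt : ∀ b, wt b ≠ 0)
    (hU : ∀ a b, ∃ L, 0 < L ∧ As z 0 (fun n => coeff n U a b) B L) (j : ℕ) :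
    ∃ C, 0 ≤ C ∧ ∀ (Φ : List β → Prop) (a c : S), ∃ g,
      As z j (fun n => coeff n (Yc U src tgt wt sz j Φ) a c) C g ∧
      (0 < g ↔ ∃ L : List β, L.length = j ∧ Φ L) := by
  classical
  induction j with
  | zero =>
    refine ⟨B, hB, fun Φ a c => ?_⟩
    by_cases h : Φ []
    · obtain ⟨L, hL, hA⟩ := hU a c
      refine ⟨L, ?_, ?_⟩
      · simp only [Yc, if_pos h]
        exact hA
      · simp only [hL, true_iff]
        exact ⟨[], rfl, h⟩
    · refine ⟨0, ?_, ?_⟩
      · simp only [Yc, if_neg h]
        exact As.zero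
      · simp only [lt_irrefl, false_iff]
        rintro ⟨L, h1, h2⟩
        rw [List.length_eq_zero_iff] at h1
        subst h1
        exact h h2
  | succ j ih =>
    obtain ⟨C, hC, hY⟩ := ih
    refine ⟨Fintype.card S * (B * (M * C)), by positivity, fun Φ a c => ?_⟩
    choose γ hγ hpos using fun b : β => hY (fun L => Φ (b :: L)) (tgt b) c
    have hmix : ∀ a' : S, ∃ g', As z j (fun n => coeff n (Rc src tgt wt sz
        (fun b => Yc U src tgt wt sz j (fun L => Φ (b :: L)))) a' c) (M * C) g' ∧
        (0 < g' ↔ ∃ b, src b = a' ∧ 0 < γ b) := by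
      intro a'
      obtain ⟨g', h1, h2⟩ := As.mix (c := fun b => if src b = a' then wt b else 0) (a := sz)
        (G := fun b n => coeff n (Yc U src tgt wt sz j (fun L => Φ (b :: L))) (tgt b) c)
        (γ := γ) hz hC hM0 hγ (le_trans (ENNReal.tsum_le_tsum fun b => by
          split_ifs
          · exact le_refl _
          · rw [zero_mul]; exact zero_le) hM)
      refine ⟨g', ?_, ?_⟩
      · simpa only [Rc, coeff_mk, Matrix.of_apply] using h1
      · rw [h2]
        constructor
        · rintro ⟨b, h3, h4⟩
          refine ⟨b, ?_, h4⟩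
          by_contra hn
          rw [if_neg hn] at h3
          exact h3 rfl
        · rintro ⟨b, h3, h4⟩
          exact ⟨b, by rw [if_pos h3]; exact hwt b, h4⟩
    choose g' hg' hpos' using hmix
    choose L hL hA using fun a' => hU a a'
    have hconv : ∀ a' : S, As z (j + 1) (fun m => ∑ i ∈ range (m + 1),
        coeff (m - i) U a a' * coeff i (Rc src tgt wt sz
        (fun b => Yc U src tgt wt sz j (fun L => Φ (b :: L)))) a' c) (B * (M * C))
        (L a' * g' a') := fun a' => As.conv hz hB (by positivity) (hA a') (hg' a')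
    refine ⟨∑ a', L a' * g' a', ?_, ?_⟩
    · have h1 := As.sum (Finset.univ : Finset S) hz hconv
      rw [Finset.card_univ] at h1
      refine ⟨fun m => ?_, ?_⟩
      · refine le_trans (le_of_eq ?_) (h1.bd m)
        congr 1
        simp only [Yc]
        rw [← coeff_en, en_mul, map_sum]
        refine sum_congr rfl fun a' _ => ?_
        rw [coeff_mul, Finset.Nat.sum_antidiagonal_eq_sum_range_succ_mk,
          ← Finset.sum_range_reflect]
        refine sum_congr rfl fun i hi => ?_
        rw [mem_range] at hi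
        have e1 : m + 1 - 1 - i = m - i := by omega
        have e2 : m - (m - i) = i := by omega
        simp only [e1, e2, coeff_en]
      · refine h1.lim.congr fun m => ?_
        congr 3
        simp only [Yc]
        rw [← coeff_en (P := U * _), en_mul, map_sum]
        refine sum_congr rfl fun a' _ => ?_
        rw [coeff_mul, Finset.Nat.sum_antidiagonal_eq_sum_range_succ_mk,
          ← Finset.sum_range_reflect]
        refine sum_congr rfl fun i hi => ?_
        rw [mem_range] at hi
        have e1 : m + 1 - 1 - i = m - i := by omega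
        have e2 : m - (m - i) = i := by omega
        simp only [e1, e2, coeff_en]
    · have hnn : ∀ a', 0 ≤ g' a' := fun a' => (hg' a').nonneg hz
      constructor
      · intro h
        obtain ⟨a', -, h1⟩ := exists_lt_of_sum_lt (s := (Finset.univ : Finset S))
          (f := fun _ => (0 : ℝ)) (g := fun a' => L a' * g' a') (by simpa using h)
        have h2 : 0 < g' a' := by
          by_contra hn
          have : g' a' = 0 := le_antisymm (not_lt.1 hn) (hnn a')
          rw [this, mul_zero] at h1
          exact lt_irrefl _ h1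
        obtain ⟨b, -, h3⟩ := (hpos' a').1 h2
        obtain ⟨l, h4, h5⟩ := (hpos b).1 h3
        exact ⟨b :: l, by simp [h4], h5⟩
      · rintro ⟨l, h1, h2⟩
        cases l with
        | nil => simp at h1
        | cons b l =>
          have h3 : 0 < γ b := (hpos b).2 ⟨l, by simpa using h1, h2⟩
          have h4 : 0 < g' (src b) := (hpos' _).2 ⟨b, rfl, h3⟩
          refine sum_pos' (fun a' _ => mul_nonneg (hL a').le (hnn a')) ⟨src b, mem_univ _, ?_⟩
          exact mul_pos (hL _) h4

end Chain

end TubeRen
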