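import Pool.Agent.H132.TB.Ser

/-!
# Kernels with finitely many states
-/

set_option autoImplicit false

namespace TubeRen

open Filter Topology Finset PowerSeries
open scoped ENNReal

variable {S : Type} [Fintype S] [DecidableEq S]

/-- the kernel without the transitions to `o` -/
noncomputable def K0 (K : PowerSeries (Matrix S S ℝ≥0∞)) (o : S) :
    PowerSeries (Matrix S S ℝ≥0∞) :=
  PowerSeries.mk fun n => Matrix.of fun a c => if c = o then 0 else coeff n K a c

/-- the transitions to `o` -/
noncomputable def K1 (K : PowerSeries (Matrix S S ℝ≥0∞)) (o : S) :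
    PowerSeries (Matrix S S ℝ≥0∞) :=
  PowerSeries.mk fun n => Matrix.of fun a c => if c = o then coeff n K a c else 0

theorem K01 (K : PowerSeries (Matrix S S ℝ≥0∞)) (o : S) : K = K0 K o + K1 K o := by
  ext n a c
  rw [map_add, Matrix.add_apply]
  simp only [K0, K1, coeff_mk, Matrix.of_apply]
  split_ifs <;> simp

theorem en_K0 (K : PowerSeries (Matrix S S ℝ≥0∞)) (o a c : S) :
    en (K0 K o) a c = if c = o then 0 else en K a c := by
  ext n
  simp only [coeff_en, K0, coeff_mk, Matrix.of_apply]
  split_ifs <;> simp [coeff_en]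

theorem en_K1 (K : PowerSeries (Matrix S S ℝ≥0∞)) (o a c : S) :
    en (K1 K o) a c = if c = o then en K a c else 0 := by
  ext n
  simp only [coeff_en, K1, coeff_mk, Matrix.of_apply]
  split_ifs <;> simp [coeff_en]

theorem coeff0_K0 {K : PowerSeries (Matrix S S ℝ≥0∞)} (h : coeff 0 K = 0) (o : S) :
    coeff 0 (K0 K o) = 0 := by
  ext a c
  simp only [K0, coeff_mk, Matrix.of_apply, h]
  simp

/-- all data -/
structure Dat (K W U : PowerSeries (Matrix S S ℝ≥0∞)) (o : S) : Prop where
  h0 : coeff 0 K = 0
  hW : W = 1 + K0 K o * W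
  hU : U = 1 + K * U

variable {K W U : PowerSeries (Matrix S S ℝ≥0∞)} {o : S}

theorem en_WK1 (W : PowerSeries (Matrix S S ℝ≥0∞)) (a c : S) :
    en (W * K1 K o) a c = if c = o then en (W * K) a o else 0 := by
  rw [en_mul]
  simp only [en_K1]
  by_cases h : c = o
  · subst h
    simp only [if_true]
    rw [en_mul]
  · simp [h]

theorem Dat.UW (h : Dat K W U o) : U = W * (1 + K1 K o * U) := by
  refine sol_unique (A := 1 + K1 K o * U) (coeff0_K0 h.h0 o) ?_ ?_
  · calc U = 1 + K * U := h.hU
      _ = 1 + (K0 K o + K1 K o) * U := by rw [← K01]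
      _ = 1 + K1 K o * U + K0 K o * U := by rw [add_mul, add_comm (K0 K o * U), ← add_assoc]
  · calc W * (1 + K1 K o * U) = (1 + K0 K o * W) * (1 + K1 K o * U) := by rw [← h.hW]
      _ = 1 + K1 K o * U + K0 K o * (W * (1 + K1 K o * U)) := by
        rw [add_mul, one_mul, mul_assoc]

theorem Dat.entry (h : Dat K W U o) (a b : S) :
    en U a b = en W a b + en (W * K) a o * en U o b := by
  have h1 : U = W + W * K1 K o * U := by
    conv_lhs => rw [h.UW]
    rw [mul_add, mul_one, mul_assoc]
  conv_lhs => rw [h1]
  rw [en_add, en_mul]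
  congr 1
  simp only [en_WK1]
  rw [Finset.sum_eq_single o]
  · simp
  · intro c _ hc
    simp [hc]
  · simp

theorem Dat.wcoeff (h : Dat K W U o) (n : ℕ) (x b : S) : coeff n (en W x b) =
    (if n = 0 ∧ x = b then 1 else 0) + ∑ c, ∑ i ∈ range n,
      (if c = o then 0 else coeff (n - i) (en K x c)) * coeff i (en W c b) := by
  conv_lhs => rw [h.hW]
  rw [en_add, map_add, en_one, en_mul, map_sum]
  congr 1
  · by_cases hx : x = b
    · simp [hx, coeff_one]
    · simp [hx]
  · refine sum_congr rfl fun c _ => ?_
    rw [coeff_mul' _ _ (by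
      rw [en_K0]
      split_ifs
      · simp
      · rw [coeff_en, h.h0]; rfl)]
    refine sum_congr rfl fun i _ => ?_
    rw [en_K0]
    split_ifs <;> simp

theorem Dat.col (h : Dat K W U o) (n : ℕ) : ∀ c : S, c ≠ o → coeff n (en W c o) = 0 := by
  induction n using Nat.strong_induction_on with
  | _ n ih =>
    intro c hc
    rw [h.wcoeff, if_neg (fun h => hc h.2), zero_add]
    refine sum_eq_zero fun d _ => sum_eq_zero fun i hi => ?_
    by_cases hd : d = o
    · rw [if_pos hd, zero_mul]
    · rw [ih i (mem_range.1 hi) d hd, mul_zero]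

theorem Dat.oo (h : Dat K W U o) : en W o o = 1 := by
  ext n
  rw [h.wcoeff, coeff_one]
  have : ∑ c, ∑ i ∈ range n, (if c = o then 0 else coeff (n - i) (en K o c)) *
      coeff i (en W c o) = 0 := by
    refine sum_eq_zero fun d _ => sum_eq_zero fun i hi => ?_
    by_cases hd : d = o
    · rw [if_pos hd, zero_mul]
    · rw [h.col i d hd, mul_zero]
  rw [this, add_zero]
  simp

theorem Dat.f0 (h : Dat K W U o) (a : S) : coeff 0 (en (W * K) a o) = 0 := by
  rw [coeff_en, coeff_mul]
  simp [h.h0]

theorem Dat.row (h : Dat K W U o) (b : S) : en U o b = en U o o * en W o b := by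
  refine sol_unique (K := en (W * K) o o) (A := en W o b) (h.f0 o) (h.entry o b) ?_
  have h1 := h.entry o o
  rw [h.oo] at h1
  calc en U o o * en W o b = (1 + en (W * K) o o * en U o o) * en W o b := by rw [← h1]
    _ = _ := by ring

/-- superadditivity -/
theorem Dat.sup1 (h : Dat K W U o) (a b : S) (n m : ℕ) : ∀ x : S,
    coeff m (en W x a) * coeff n (en W a b) ≤ coeff (m + n) (en W x b) := by
  induction m using Nat.strong_induction_on with
  | _ m ih =>
    intro x
    rcases Nat.eq_zero_or_pos m with rfl | hm
    · rw [h.wcoeff 0]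
      simp only [range_zero, sum_empty, sum_const_zero, add_zero, true_and, zero_add]
      split_ifs with hx
      · subst hx; rw [one_mul]
      · rw [zero_mul]; exact zero_le
    · rw [h.wcoeff m, h.wcoeff (m + n), if_neg (by omega), zero_add, sum_mul]
      refine le_trans (sum_le_sum fun c _ => ?_) le_add_self
      rw [sum_mul]
      calc ∑ i ∈ range m, (if c = o then 0 else coeff (m - i) (en K x c)) * coeff i (en W c a) *
            coeff n (en W a b) ≤ ∑ i ∈ range m, (if c = o then 0 else
              coeff (m + n - (i + n)) (en K x c)) * coeff (i + n) (en W c b) := by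
            refine sum_le_sum fun i hi => ?_
            rw [mem_range] at hi
            have e : m + n - (i + n) = m - i := by omega
            rw [e, mul_assoc]
            exact mul_le_mul_right (ih i hi c) _
        _ = ∑ j ∈ (range m).image (fun i => i + n), (if c = o then 0 else
              coeff (m + n - j) (en K x c)) * coeff j (en W c b) := by
            rw [sum_image (fun i _ j _ hij => by simpa using hij)]
        _ ≤ _ := by
            refine sum_le_sum_of_subset ?_
            intro j hj
            rw [mem_image] at hj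
            obtain ⟨i, hi, rfl⟩ := hj
            rw [mem_range] at hi ⊢
            omega

theorem Dat.sup2 (h : Dat K W U o) (x b : S) (n i : ℕ) :
    coeff n (en W x b) * coeff i (en (W * K) b o) ≤ coeff (n + i) (en (W * K) x o) := by
  rw [en_mul, en_mul, map_sum, map_sum, mul_sum]
  refine sum_le_sum fun c _ => ?_
  rw [coeff_mul, coeff_mul, mul_sum]
  calc ∑ p ∈ antidiagonal i, coeff n (en W x b) * (coeff p.1 (en W b c) * coeff p.2 (en K c o)) ≤
        ∑ p ∈ antidiagonal i, coeff (n + p.1) (en W x c) * coeff p.2 (en K c o) := by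
        refine sum_le_sum fun p _ => ?_
        rw [← mul_assoc]
        exact mul_le_mul_left (h.sup1 b c p.1 n x) _
    _ = ∑ p ∈ (antidiagonal i).image (fun p => (n + p.1, p.2)),
          coeff p.1 (en W x c) * coeff p.2 (en K c o) := by
        rw [sum_image (fun p _ q _ hpq => by
          simp only [Prod.mk.injEq, add_right_inj] at hpq
          exact Prod.ext hpq.1 hpq.2)]
    _ ≤ _ := by
        refine sum_le_sum_of_subset ?_
        intro p hp
        rw [mem_image] at hp
        obtain ⟨q, hq, rfl⟩ := hp
        rw [Finset.HasAntidiagonal.mem_antidiagonal] at hq ⊢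
        simp only
        omega

/-- the sums of the weights between two states -/
theorem Dat.fin (h : Dat K W U o) (z : ℝ≥0∞) (a b : S) (m i : ℕ) :
    coeff m (en W o a) * z ^ m * ev z (en W a b) * (coeff i (en (W * K) b o) * z ^ i) ≤
      ev z (en (W * K) o o) := by
  unfold ev
  rw [← ENNReal.tsum_mul_left, ← ENNReal.tsum_mul_right]
  have h1 : ∀ n, coeff m (en W o a) * z ^ m * (coeff n (en W a b) * z ^ n) *
      (coeff i (en (W * K) b o) * z ^ i) ≤ (fun j => coeff j (en (W * K) o o) * z ^ j)
        (m + n + i) := by
    intro n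
    calc coeff m (en W o a) * z ^ m * (coeff n (en W a b) * z ^ n) *
          (coeff i (en (W * K) b o) * z ^ i) = (coeff m (en W o a) * coeff n (en W a b)) *
          coeff i (en (W * K) b o) * (z ^ m * z ^ n * z ^ i) := by ring
      _ ≤ coeff (m + n) (en W o b) * coeff i (en (W * K) b o) * (z ^ m * z ^ n * z ^ i) :=
          mul_le_mul_left (mul_le_mul_left (h.sup1 a b n m o) _) _
      _ ≤ coeff (m + n + i) (en (W * K) o o) * (z ^ m * z ^ n * z ^ i) :=
          mul_le_mul_left (h.sup2 o b (m + n) i) _
      _ = _ := by simp only [pow_add]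
  refine (ENNReal.tsum_le_tsum h1).trans ?_
  exact ENNReal.tsum_comp_le_tsum_of_injective (f := fun n => m + n + i)
    (fun x y hxy => by simpa using hxy) _

theorem conv_le (F G : ℕ → ℝ≥0∞) (N : ℕ) : ∑ n ∈ range (N + 1), ∑ i ∈ range n, F (n - i) * G i ≤
    (∑' l, F l) * ∑ i ∈ range N, G i := by
  have h1 : ∀ n ∈ range (N + 1), ∑ i ∈ range n, F (n - i) * G i =
      ∑ i ∈ range N, (if i < n then F (n - i) else 0) * G i := by
    intro n hn
    rw [mem_range] at hn
    have e1 : ∑ i ∈ range n, (if i < n then F (n - i) else 0) * G i =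
        ∑ i ∈ range N, (if i < n then F (n - i) else 0) * G i := by
      refine sum_subset (fun i hi => ?_) (fun i _ hi => ?_)
      · rw [mem_range] at hi ⊢; omega
      · rw [mem_range] at hi
        rw [if_neg hi, zero_mul]
    rw [← e1]
    refine sum_congr rfl fun i hi => ?_
    rw [mem_range] at hi
    rw [if_pos hi]
  rw [sum_congr rfl h1, sum_comm, mul_sum]
  refine sum_le_sum fun i _ => ?_
  rw [← sum_mul]
  refine mul_le_mul_left ?_ _
  rw [← sum_filter]
  calc ∑ n ∈ (range (N + 1)).filter (fun n => i < n), F (n - i) =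
        ∑ l ∈ ((range (N + 1)).filter (fun n => i < n)).image (fun n => n - i), F l := by
        rw [sum_image]
        intro n hn n' hn' hnn
        simp only [coe_filter, Set.mem_ofPred_eq] at hn hn' hnn
        omega
    _ ≤ _ := ENNReal.sum_le_tsum _

/-- supersolutions -/
theorem Dat.super (h : Dat K W U o) {z : ℝ≥0∞} {g : S → ℝ≥0∞}
    (hg : ∀ a, 1 + ∑ c, (if c = o then 0 else ev z (en K a c)) * g c ≤ g a) (a : S) :
    ∑ b, ev z (en W a b) ≤ g a := by
  have h1 : ∀ N : ℕ, ∀ a : S, ∑ b, ∑ n ∈ range N, coeff n (en W a b) * z ^ n ≤ g a := by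
    intro N
    induction N with
    | zero =>
      intro a
      simp
    | succ N ih =>
      intro a
      refine le_trans ?_ (hg a)
      have e1 : ∀ b, ∑ n ∈ range (N + 1), coeff n (en W a b) * z ^ n ≤
          (if a = b then 1 else 0) + ∑ c, (if c = o then 0 else ev z (en K a c)) *
            ∑ i ∈ range N, coeff i (en W c b) * z ^ i := by
        intro b
        have e2 : ∀ n, coeff n (en W a b) * z ^ n = (if n = 0 ∧ a = b then 1 else 0) +
            ∑ c, ∑ i ∈ range n, ((if c = o then 0 else coeff (n - i) (en K a c)) * z ^ (n - i)) *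
              (coeff i (en W c b) * z ^ i) := by
          intro n
          rw [h.wcoeff n a b, add_mul, sum_mul]
          congr 1
          · by_cases hn : n = 0 ∧ a = b
            · rw [if_pos hn, hn.1]; simp
            · rw [if_neg hn, zero_mul]
          · refine sum_congr rfl fun c _ => ?_
            rw [sum_mul]
            refine sum_congr rfl fun i hi => ?_
            rw [mem_range] at hi
            have : z ^ n = z ^ (n - i) * z ^ i := by rw [← pow_add]; congr 1; omega
            rw [this]
            ring
        simp only [e2]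
        rw [sum_add_distrib]
        refine add_le_add ?_ ?_
        · by_cases hab : a = b
          · simp [hab]
          · simp [hab]
        · rw [sum_comm]
          refine sum_le_sum fun c _ => ?_
          refine (conv_le (fun l => (if c = o then 0 else coeff l (en K a c)) * z ^ l)
            (fun i => coeff i (en W c b) * z ^ i) N).trans ?_
          refine mul_le_mul_left ?_ _
          split_ifs
          · simp
          · exact le_refl _
      refine (sum_le_sum fun b _ => e1 b).trans ?_
      rw [sum_add_distrib]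
      refine add_le_add ?_ ?_
      · simp
      · rw [sum_comm]
        refine sum_le_sum fun c _ => ?_
        rw [← mul_sum]
        exact mul_le_mul_right (ih c) _
  have h2 : ∑ b, ev z (en W a b) = ∑' n, ∑ b, coeff n (en W a b) * z ^ n := by
    unfold ev
    have e1 : ∑ b, ∑' n, coeff n (en W a b) * z ^ n = ∑' b, ∑' n, coeff n (en W a b) * z ^ n :=
      (tsum_fintype _).symm
    rw [e1, ENNReal.tsum_comm]
    exact tsum_congr fun n => tsum_fintype _
  rw [h2]
  refine ENNReal.tsum_le_of_sum_range_le fun N => ?_
  rw [sum_comm]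
  exact h1 N a

end TubeRen
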