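import Pool.Agent.H132.TB.Mr

/-!
# The critical point and the convergence
-/

set_option autoImplicit false

namespace TubeRen

open Filter Topology Finset PowerSeries
open scoped ENNReal

variable {S : Type} [Fintype S] [DecidableEq S]
variable {K W U : PowerSeries (Matrix S S ℝ≥0∞)} {o : S}

/-- the return function -/
noncomputable def Fz (K W : PowerSeries (Matrix S S ℝ≥0∞)) (o : S) (z : ℝ) : ℝ≥0∞ :=
  ev (ENNReal.ofReal z) (en (W * K) o o)

theorem Fz_eq (z : ℝ) : Fz K W o z = ∑ c, ev (ENNReal.ofReal z) (en W o c) *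
    ev (ENNReal.ofReal z) (en K c o) := by
  unfold Fz
  rw [en_mul, ev_sum]
  simp only [ev_mul]

theorem Fz_mono {x y : ℝ} (h : x ≤ y) : Fz K W o x ≤ Fz K W o y :=
  ev_mono (ENNReal.ofReal_le_ofReal h) _

/-- the critical point -/
theorem Dat.crit_le (h : Dat K W U o) {Z : ℝ} (hZ : 0 < Z) (hF : 1 < Fz K W o Z) :
    ∃ z, 0 ≤ z ∧ z < Z ∧ Fz K W o z ≤ 1 ∧ ∀ z', z < z' → z' ≤ Z → 1 < Fz K W o z' := by
  set A : Set ℝ := {z | 0 ≤ z ∧ z ≤ Z ∧ Fz K W o z ≤ 1} with hA
  have h0 : (0 : ℝ) ∈ A := by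
    refine ⟨le_refl _, hZ.le, ?_⟩
    unfold Fz ev
    rw [ENNReal.ofReal_zero, tsum_eq_single 0 (fun n hn => by rw [zero_pow hn, mul_zero]), h.f0]
    simp
  have hbd : BddAbove A := ⟨Z, fun z hz => hz.2.1⟩
  have hz0 : 0 ≤ sSup A := le_csSup hbd h0
  have hzZ : sSup A ≤ Z := csSup_le ⟨0, h0⟩ fun z hz => hz.2.1
  have hle : Fz K W o (sSup A) ≤ 1 := by
    unfold Fz ev
    refine ENNReal.tsum_le_of_sum_range_le fun N => ?_
    have hcl : sSup A ∈ closure A := csSup_mem_closure ⟨0, h0⟩ hbd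
    have hclosed : IsClosed {z : ℝ | ∑ n ∈ range N, coeff n (en (W * K) o o) *
        ENNReal.ofReal z ^ n ≤ 1} := by
      by_cases hfin : ∀ n ∈ range N, coeff n (en (W * K) o o) ≠ ⊤
      · refine isClosed_le ?_ continuous_const
        refine continuous_finsetSum _ fun n hn => ?_
        refine ENNReal.continuous_const_mul (hfin n hn) |>.comp ?_
        exact (ENNReal.continuous_pow n).comp ENNReal.continuous_ofReal
      · push Not at hfin
        obtain ⟨n, hn, hn'⟩ := hfin
        have hn0 : n ≠ 0 := by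
          rintro rfl
          rw [h.f0] at hn'
          exact ENNReal.zero_ne_top hn'
        have : {z : ℝ | ∑ n ∈ range N, coeff n (en (W * K) o o) *
            ENNReal.ofReal z ^ n ≤ 1} = Set.Iic 0 := by
          ext z
          simp only [Set.mem_ofPred_eq, Set.mem_Iic]
          constructor
          · intro hz
            by_contra hc
            push Not at hc
            have h1 := (single_le_sum (f := fun n => coeff n (en (W * K) o o) *
              ENNReal.ofReal z ^ n) (fun _ _ => zero_le) hn).trans hz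
            simp only [hn'] at h1
            rw [ENNReal.top_mul (pow_ne_zero _ (by simpa using hc))] at h1
            exact absurd h1 (by simp)
          · intro hz
            rw [ENNReal.ofReal_of_nonpos hz, sum_eq_zero]
            · exact zero_le
            · intro m _
              rcases Nat.eq_zero_or_pos m with rfl | hm
              · rw [h.f0, zero_mul]
              · rw [zero_pow hm.ne', mul_zero]
        rw [this]
        exact isClosed_Iic
    have hsub : A ⊆ {z : ℝ | ∑ n ∈ range N, coeff n (en (W * K) o o) *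
        ENNReal.ofReal z ^ n ≤ 1} := fun z hz => (ENNReal.sum_le_tsum _).trans hz.2.2
    exact closure_minimal hsub hclosed hcl
  refine ⟨sSup A, hz0, lt_of_le_of_ne hzZ ?_, hle, ?_⟩
  · intro he
    rw [he] at hle
    exact absurd hF (not_lt.2 hle)
  · intro z' h1 h2
    by_contra hc
    push Not at hc
    exact absurd (le_csSup hbd ⟨hz0.trans h1.le, h2, hc⟩) (not_le.2 h1)

theorem ev_scale {Z ε : ℝ} (hZ : 0 ≤ Z) (h0 : 0 ≤ ε) (h1 : ε ≤ 1) {P : PowerSeries ℝ≥0∞}
    (hP : coeff 0 P = 0) : ev (ENNReal.ofReal (ε * Z)) P ≤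
      ENNReal.ofReal ε * ev (ENNReal.ofReal Z) P := by
  have := ev_conv (z := 0) (Z := Z) (t := ε) (le_refl _) hZ h0 h1 P
  have e : ev (ENNReal.ofReal 0) P = 0 := by
    unfold ev
    rw [ENNReal.ofReal_zero, tsum_eq_single 0 (fun n hn => by rw [zero_pow hn, mul_zero]), hP,
      zero_mul]
  rw [e, zero_add] at this
  simpa using this

/-- the critical point is positive -/
theorem Dat.small (h : Dat K W U o) {Z : ℝ} (hZ : 0 < Z)
    (hfin : ∀ a b, ev (ENNReal.ofReal Z) (en K a b) ≠ ⊤) :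
    ∃ z, 0 < z ∧ z ≤ Z ∧ Fz K W o z ≤ 1 := by
  set M : ℝ≥0∞ := ∑ a, ∑ c, ev (ENNReal.ofReal Z) (en K a c) with hM
  have hMt : M ≠ ⊤ := by
    rw [hM]
    refine (ENNReal.sum_lt_top.2 fun a _ => ENNReal.sum_lt_top.2 fun c _ => ?_).ne
    exact (hfin a c).lt_top
  set ε : ℝ := 1 / (2 * (M.toReal + 1)) with hε
  have hMr : 0 ≤ M.toReal := ENNReal.toReal_nonneg
  have hε0 : 0 < ε := by positivity
  have hε1 : ε ≤ 1 := by
    rw [hε, div_le_one (by positivity)]
    linarith
  have hεM : ENNReal.ofReal ε * M ≤ 1 / 2 := by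
    rw [← ENNReal.ofReal_toReal hMt, ← ENNReal.ofReal_mul hε0.le]
    have : ε * M.toReal ≤ 1 / 2 := by
      rw [hε, div_mul_eq_mul_div, div_le_div_iff₀ (by positivity) (by norm_num)]
      linarith
    refine (ENNReal.ofReal_le_ofReal this).trans (le_of_eq ?_)
    rw [ENNReal.ofReal_div_of_pos (by norm_num)]
    simp
  have hk0 : ∀ a c, coeff 0 (en K a c) = 0 := fun a c => by rw [coeff_en, h.h0]; rfl
  have hrow : ∀ a, ∑ c, ev (ENNReal.ofReal (ε * Z)) (en K a c) ≤ 1 / 2 := by
    intro a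
    refine le_trans (le_trans (sum_le_sum fun c _ => ev_scale hZ.le hε0.le hε1 (hk0 a c)) ?_) hεM
    rw [← mul_sum, hM]
    refine mul_le_mul_right ?_ _
    exact single_le_sum (f := fun a => ∑ c, ev (ENNReal.ofReal Z) (en K a c))
      (fun _ _ => zero_le) (mem_univ a)
  have hsup := h.super (z := ENNReal.ofReal (ε * Z)) (g := fun _ => 2) (fun a => by
    have h1 : ∑ c, (if c = o then 0 else ev (ENNReal.ofReal (ε * Z)) (en K a c)) * (2 : ℝ≥0∞) ≤
        (1 / 2) * 2 := by
      rw [← sum_mul]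
      refine mul_le_mul_left ((sum_le_sum fun c _ => ?_).trans (hrow a)) _
      split_ifs
      · exact zero_le
      · exact le_refl _
    calc (1 : ℝ≥0∞) + _ ≤ 1 + (1 / 2) * 2 := add_le_add_right h1 _
      _ = 2 := by
        rw [ENNReal.div_mul_cancel (by norm_num) (by norm_num)]
        norm_num)
  refine ⟨ε * Z, by positivity, by nlinarith, ?_⟩
  rw [Fz_eq]
  calc ∑ c, ev (ENNReal.ofReal (ε * Z)) (en W o c) * ev (ENNReal.ofReal (ε * Z)) (en K c o) ≤
        ∑ c, ev (ENNReal.ofReal (ε * Z)) (en W o c) * (1 / 2) := by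
        refine sum_le_sum fun c _ => mul_le_mul_right ?_ _
        exact (single_le_sum (f := fun d => ev (ENNReal.ofReal (ε * Z)) (en K c d))
          (fun _ _ => zero_le) (mem_univ o)).trans (hrow c)
    _ = (∑ c, ev (ENNReal.ofReal (ε * Z)) (en W o c)) * (1 / 2) := by rw [sum_mul]
    _ ≤ 2 * (1 / 2) := mul_le_mul_left (hsup o) _
    _ = 1 := by
      rw [mul_comm, ENNReal.div_mul_cancel (by norm_num) (by norm_num)]

end TubeRen
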