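import Pool.Agent.H132.TB.Mr2

/-!
# The critical point and the convergence, second part
-/

set_option autoImplicit false

namespace TubeRen

open Filter Topology Finset PowerSeries
open scoped ENNReal

variable {S : Type} [Fintype S] [DecidableEq S]
variable {K W U : PowerSeries (Matrix S S ℝ≥0∞)} {o : S}

theorem exists_coeff {P : PowerSeries ℝ≥0∞} (h : P ≠ 0) : ∃ n, coeff n P ≠ 0 := by
  by_contra hc
  push Not at hc
  exact h (by ext n; simpa using hc n)

theorem Dat.wo_ne (h : Dat K W U o) (hirr : ∀ a b, en U a b ≠ 0) (a : S) : en W o a ≠ 0 := by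
  intro hc
  apply hirr o a
  rw [h.row, hc, mul_zero]

theorem Dat.wk_ne (h : Dat K W U o) (hirr : ∀ a b, en U a b ≠ 0)
    (h1 : coeff 1 (en K o o) ≠ 0) (b : S) : en (W * K) b o ≠ 0 := by
  intro hc
  by_cases hb : b = o
  · subst hb
    rw [en_mul] at hc
    have h2 := congrArg (coeff 1) hc
    rw [map_sum] at h2
    have h3 := (Finset.sum_eq_zero_iff.1 h2) b (mem_univ b)
    rw [h.oo, one_mul] at h3
    exact h1 h3
  · apply hirr b o
    rw [h.entry, hc, zero_mul, add_zero]
    ext n
    rw [h.col n b hb]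
    simp

theorem Dat.w_fin (h : Dat K W U o) (hirr : ∀ a b, en U a b ≠ 0)
    (h1 : coeff 1 (en K o o) ≠ 0) {z : ℝ} (hz : 0 < z) (hF : Fz K W o z ≤ 1) (a b : S) :
    ev (ENNReal.ofReal z) (en W a b) ≠ ⊤ := by
  obtain ⟨m, hm⟩ := exists_coeff (h.wo_ne hirr a)
  obtain ⟨i, hi⟩ := exists_coeff (h.wk_ne hirr h1 b)
  have hz' : ENNReal.ofReal z ≠ 0 := by simpa using hz
  intro hc
  have h2 := (h.fin (ENNReal.ofReal z) a b m i).trans hF
  rw [hc, ENNReal.mul_top (mul_ne_zero hm (pow_ne_zero _ hz')),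
    ENNReal.top_mul (mul_ne_zero hi (pow_ne_zero _ hz'))] at h2
  exact absurd h2 (by simp)

/-- a larger radius -/
theorem Dat.ext (h : Dat K W U o) {z Z : ℝ} (hz : 0 < z) (hzZ : z < Z)
    (hfin : ∀ a b, ev (ENNReal.ofReal Z) (en K a b) ≠ ⊤)
    (hw : ∀ a b, ev (ENNReal.ofReal z) (en W a b) ≠ ⊤) :
    ∃ z', z < z' ∧ z' ≤ Z ∧ (∀ a b, ev (ENNReal.ofReal z') (en W a b) ≠ ⊤) ∧
      Fz K W o z' ≠ ⊤ := by
  set g : S → ℝ≥0∞ := fun a => ∑ b, ev (ENNReal.ofReal z) (en W a b) with hg
  have hgt : ∀ a, g a ≠ ⊤ := fun a => (ENNReal.sum_lt_top.2 fun b _ => (hw a b).lt_top).ne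
  have hge : ∀ a, g a = 1 + ∑ c, (if c = o then 0 else ev (ENNReal.ofReal z) (en K a c)) * g c := by
    intro a
    have e1 : ∀ b, ev (ENNReal.ofReal z) (en W a b) = (if a = b then 1 else 0) +
        ∑ c, (if c = o then 0 else ev (ENNReal.ofReal z) (en K a c)) *
          ev (ENNReal.ofReal z) (en W c b) := by
      intro b
      conv_lhs => rw [h.hW]
      rw [en_add, ev_add, en_one, en_mul, ev_sum]
      congr 1
      · split_ifs
        · exact ev_one _
        · simp [ev]
      · refine sum_congr rfl fun c _ => ?_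
        rw [ev_mul, en_K0]
        split_ifs
        · simp [ev]
        · rfl
    simp only [hg]
    rw [sum_congr rfl fun b _ => e1 b, sum_add_distrib]
    congr 1
    · simp
    · rw [sum_comm]
      refine sum_congr rfl fun c _ => ?_
      rw [mul_sum]
  set M : ℝ≥0∞ := ∑ a, ∑ c, ev (ENNReal.ofReal Z) (en K a c) * g c with hM
  have hMt : M ≠ ⊤ := by
    rw [hM]
    refine (ENNReal.sum_lt_top.2 fun a _ => ENNReal.sum_lt_top.2 fun c _ => ?_).ne
    exact ENNReal.mul_lt_top (hfin a c).lt_top (hgt c).lt_top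
  set t : ℝ := 1 / (2 * (M.toReal + 1)) with ht
  have hMr : 0 ≤ M.toReal := ENNReal.toReal_nonneg
  have ht0 : 0 < t := by positivity
  have ht1 : t ≤ 1 := by
    rw [ht, div_le_one (by positivity)]
    linarith
  have htM : ENNReal.ofReal t * M ≤ 1 / 2 := by
    rw [← ENNReal.ofReal_toReal hMt, ← ENNReal.ofReal_mul ht0.le]
    have : t * M.toReal ≤ 1 / 2 := by
      rw [ht, div_mul_eq_mul_div, div_le_div_iff₀ (by positivity) (by norm_num)]
      linarith
    refine (ENNReal.ofReal_le_ofReal this).trans (le_of_eq ?_)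
    rw [ENNReal.ofReal_div_of_pos (by norm_num)]
    simp
  have hz' : z < (1 - t) * z + t * Z := by nlinarith
  have hz'Z : (1 - t) * z + t * Z ≤ Z := by nlinarith
  have hsup := h.super (z := ENNReal.ofReal ((1 - t) * z + t * Z)) (g := fun a => 2 * g a)
    (fun a => by
      have h1 : ∀ c, (if c = o then 0 else ev (ENNReal.ofReal ((1 - t) * z + t * Z)) (en K a c)) *
          (2 * g c) ≤ 2 * ((if c = o then 0 else ev (ENNReal.ofReal z) (en K a c)) * g c) +
            2 * (ENNReal.ofReal t * (ev (ENNReal.ofReal Z) (en K a c) * g c)) := by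
        intro c
        split_ifs
        · rw [zero_mul]; exact zero_le
        · calc _ ≤ (ev (ENNReal.ofReal z) (en K a c) +
                ENNReal.ofReal t * ev (ENNReal.ofReal Z) (en K a c)) * (2 * g c) :=
                mul_le_mul_left (ev_conv hz.le hzZ.le ht0.le ht1 _) _
            _ = _ := by ring
      have h2 : 2 * (ENNReal.ofReal t * ∑ c, ev (ENNReal.ofReal Z) (en K a c) * g c) ≤ 1 := by
        calc 2 * (ENNReal.ofReal t * ∑ c, ev (ENNReal.ofReal Z) (en K a c) * g c) ≤
              2 * (ENNReal.ofReal t * M) := by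
              refine mul_le_mul_right (mul_le_mul_right ?_ _) _
              exact single_le_sum (f := fun a => ∑ c, ev (ENNReal.ofReal Z) (en K a c) * g c)
                (fun _ _ => zero_le) (mem_univ a)
          _ ≤ 2 * (1 / 2) := mul_le_mul_right htM _
          _ = 1 := by rw [mul_comm, ENNReal.div_mul_cancel (by norm_num) (by norm_num)]
      calc 1 + ∑ c, (if c = o then 0 else
              ev (ENNReal.ofReal ((1 - t) * z + t * Z)) (en K a c)) * (2 * g c) ≤
            1 + ∑ c, (2 * ((if c = o then 0 else ev (ENNReal.ofReal z) (en K a c)) * g c) +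
            2 * (ENNReal.ofReal t * (ev (ENNReal.ofReal Z) (en K a c) * g c))) :=
            add_le_add_right (sum_le_sum fun c _ => h1 c) _
        _ = 1 + (2 * ∑ c, (if c = o then 0 else ev (ENNReal.ofReal z) (en K a c)) * g c +
            2 * (ENNReal.ofReal t * ∑ c, ev (ENNReal.ofReal Z) (en K a c) * g c)) := by
            rw [sum_add_distrib, ← mul_sum, ← mul_sum, ← mul_sum]
        _ ≤ 1 + (2 * ∑ c, (if c = o then 0 else ev (ENNReal.ofReal z) (en K a c)) * g c + 1) :=
            add_le_add_right (add_le_add_right h2 _) _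
        _ = 2 * g a := by
            rw [hge a]
            ring)
  have hwf : ∀ a b, ev (ENNReal.ofReal ((1 - t) * z + t * Z)) (en W a b) ≠ ⊤ := by
    intro a b
    refine ne_top_of_le_ne_top (ENNReal.mul_ne_top (by norm_num) (hgt a)) (le_trans ?_ (hsup a))
    exact single_le_sum (f := fun b => ev (ENNReal.ofReal ((1 - t) * z + t * Z)) (en W a b))
      (fun _ _ => zero_le) (mem_univ b)
  refine ⟨(1 - t) * z + t * Z, hz', hz'Z, hwf, ?_⟩
  rw [Fz_eq]
  refine (ENNReal.sum_lt_top.2 fun c _ => ENNReal.mul_lt_top (hwf o c).lt_top ?_).ne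
  exact lt_of_le_of_lt (ev_mono (ENNReal.ofReal_le_ofReal hz'Z) _) (hfin c o).lt_top

theorem Dat.crit (h : Dat K W U o) {Z : ℝ} (hZ : 0 < Z)
    (hfin : ∀ a b, ev (ENNReal.ofReal Z) (en K a b) ≠ ⊤)
    (hirr : ∀ a b, en U a b ≠ 0) (h1 : 1 < ENNReal.ofReal Z * coeff 1 (en K o o)) :
    ∃ z z', 0 < z ∧ z < z' ∧ z' ≤ Z ∧ Fz K W o z = 1 ∧
      (∀ a b, ev (ENNReal.ofReal z') (en W a b) ≠ ⊤) ∧ Fz K W o z' ≠ ⊤ := by
  have hk1 : coeff 1 (en K o o) ≠ 0 := by
    rintro hc
    rw [hc, mul_zero] at h1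
    exact absurd h1 (by simp)
  have hF : 1 < Fz K W o Z := by
    refine h1.trans_le ?_
    rw [Fz_eq]
    refine le_trans ?_ (single_le_sum (f := fun c => ev (ENNReal.ofReal Z) (en W o c) *
      ev (ENNReal.ofReal Z) (en K c o)) (fun _ _ => zero_le) (mem_univ o))
    simp only [h.oo, ev_one, one_mul]
    have := le_ev (ENNReal.ofReal Z) (en K o o) 1
    rw [pow_one, mul_comm] at this
    exact this
  obtain ⟨z, hz0, hzZ, hFz, hmax⟩ := h.crit_le hZ hF
  obtain ⟨w, hw0, hwZ, hFw⟩ := h.small hZ hfin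
  have hz : 0 < z := by
    by_contra hc
    have : z = 0 := le_antisymm (not_lt.1 hc) hz0
    exact absurd (hmax w (by linarith) hwZ) (not_lt.2 hFw)
  obtain ⟨z', hzz', hz'Z, hwf, hFf⟩ := h.ext hz hzZ hfin (h.w_fin hirr hk1 hz hFz)
  refine ⟨z, z', hz, hzz', hz'Z, ?_, hwf, hFf⟩
  by_contra hne
  have hlt : Fz K W o z < 1 := lt_of_le_of_ne hFz hne
  -- choose a small step
  set a := (Fz K W o z).toReal with ha
  set b := (Fz K W o z').toReal with hb
  have hat : Fz K W o z ≠ ⊤ := ne_top_of_lt hlt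
  have ha1 : a < 1 := by
    rw [ha, ← ENNReal.toReal_one]
    exact (ENNReal.toReal_lt_toReal hat ENNReal.one_ne_top).2 hlt
  have ha0 : 0 ≤ a := ENNReal.toReal_nonneg
  have hb0 : 0 ≤ b := ENNReal.toReal_nonneg
  set s : ℝ := (1 - a) / (b + 1) with hs
  have hs0 : 0 < s := by
    rw [hs]; exact div_pos (by linarith) (by linarith)
  have hs1 : s ≤ 1 := by
    rw [hs, div_le_one (by linarith)]
    linarith
  have h3 := ev_conv hz.le hzz'.le hs0.le hs1 (en (W * K) o o)
  have h4 := hmax ((1 - s) * z + s * z') (by nlinarith) (by nlinarith)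
  have h5 : (1 : ℝ≥0∞) < ENNReal.ofReal (a + s * b) := by
    refine h4.trans_le (h3.trans (le_of_eq ?_))
    rw [ENNReal.ofReal_add ha0 (by positivity), ENNReal.ofReal_mul hs0.le, ha, hb,
      ENNReal.ofReal_toReal hat, ENNReal.ofReal_toReal hFf]
    rfl
  rw [← ENNReal.ofReal_one, ENNReal.ofReal_lt_ofReal_iff_of_nonneg (by norm_num)] at h5
  have h6 : s * (b + 1) = 1 - a := by
    rw [hs]; field_simp
  nlinarith

/-- the convergence of the return sequence -/
theorem Dat.lim0 (h : Dat K W U o) {z z' : ℝ} (hz : 0 < z) (hzz' : z < z')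
    (h1 : coeff 1 (en K o o) ≠ 0)
    (hF : Fz K W o z = 1) (hF' : Fz K W o z' ≠ ⊤) :
    (∀ n, coeff n (en U o o) ≠ ⊤) ∧
    (∀ n, (coeff n (en U o o)).toReal * z ^ n ≤ 1) ∧
    ∃ L : ℝ, 0 < L ∧ Tendsto (fun n => (coeff n (en U o o)).toReal * z ^ n) atTop (𝓝 L) := by
  set P := en (W * K) o o with hP
  have hz' : 0 < z' := hz.trans hzz'
  have hPf : ∀ n, coeff n P ≠ ⊤ := by
    intro n hc
    have := (le_ev (ENNReal.ofReal z) P n).trans (le_of_eq hF)
    rw [hc, ENNReal.top_mul (pow_ne_zero _ (by simpa using hz))] at this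
    exact absurd this (by simp)
  set f : ℕ → ℝ := fun n => (coeff n P).toReal * z ^ n with hf
  have hf_nn : ∀ n, 0 ≤ f n := fun n => by
    simp only [hf]
    have : 0 ≤ (coeff n P).toReal := ENNReal.toReal_nonneg
    positivity
  have hfe : ∀ n, ENNReal.ofReal (f n) = coeff n P * ENNReal.ofReal z ^ n := by
    intro n
    simp only [hf]
    rw [ENNReal.ofReal_mul ENNReal.toReal_nonneg, ENNReal.ofReal_toReal (hPf n),
      ENNReal.ofReal_pow hz.le]
  have hsum : HasSum f 1 := by
    have h2 : ∑' n, ENNReal.ofReal (f n) = 1 := by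
      simp only [hfe]
      exact hF
    have h3 : Summable f := by
      have h4 : (∑' n, ENNReal.ofReal (f n)) ≠ ⊤ := by rw [h2]; exact ENNReal.one_ne_top
      have := ENNReal.summable_toReal h4
      simpa [ENNReal.toReal_ofReal, hf_nn] using this
    have h5 := ENNReal.ofReal_tsum_of_nonneg hf_nn h3
    rw [h2] at h5
    have h6 : ∑' n, f n = 1 := by
      have := congrArg ENNReal.toReal h5
      rwa [ENNReal.toReal_ofReal (tsum_nonneg hf_nn), ENNReal.toReal_one] at this
    rw [← h6]
    exact h3.hasSum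
  have hf0 : f 0 = 0 := by
    simp only [hf]
    rw [h.f0]
    simp
  have hf1 : 0 < f 1 := by
    simp only [hf]
    refine mul_pos (ENNReal.toReal_pos ?_ (hPf 1)) (by positivity)
    have h2 : coeff 1 (en K o o) ≤ coeff 1 P := by
      rw [hP, en_mul, map_sum]
      refine le_trans (le_of_eq ?_) (single_le_sum (f := fun c => coeff 1 (en W o c * en K c o))
        (fun _ _ => zero_le) (mem_univ o))
      simp only [h.oo, one_mul]
    intro hc
    rw [hc] at h2
    exact h1 (le_antisymm h2 zero_le)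
  have hmean : Summable (fun n : ℕ => (n : ℝ) * f n) := by
    set r : ℝ := z / z' with hr
    have hr0 : 0 ≤ r := by positivity
    have hr1 : r < 1 := by rw [hr, div_lt_one hz']; exact hzz'
    have h2 : Summable (fun n : ℕ => (coeff n P).toReal * z' ^ n) := by
      have h4 : (∑' n, coeff n P * ENNReal.ofReal z' ^ n) ≠ ⊤ := hF'
      have := ENNReal.summable_toReal h4
      refine this.congr fun n => ?_
      rw [ENNReal.toReal_mul, ENNReal.toReal_pow, ENNReal.toReal_ofReal hz'.le]
    have h3 : Tendsto (fun n : ℕ => (n : ℝ) * r ^ n) atTop (𝓝 0) :=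
      tendsto_self_mul_const_pow_of_lt_one hr0 hr1
    obtain ⟨C, hC⟩ := h3.bddAbove_range
    refine Summable.of_nonneg_of_le (fun n => mul_nonneg (Nat.cast_nonneg n) (hf_nn n))
      (fun n => ?_) (h2.mul_left C)
    have hC' : (n : ℝ) * r ^ n ≤ C := hC ⟨n, rfl⟩
    have h4 : z ^ n = r ^ n * z' ^ n := by
      rw [hr, div_pow]; field_simp
    simp only [hf]
    calc (n : ℝ) * ((coeff n P).toReal * z ^ n) =
          ((n : ℝ) * r ^ n) * ((coeff n P).toReal * z' ^ n) := by rw [h4]; ring
      _ ≤ C * ((coeff n P).toReal * z' ^ n) := by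
          refine mul_le_mul_of_nonneg_right hC' ?_
          have : 0 ≤ (coeff n P).toReal := ENNReal.toReal_nonneg
          positivity
  have hU : ∀ n, coeff n (en U o o) = (if n = 0 then 1 else 0) +
      ∑ i ∈ range n, coeff (n - i) P * coeff i (en U o o) := by
    intro n
    conv_lhs => rw [h.entry o o, h.oo]
    rw [map_add, coeff_one, coeff_mul' _ _ (h.f0 o)]
  have hUf : ∀ n, coeff n (en U o o) ≠ ⊤ := by
    intro n
    induction n using Nat.strong_induction_on with
    | _ n ih =>
      rw [hU]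
      refine ENNReal.add_ne_top.2 ⟨by split_ifs <;> simp, ?_⟩
      refine (ENNReal.sum_lt_top.2 fun i hi => ?_).ne
      exact ENNReal.mul_lt_top (hPf _).lt_top (ih i (mem_range.1 hi)).lt_top
  set x : ℕ → ℝ := fun n => (coeff n (en U o o)).toReal * z ^ n with hx
  have hx_nn : ∀ n, 0 ≤ x n := fun n => by
    simp only [hx]
    have : 0 ≤ (coeff n (en U o o)).toReal := ENNReal.toReal_nonneg
    positivity
  have hx0 : x 0 = 1 := by
    simp only [hx]
    rw [hU 0]
    simp
  have hren : ∀ n, 1 ≤ n → x n = ∑ i ∈ range n, f (n - i) * x i := by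
    intro n hn
    simp only [hx, hf]
    rw [hU n, if_neg (by omega), zero_add, ENNReal.toReal_sum (fun i hi =>
      ENNReal.mul_ne_top (hPf _) (hUf _)), sum_mul]
    refine sum_congr rfl fun i hi => ?_
    rw [mem_range] at hi
    rw [ENNReal.toReal_mul]
    have : z ^ n = z ^ (n - i) * z ^ i := by rw [← pow_add]; congr 1; omega
    rw [this]
    ring
  have hren' : ∀ n, 1 ≤ n → x n = ∑ i ∈ range (n + 1), f i * x (n - i) := by
    intro n hn
    rw [hren n hn, ← Finset.sum_range_reflect (fun i => f i * x (n - i)), sum_range_succ]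
    have h2 : f (n + 1 - 1 - n) = 0 := by
      have : n + 1 - 1 - n = 0 := by omega
      rw [this, hf0]
    rw [h2, zero_mul, add_zero]
    refine sum_congr rfl fun i hi => ?_
    rw [mem_range] at hi
    have e1 : n + 1 - 1 - i = n - i := by omega
    have e2 : n - (n - i) = i := by omega
    rw [e1, e2]
  have hx1 : ∀ n, x n ≤ 1 := by
    intro n
    induction n using Nat.strong_induction_on with
    | _ n ih =>
      rcases Nat.eq_zero_or_pos n with rfl | hn
      · rw [hx0]
      · rw [hren n hn]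
        calc ∑ i ∈ range n, f (n - i) * x i ≤ ∑ i ∈ range n, f (n - i) := by
              refine sum_le_sum fun i hi => ?_
              have := ih i (mem_range.1 hi)
              nlinarith [hf_nn (n - i)]
          _ = ∑ j ∈ range n, f (j + 1) := by
              rw [← Finset.sum_range_reflect (fun i => f (i + 1))]
              refine sum_congr rfl fun i hi => ?_
              rw [mem_range] at hi
              congr 1
              omega
          _ ≤ ∑ j ∈ range (n + 1), f j := by
              rw [sum_range_succ', hf0, add_zero]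
          _ ≤ 1 := sum_le_hasSum _ (fun i _ => hf_nn i) hsum
  refine ⟨hUf, hx1, ?_⟩
  exact efp hf_nn hf0 hsum hf1 hmean (fun n => ⟨hx_nn n, hx1 n⟩) hx0 hren'

end TubeRen
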