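import Pool.Agent.H132.TB.Kn

/-!
# The asymptotics of the resolvent
-/

set_option autoImplicit false

namespace TubeRen

open Filter Topology Finset PowerSeries
open scoped ENNReal

theorem As.mono {z : ℝ} {j : ℕ} {G : ℕ → ℝ≥0∞} {C C' g : ℝ} (h : As z j G C g) (hC : C ≤ C') :
    As z j G C' g :=
  ⟨fun m => (h.bd m).trans (ENNReal.ofReal_le_ofReal
    (mul_le_mul_of_nonneg_right hC (P_pos j m).le)), h.lim⟩

theorem As.add {z : ℝ} {j : ℕ} {G G' : ℕ → ℝ≥0∞} {C C' g g' : ℝ} (hz : 0 < z) (hC : 0 ≤ C)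
    (hC' : 0 ≤ C') (h : As z j G C g) (h' : As z j G' C' g') :
    As z j (fun m => G m + G' m) (C + C') (g + g') := by
  refine ⟨fun m => ?_, ?_⟩
  · rw [add_mul, add_mul C, ENNReal.ofReal_add (by have := P_pos j m; positivity)
      (by have := P_pos j m; positivity)]
    exact add_le_add (h.bd m) (h'.bd m)
  · refine (h.lim.add h'.lim).congr fun m => ?_
    rw [ENNReal.toReal_add (h.fin hz m) (h'.fin hz m)]
    ring

/-- summable sequences -/
theorem as_ev {z : ℝ} (hz : 0 < z) {Q : PowerSeries ℝ≥0∞} (h : ev (ENNReal.ofReal z) Q ≠ ⊤) :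
    As z 0 (fun n => coeff n Q) (ev (ENNReal.ofReal z) Q).toReal 0 := by
  have h1 : ∀ n, coeff n Q * ENNReal.ofReal (z ^ n) ≤ ev (ENNReal.ofReal z) Q := fun n => by
    rw [ENNReal.ofReal_pow hz.le]
    exact le_ev _ _ _
  refine ⟨fun m => ?_, ?_⟩
  · rw [P_zero, mul_one, ENNReal.ofReal_toReal h]
    exact h1 m
  · simp only [P_zero, div_one]
    have h2 := (ENNReal.summable_toReal h).tendsto_atTop_zero
    refine h2.congr fun n => ?_
    rw [ENNReal.toReal_mul, ENNReal.toReal_pow, ENNReal.toReal_ofReal hz.le]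

variable {S : Type} [Fintype S] [DecidableEq S]
variable {K W U : PowerSeries (Matrix S S ℝ≥0∞)} {o : S}

/-- the asymptotics of the entries of the resolvent -/
theorem Dat.mr (h : Dat K W U o) {Z : ℝ} (hZ : 0 < Z)
    (hfin : ∀ a b, ev (ENNReal.ofReal Z) (en K a b) ≠ ⊤)
    (hirr : ∀ a b, en U a b ≠ 0) (h1 : 1 < ENNReal.ofReal Z * coeff 1 (en K o o)) :
    ∃ z B : ℝ, 0 < z ∧ z < Z ∧ 0 ≤ B ∧
      ∀ a b, ∃ L, 0 < L ∧ As z 0 (fun n => coeff n U a b) B L := by
  have hk1 : coeff 1 (en K o o) ≠ 0 := by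
    rintro hc
    rw [hc, mul_zero] at h1
    exact absurd h1 (by simp)
  obtain ⟨z, z', hz, hzz', hz'Z, hF, hwf, hFf⟩ := h.crit hZ hfin hirr h1
  obtain ⟨hUf, hU1, L0, hL0, hlim⟩ := h.lim0 hz hzz' hk1 hF hFf
  have hu : As z 0 (fun n => coeff n (en U o o)) 1 L0 := by
    refine ⟨fun m => ?_, ?_⟩
    · rw [P_zero, mul_one, ← ENNReal.ofReal_toReal (hUf m),
        ← ENNReal.ofReal_mul ENNReal.toReal_nonneg]
      exact ENNReal.ofReal_le_ofReal (hU1 m)
    · simpa only [P_zero, div_one] using hlim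
  have hzle : ENNReal.ofReal z ≤ ENNReal.ofReal z' := ENNReal.ofReal_le_ofReal hzz'.le
  have hw : ∀ a b, ev (ENNReal.ofReal z) (en W a b) ≠ ⊤ := fun a b =>
    ne_top_of_le_ne_top (hwf a b) (ev_mono hzle _)
  have hwk : ∀ a, ev (ENNReal.ofReal z) (en (W * K) a o) ≠ ⊤ := by
    intro a
    rw [en_mul, ev_sum]
    simp only [ev_mul]
    refine (ENNReal.sum_lt_top.2 fun c _ => ENNReal.mul_lt_top (hw a c).lt_top ?_).ne
    exact lt_of_le_of_lt (ev_mono (ENNReal.ofReal_le_ofReal (hzz'.le.trans hz'Z)) _)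
      (hfin c o).lt_top
  have key : ∀ a b, ∃ B L : ℝ, 0 ≤ B ∧ 0 < L ∧ As z 0 (fun n => coeff n U a b) B L := by
    intro a b
    set G := en (W * K) a o * en W o b with hG
    have hGt : ev (ENNReal.ofReal z) G ≠ ⊤ := by
      rw [hG, ev_mul]
      exact ENNReal.mul_ne_top (hwk a) (hw o b)
    obtain ⟨g', h2, h3⟩ := As.mix (c := fun i => coeff i G) (a := fun i => i)
      (G := fun _ n => coeff n (en U o o)) (γ := fun _ => L0)
      (M := (ev (ENNReal.ofReal z) G).toReal) hz (zero_le_one) ENNReal.toReal_nonneg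
      (fun _ => hu) (by
        rw [ENNReal.ofReal_toReal hGt]
        refine le_of_eq ?_
        unfold ev
        refine tsum_congr fun n => ?_
        rw [ENNReal.ofReal_pow hz.le])
    have hGne : G ≠ 0 := by
      rw [hG]
      intro hc
      rcases mul_eq_zero.1 hc with h4 | h4
      · exact h.wk_ne hirr hk1 a h4
      · exact h.wo_ne hirr b h4
    have hg' : 0 < g' := by
      rw [h3]
      obtain ⟨i, hi⟩ := exists_coeff hGne
      exact ⟨i, hi, hL0⟩
    have h5 := (as_ev hz (hw a b)).add hz ENNReal.toReal_nonneg (by positivity) h2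
    have e : (fun n => coeff n U a b) = fun m => coeff m (en W a b) +
        ∑' i, if i ≤ m then coeff i G * coeff (m - i) (en U o o) else 0 := by
      funext m
      have e1 : en U a b = en W a b + G * en U o o := by
        rw [h.entry a b, h.row b, hG]
        ring
      rw [← coeff_en, e1, map_add, coeff_mul, Finset.Nat.sum_antidiagonal_eq_sum_range_succ_mk]
      congr 1
      rw [tsum_eq_sum (s := range (m + 1)) (fun i hi => by
        rw [mem_range] at hi
        rw [if_neg (by omega)])]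
      refine sum_congr rfl fun i hi => ?_
      rw [mem_range] at hi
      rw [if_pos (by omega)]
    rw [e]
    exact ⟨_, 0 + g', by positivity, by linarith, h5⟩
  choose B L hB hL hA using key
  refine ⟨z, ∑ a, ∑ b, B a b, hz, hzz'.trans_le hz'Z, sum_nonneg fun a _ => sum_nonneg fun b _ =>
    hB a b, fun a b => ⟨L a b, hL a b, (hA a b).mono ?_⟩⟩
  exact (single_le_sum (f := fun b => B a b) (fun b _ => hB a b) (mem_univ b)).trans
    (single_le_sum (f := fun a => ∑ b, B a b) (fun a _ => sum_nonneg fun b _ => hB a b)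
      (mem_univ a))

end TubeRen
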