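import Pool.Agent.H132.TB.Efp

/-!
# Linear equations for power series with matrix coefficients
-/

set_option autoImplicit false

namespace TubeRen

open Filter Topology Finset PowerSeries
open scoped ENNReal

section Gen

variable {R : Type*} [Semiring R]

/-- the coefficients of the solution of `X = A + K X` -/
noncomputable def sol (K A : ℕ → R) (n : ℕ) : R := A n + ∑ i : Fin n, K (n - i) * sol K A i
termination_by n
decreasing_by exact i.2

theorem coeff_mul' (K X : PowerSeries R) (h0 : coeff 0 K = 0) (n : ℕ) :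
    coeff n (K * X) = ∑ i ∈ range n, coeff (n - i) K * coeff i X := by
  rw [coeff_mul, ← Finset.Nat.sum_antidiagonal_swap]
  rw [Finset.Nat.sum_antidiagonal_eq_sum_range_succ_mk, sum_range_succ]
  simp only [Prod.fst_swap, Prod.snd_swap, Nat.sub_self, h0, zero_mul, add_zero]

theorem sol_exists (K A : PowerSeries R) (h0 : coeff 0 K = 0) : ∃ X, X = A + K * X := by
  refine ⟨PowerSeries.mk (sol (fun n => coeff n K) (fun n => coeff n A)), ?_⟩
  ext n
  rw [map_add, coeff_mul' K _ h0, coeff_mk, sol, sum_range]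
  simp only [coeff_mk]

theorem sol_unique {K A X Y : PowerSeries R} (h0 : coeff 0 K = 0) (hX : X = A + K * X)
    (hY : Y = A + K * Y) : X = Y := by
  ext n
  induction n using Nat.strong_induction_on with
  | _ n ih =>
    rw [hX, hY, map_add, map_add, coeff_mul' K _ h0, coeff_mul' K _ h0]
    congr 1
    refine sum_congr rfl fun i hi => ?_
    rw [ih i (mem_range.1 hi)]

end Gen

/-- the value of a power series -/
noncomputable def ev (z : ℝ≥0∞) (P : PowerSeries ℝ≥0∞) : ℝ≥0∞ := ∑' n, coeff n P * z ^ n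

theorem ev_add (z : ℝ≥0∞) (P Q : PowerSeries ℝ≥0∞) : ev z (P + Q) = ev z P + ev z Q := by
  unfold ev
  simp only [map_add, add_mul]
  exact ENNReal.tsum_add

theorem ev_one (z : ℝ≥0∞) : ev z 1 = 1 := by
  unfold ev
  rw [tsum_eq_single 0]
  · simp
  · intro n hn
    rw [coeff_one, if_neg hn, zero_mul]

theorem ev_sum {ι : Type*} (z : ℝ≥0∞) (s : Finset ι) (P : ι → PowerSeries ℝ≥0∞) :
    ev z (∑ i ∈ s, P i) = ∑ i ∈ s, ev z (P i) := by
  classical
  induction s using Finset.induction_on with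
  | empty => simp [ev]
  | insert a s ha ih => rw [sum_insert ha, sum_insert ha, ev_add, ih]

theorem ev_mul (z : ℝ≥0∞) (P Q : PowerSeries ℝ≥0∞) : ev z (P * Q) = ev z P * ev z Q := by
  unfold ev
  rw [← ENNReal.tsum_mul_right]
  simp only [← ENNReal.tsum_mul_left]
  rw [← ENNReal.tsum_prod (f := fun i j => coeff i P * z ^ i * (coeff j Q * z ^ j))]
  rw [← Finset.HasAntidiagonal.sigmaAntidiagonalEquivProd.tsum_eq, ENNReal.tsum_sigma']
  refine tsum_congr fun n => ?_
  rw [coeff_mul, sum_mul, tsum_fintype, ← Finset.sum_coe_sort]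
  refine sum_congr rfl fun x _ => ?_
  obtain ⟨⟨i, j⟩, hx⟩ := x
  have h : i + j = n := mem_antidiagonal.1 hx
  simp only [Finset.HasAntidiagonal.sigmaAntidiagonalEquivProd_apply]
  rw [← h, pow_add]
  ring

theorem ev_mono {z z' : ℝ≥0∞} (h : z ≤ z') (P : PowerSeries ℝ≥0∞) : ev z P ≤ ev z' P :=
  ENNReal.tsum_le_tsum fun n => mul_le_mul_right (pow_le_pow_left' h n) _

theorem le_ev (z : ℝ≥0∞) (P : PowerSeries ℝ≥0∞) (n : ℕ) : coeff n P * z ^ n ≤ ev z P :=
  ENNReal.le_tsum n

theorem pow_conv {z Z t : ℝ} (hz : 0 ≤ z) (hzZ : z ≤ Z) (h0 : 0 ≤ t) (h1 : t ≤ 1) (n : ℕ) :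
    ((1 - t) * z + t * Z) ^ n ≤ z ^ n + t * Z ^ n := by
  have hc : ConvexOn ℝ (Set.Ici 0) (fun x : ℝ => x ^ n) := convexOn_pow n
  have h := hc.2 (Set.mem_Ici.2 hz) (Set.mem_Ici.2 (hz.trans hzZ)) (by linarith : 0 ≤ 1 - t) h0
    (by ring)
  simp only [smul_eq_mul] at h
  refine h.trans ?_
  have : 0 ≤ t * z ^ n := by positivity
  linarith

theorem ev_conv {z Z t : ℝ} (hz : 0 ≤ z) (hzZ : z ≤ Z) (h0 : 0 ≤ t) (h1 : t ≤ 1)
    (P : PowerSeries ℝ≥0∞) : ev (ENNReal.ofReal ((1 - t) * z + t * Z)) P ≤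
    ev (ENNReal.ofReal z) P + ENNReal.ofReal t * ev (ENNReal.ofReal Z) P := by
  have hZ : 0 ≤ Z := hz.trans hzZ
  unfold ev
  rw [← ENNReal.tsum_mul_left, ← ENNReal.tsum_add]
  refine ENNReal.tsum_le_tsum fun n => ?_
  have h := ENNReal.ofReal_le_ofReal (pow_conv hz hzZ h0 h1 n)
  rw [ENNReal.ofReal_add (by positivity) (by positivity), ENNReal.ofReal_mul h0,
    ENNReal.ofReal_pow hz, ENNReal.ofReal_pow hZ, ENNReal.ofReal_pow (by
      have : 0 ≤ 1 - t := by linarith
      positivity)] at h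
  calc coeff n P * ENNReal.ofReal ((1 - t) * z + t * Z) ^ n ≤
        coeff n P * (ENNReal.ofReal z ^ n + ENNReal.ofReal t * ENNReal.ofReal Z ^ n) :=
        mul_le_mul_right h _
    _ = _ := by ring

section Mat

variable {S : Type} [Fintype S] [DecidableEq S]

/-- the entries -/
noncomputable def en (P : PowerSeries (Matrix S S ℝ≥0∞)) (a b : S) : PowerSeries ℝ≥0∞ :=
  PowerSeries.mk fun n => coeff n P a b

omit [DecidableEq S] in
theorem en_ext [DecidableEq S] {P Q : PowerSeries (Matrix S S ℝ≥0∞)}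
    (h : ∀ a b, en P a b = en Q a b) : P = Q := by
  ext n a b
  have := congrArg (coeff n) (h a b)
  simpa [en] using this

theorem coeff_en (P : PowerSeries (Matrix S S ℝ≥0∞)) (a b : S) (n : ℕ) :
    coeff n (en P a b) = coeff n P a b := by simp [en]

theorem en_add (P Q : PowerSeries (Matrix S S ℝ≥0∞)) (a b : S) :
    en (P + Q) a b = en P a b + en Q a b := by
  ext n
  simp [en, Matrix.add_apply]

theorem en_one (a b : S) : en (1 : PowerSeries (Matrix S S ℝ≥0∞)) a b = if a = b then 1 else 0 := by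
  ext n
  rw [coeff_en, coeff_one]
  by_cases hn : n = 0
  · rw [if_pos hn, Matrix.one_apply]
    split_ifs <;> simp [coeff_one, hn]
  · rw [if_neg hn]
    split_ifs <;> simp [coeff_one, hn]

theorem en_mul (P Q : PowerSeries (Matrix S S ℝ≥0∞)) (a b : S) :
    en (P * Q) a b = ∑ c, en P a c * en Q c b := by
  ext n
  rw [coeff_en, coeff_mul, map_sum, Matrix.sum_apply]
  simp only [Matrix.mul_apply, coeff_mul, coeff_en]
  exact sum_comm

end Mat

end TubeRen
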