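import Pool.Agent.H132.TB.Cnt

/-!
# Summability beyond the critical point
-/

set_option autoImplicit false

namespace KN.ST

open KN KN.KQ Finset PowerSeries TubeRen
open scoped Classical ENNReal

noncomputable section

variable {L M : ℕ}

/-- the admissible numbers: `v = s ^ 2 R`, `Z = R ^ 2` -/
structure Ad (s R : ℝ≥0∞) : Prop where
  s0 : s ≠ 0
  s1 : s ≤ 1
  R1 : 1 ≤ R
  Rt : R ≠ ⊤
  v : 6 * (s ^ 2 * R) < 1

theorem words_fin {v : ℝ≥0∞} (h : 6 * v < 1) : ∑' w : List Dir, v ^ w.length ≠ ⊤ := by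
  refine ne_top_of_le_ne_top ?_ (tsum_words v)
  rw [ENNReal.tsum_geometric]
  rw [Ne, ENNReal.inv_eq_top, tsub_eq_zero_iff_le, not_le]
  exact h

theorem Ad.wb {s R : ℝ≥0∞} (h : Ad s R) {σ τ : Sta L M} {b : Blk} (hb : TP σ τ b) :
    ωb s b * (R ^ 2) ^ szb ((σ, τ), b) ≤ R ^ 3 * (s ^ 2 * R) ^ bl b := by
  have h1 := irr4 hb.pc hb.ir
  have h2 := par_tp hb
  have h3 := pp_le σ
  have h4 := pp_le τ
  unfold ωb
  rw [← pow_mul, mul_pow, ← pow_mul]
  calc s ^ (4 * bl b - 8 * wd b) * R ^ (2 * szb ((σ, τ), b)) ≤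
        s ^ (2 * bl b) * R ^ (3 + bl b) := by
        refine mul_le_mul' ?_ ?_
        · exact pow_le_pow_of_le_one zero_le h.s1 (by omega)
        · exact pow_le_pow_right₀ h.R1 (by omega)
    _ = _ := by rw [pow_add]; ring

/-- the sum over all blocks in the tube -/
theorem Ad.blocks {s R : ℝ≥0∞} (h : Ad s R) :
    ∑' x : Tr L M, (if TP x.1.1 x.1.2 x.2 then ωb s x.2 * (R ^ 2) ^ szb x else 0) ≠ ⊤ := by
  have h1 := words_fin h.v
  rw [ENNReal.tsum_prod', tsum_fintype]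
  refine (ENNReal.sum_lt_top.2 fun p _ => ?_).ne
  refine lt_of_le_of_lt (ENNReal.tsum_le_tsum (g := fun b : Blk => R ^ 3 * (s ^ 2 * R) ^ bl b)
    fun b => ?_) ?_
  · split_ifs with hb
    · exact h.wb hb
    · exact zero_le
  · rw [ENNReal.tsum_mul_left]
    refine ENNReal.mul_lt_top (ENNReal.pow_lt_top h.Rt.lt_top) ?_
    rw [ENNReal.tsum_prod']
    have h2 : ∀ a : List Dir, ∑' b : List Dir, (s ^ 2 * R) ^ bl (a, b) =
        (s ^ 2 * R) ^ a.length * ∑' b : List Dir, (s ^ 2 * R) ^ b.length := by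
      intro a
      rw [← ENNReal.tsum_mul_left]
      refine tsum_congr fun b => ?_
      unfold bl
      rw [pow_add]
    simp only [h2]
    rw [ENNReal.tsum_mul_right]
    exact ENNReal.mul_lt_top h1.lt_top h1.lt_top

theorem tsum_sub_le {α : Type} (Q Q' : α → Prop) (hQ : ∀ x, Q x → Q' x) (f : α → ℝ≥0∞) :
    ∑' x : {x // Q x}, f x.1 ≤ ∑' x, if Q' x then f x else 0 := by
  have h1 := tsum_subtype {x | Q x} f
  refine (le_of_eq h1).trans (ENNReal.tsum_le_tsum fun x => ?_)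
  simp only [Set.indicator, Set.mem_ofPred_eq]
  by_cases h : Q x
  · rw [if_pos h, if_pos (hQ x h)]
  · rw [if_neg h]; exact zero_le

theorem Ad.kt_fin {s R : ℝ≥0∞} (h : Ad s R) (σ τ : Sta L M) :
    ev (R ^ 2) (en (Kt L M s) σ τ) ≠ ⊤ := by
  refine ne_top_of_le_ne_top (h.blocks (L := L) (M := M)) ?_
  refine (Kb_ev (R ^ 2) σ τ).trans ?_
  exact tsum_sub_le (fun x : Tr L M => TP x.1.1 x.1.2 x.2 ∧
    Same (tB (df x.1.1) (df x.1.2) x.2) sq) (fun x => TP x.1.1 x.1.2 x.2) (fun x hx => hx.1)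
    (fun x => ωb s x.2 * (R ^ 2) ^ szb x)

theorem Ad.bt_fin {s R : ℝ≥0∞} (h : Ad s R) :
    ∑' x : Bt L M, mwt s x * (R ^ 2) ^ msz x ≠ ⊤ := by
  refine ne_top_of_le_ne_top (h.blocks (L := L) (M := M)) ?_
  exact tsum_sub_le (fun x : Tr L M => TP x.1.1 x.1.2 x.2 ∧
    ¬ Same (tB (df x.1.1) (df x.1.2) x.2) sq) (fun x => TP x.1.1 x.1.2 x.2) (fun x hx => hx.1)
    (fun x => ωb s x.2 * (R ^ 2) ^ szb x)

theorem Ad.ends {s R : ℝ≥0∞} (h : Ad s R) :
    ∑' e : Ed L M, we s e * (R ^ 2) ^ ae e ≠ ⊤ := by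
  have h1 := words_fin h.v
  rw [ENNReal.tsum_prod', tsum_fintype]
  refine (ENNReal.sum_lt_top.2 fun p _ => ?_).ne
  refine lt_of_le_of_lt (ENNReal.tsum_le_tsum (g := fun q : List Dir × List Dir =>
    R ^ 3 * ((s ^ 2 * R) ^ q.1.length * (s ^ 2 * R) ^ q.2.length)) fun q => ?_) ?_
  · by_cases he : LOk p.1 q.1 ∧ ROk p.2 q.2
    · have ha := ae_par (e := ((p, q) : Ed L M)) he
      have hw : we s ((p, q) : Ed L M) = ωa s q.1 * ωa s q.2 := if_pos he
      have h2 := he.1.la.four he.1.il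
      have h3 := he.2.ra.four he.2.ir
      have h4 := pp_le p.1
      have h5 := pp_le p.2
      simp only at ha
      rw [hw]
      unfold ωa
      rw [← pow_mul, mul_pow, mul_pow, ← pow_mul, ← pow_mul]
      calc s ^ (4 * q.1.length - 8 * xt q.1) * s ^ (4 * q.2.length - 8 * xt q.2) *
            R ^ (2 * ae ((p, q) : Ed L M)) ≤ s ^ (2 * q.1.length) * s ^ (2 * q.2.length) *
            R ^ (3 + q.1.length + q.2.length) := by
            refine mul_le_mul' (mul_le_mul' ?_ ?_) ?_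
            · exact pow_le_pow_of_le_one zero_le h.s1 (by omega)
            · exact pow_le_pow_of_le_one zero_le h.s1 (by omega)
            · exact pow_le_pow_right₀ h.R1 (by omega)
        _ = _ := by rw [pow_add, pow_add]; ring
    · have hw : we s ((p, q) : Ed L M) = 0 := if_neg he
      rw [hw, zero_mul]
      exact zero_le
  · rw [ENNReal.tsum_mul_left]
    refine ENNReal.mul_lt_top (ENNReal.pow_lt_top h.Rt.lt_top) ?_
    rw [ENNReal.tsum_prod']
    simp only [ENNReal.tsum_mul_left]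
    rw [ENNReal.tsum_mul_right]
    exact ENNReal.mul_lt_top h1.lt_top h1.lt_top

/-- the straight block -/
theorem Kt_one (s : ℝ≥0∞) (σ : Sta L M) : 1 ≤ coeff 1 (en (Kt L M s) σ σ) := by
  have h0 := tp_S σ
  have h1 := Kb_ge (src := fun x : T0 L M => x.1.1.1) (tgt := fun x : T0 L M => x.1.1.2)
    (wt := fun x : T0 L M => ωb s x.1.2) (sz := fun x : T0 L M => szb x.1)
    (⟨((σ, σ), ([], [])), h0, tB_S (df_x σ) (df_ne σ)⟩ : T0 L M)
  have h2 : szb (((σ, σ), ([], [])) : Tr L M) = 1 := by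
    unfold szb bl
    simp only [List.length_nil]
    omega
  have h3 : ωb s (([], []) : Blk) = 1 := by
    unfold ωb bl
    simp
  simp only [h2, h3] at h1
  exact h1

/-- words without gaps that are crossed exactly twice -/
theorem nocut_le {Y s : ℝ≥0∞} (hY : Y * s ^ 8 = 1) (hs : s ≤ 1) (k : List V) (n : ℕ) :
    (∑' w : List Dir, (if SAP w ∧ w.length = n ∧ Same (vl w) k ∧ ¬ ∃ c, X w c = 2 then
      (Np L M w : ℝ≥0∞) * Y ^ xt w else 0)) * (s ^ 4) ^ n ≤
    ((Rct L M).card : ℝ≥0∞) * (6 * s ^ 2) ^ n := by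
  rw [← ENNReal.tsum_mul_right]
  have h1 : ∀ w : List Dir, (if SAP w ∧ w.length = n ∧ Same (vl w) k ∧ ¬ ∃ c, X w c = 2 then
      (Np L M w : ℝ≥0∞) * Y ^ xt w else 0) * (s ^ 4) ^ n ≤
      ((Rct L M).card : ℝ≥0∞) * (if w ∈ W n then (s ^ 2) ^ n else 0) := by
    intro w
    split_ifs with h2 h3 h3
    · obtain ⟨g1, g2, -, g4⟩ := h2
      push Not at g4
      have h5 := four_xt (by rw [g1.2.1]; rfl) g4
      rw [g2] at h5
      have h6 : (Np L M w : ℝ≥0∞) ≤ (Rct L M).card := by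
        unfold Np
        exact_mod_cast card_filter_le _ _
      rw [mul_assoc]
      refine mul_le_mul' h6 ?_
      have e : 4 * n = (4 * n - 8 * xt w) + 8 * xt w := by omega
      rw [← pow_mul s 4, e, pow_add s, pow_mul s 8, ← pow_mul s 2]
      calc Y ^ xt w * (s ^ (4 * n - 8 * xt w) * (s ^ 8) ^ xt w) =
            s ^ (4 * n - 8 * xt w) * (Y * s ^ 8) ^ xt w := by rw [mul_pow]; ring
        _ = s ^ (4 * n - 8 * xt w) := by rw [hY, one_pow, mul_one]
        _ ≤ s ^ (2 * n) := pow_le_pow_of_le_one zero_le hs (by omega)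
    · exfalso
      exact h3 (by rw [mem_W]; exact h2.2.1)
    · rw [zero_mul]; exact zero_le
    · rw [zero_mul]; exact zero_le
  refine (ENNReal.tsum_le_tsum h1).trans ?_
  rw [ENNReal.tsum_mul_left]
  refine mul_le_mul_right ?_ _
  rw [tsum_eq_sum (s := W n) (fun w hw => if_neg hw), Finset.sum_congr rfl (fun w hw => if_pos hw),
    sum_const, nsmul_eq_mul, mul_pow]
  refine mul_le_mul_left ?_ _
  exact_mod_cast card_W_le n

end

end KN.ST
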