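import Pool.Agent.H132.TB.Arc2

/-!
# The tube: positions of the two strands
-/

set_option autoImplicit false

namespace KN.ST

open KN KN.KQ Finset
open scoped Classical ENNReal

noncomputable section

/-- the tube -/
def Tb (L M : ℕ) (p : Z3) : Prop := 0 ≤ p.2.1 ∧ p.2.1 ≤ L ∧ 0 ≤ p.2.2 ∧ p.2.2 ≤ M

variable {L M : ℕ}

theorem tb_lat {p q : Z3} (h : p.2 = q.2) : Tb L M p ↔ Tb L M q := by
  unfold Tb
  rw [h]

/-- the section of the tube -/
def Rct (L M : ℕ) : Finset Z3 :=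
  (range (L + 1) ×ˢ range (M + 1)).image (fun x => ((0 : ℤ), (x.1 : ℤ), (x.2 : ℤ)))

theorem mem_Rct {p : Z3} : p ∈ Rct L M ↔ p.1 = 0 ∧ Tb L M p := by
  unfold Rct Tb
  rw [mem_image]
  constructor
  · rintro ⟨⟨a, b⟩, h, rfl⟩
    rw [mem_product, mem_range, mem_range] at h
    obtain ⟨h1, h2⟩ := h
    show (0 : ℤ) = 0 ∧ 0 ≤ (a : ℤ) ∧ (a : ℤ) ≤ L ∧ 0 ≤ (b : ℤ) ∧ (b : ℤ) ≤ M
    simp only at h1 h2
    omega
  · rintro ⟨h0, h1, h2, h3, h4⟩
    refine ⟨(p.2.1.toNat, p.2.2.toNat), ?_, ?_⟩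
    · rw [mem_product, mem_range, mem_range]
      simp only
      omega
    · obtain ⟨x, y, z⟩ := p
      simp only at h0 h1 h2 h3 h4 ⊢
      rw [h0, Int.toNat_of_nonneg h1, Int.toNat_of_nonneg h3]

/-- the lateral part -/
def lt (p : Z3) : Z3 := (0, p.2)

/-- the positions of the two strands in a section -/
abbrev Sta (L M : ℕ) : Type := {x : Z3 × Z3 // x ∈ (Rct L M).offDiag}

/-- the difference of the strands -/
def df (σ : Sta L M) : Z3 := σ.1.2 - σ.1.1

theorem sta_mem (σ : Sta L M) : σ.1.1 ∈ Rct L M ∧ σ.1.2 ∈ Rct L M ∧ σ.1.1 ≠ σ.1.2 :=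
  mem_offDiag.1 σ.2

theorem df_ne (σ : Sta L M) : df σ ≠ 0 := by
  intro h
  exact (sta_mem σ).2.2 (sub_eq_zero.1 h).symm

theorem df_x (σ : Sta L M) : (df σ).1 = 0 := by
  have h1 := (mem_Rct.1 (sta_mem σ).1).1
  have h2 := (mem_Rct.1 (sta_mem σ).2.1).1
  unfold df
  rw [Prod.fst_sub]
  omega

theorem sta_ext {σ τ : Sta L M} (h : σ.1.1 = τ.1.1) (h' : df σ = df τ) : σ = τ := by
  apply Subtype.ext
  refine Prod.ext h ?_
  unfold df at h'
  rw [h] at h'
  exact sub_left_injective h'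

/-- a block in the tube -/
structure TP (σ τ : Sta L M) (b : Blk) : Prop where
  pc : Pc (df σ) (df τ) b
  ir : Irr b
  u : τ.1.1 = lt (σ.1.1 + pos b.1)
  tb : ∀ p ∈ pv b (df τ), Tb L M (σ.1.1 + p)

/-- a chain in the tube -/
def TC : Sta L M → List Blk → Sta L M → Prop
  | σ, [], σ' => σ = σ'
  | σ, b :: bs, σ' => ∃ τ, TP σ τ b ∧ TC τ bs σ'

theorem TP.uniq {σ τ τ' : Sta L M} {b : Blk} (h : TP σ τ b) (h' : TP σ τ' b) : τ = τ' :=
  sta_ext (h.u.trans h'.u.symm) (h.pc.nxt.symm.trans h'.pc.nxt)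

theorem tc_uniq {bs : List Blk} : ∀ {σ τ τ' : Sta L M}, TC σ bs τ → TC σ bs τ' → τ = τ' := by
  induction bs with
  | nil => intro σ τ τ' h h'; simp only [TC] at h h'; rw [← h, ← h']
  | cons b bs ih =>
    rintro σ τ τ' ⟨ρ, h1, h2⟩ ⟨ρ', h3, h4⟩
    have := h1.uniq h3
    subst this
    exact ih h2 h4

theorem tc_vc {bs : List Blk} : ∀ {σ τ : Sta L M}, TC σ bs τ →
    VC (df σ) bs (df τ) ∧ ∀ b ∈ bs, Irr b := by
  induction bs with
  | nil => intro σ τ h; simp only [TC] at h; subst h; exact ⟨rfl, by simp⟩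
  | cons b bs ih =>
    rintro σ τ ⟨ρ, h1, h2⟩
    obtain ⟨h3, h4⟩ := ih h2
    refine ⟨?_, ?_⟩
    · simp only [VC]
      rw [h1.pc.nxt]
      exact ⟨h1.pc, h3⟩
    · intro c hc
      rcases List.mem_cons.1 hc with rfl | hc
      · exact h1.ir
      · exact h4 c hc

theorem lt_tb {p : Z3} : Tb L M (lt p) ↔ Tb L M p := tb_lat rfl

theorem tc_iff {bs : List Blk} : ∀ {σ : Sta L M} {r : List Dir} {E : Z3}, VC (df σ) bs E →
    (∀ b ∈ bs, Irr b) → RA E r →
    ((∀ p ∈ path (Rw bs r), Tb L M (σ.1.1 + p)) ↔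
      ∃ σ' : Sta L M, TC σ bs σ' ∧ df σ' = E ∧ ∀ p ∈ path r, Tb L M (σ'.1.1 + p)) := by
  induction bs with
  | nil =>
    intro σ r E h _ hr
    simp only [VC] at h
    simp only [Rw, TC]
    constructor
    · intro h1
      exact ⟨σ, rfl, h, h1⟩
    · rintro ⟨σ', rfl, -, h1⟩
      exact h1
  | cons b bs ih =>
    intro σ r E h hI hr
    have hR := h.2.ra hr
    set D' := nxt (df σ) b with hD'
    simp only [Rw]
    constructor
    · intro h1
      have h2 : ∀ q ∈ path (Rw bs r), Tb L M (lt (σ.1.1 + pos b.1) + q) := by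
        intro q hq
        have := h1 (q + (pos b.1 + vec .xp)) ((mem_Rw1 hR.en _).2 (Or.inr (by simpa using hq)))
        refine (tb_lat ?_).1 this
        simp only [lt, Prod.snd_add, vec]
        rw [show ((0 : ℤ), (0 : ℤ)) = 0 from rfl, add_zero]
        abel
      have hU : lt (σ.1.1 + pos b.1) ∈ Rct L M := by
        rw [mem_Rct]
        refine ⟨rfl, ?_⟩
        have := h2 0 (zero_mem_path _)
        rwa [add_zero] at this
      have hV : lt (σ.1.1 + pos b.1) + D' ∈ Rct L M := by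
        rw [mem_Rct]
        refine ⟨?_, ?_⟩
        · rw [Prod.fst_add, hR.h0]
          rfl
        · have := h2 (pos (Rw bs r)) (pos_mem_path _)
          rwa [hR.en] at this
      have hne : lt (σ.1.1 + pos b.1) ≠ lt (σ.1.1 + pos b.1) + D' := by
        intro h3
        exact hR.ne (left_eq_add.1 h3)
      set τ : Sta L M := ⟨(lt (σ.1.1 + pos b.1), lt (σ.1.1 + pos b.1) + D'),
        mem_offDiag.2 ⟨hU, hV, hne⟩⟩ with hτ
      have hdf : df τ = D' := by
        simp only [df, hτ]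
        abel
      have hvc : VC (df τ) bs E := by rw [hdf]; exact h.2
      obtain ⟨σ', g1, g2, g3⟩ := (ih hvc (fun c hc => hI c (List.mem_cons_of_mem _ hc)) hr).1 h2
      refine ⟨σ', ⟨τ, ⟨?_, hI b List.mem_cons_self, rfl, ?_⟩, g1⟩, g2, g3⟩
      · rw [hdf]; exact h.1
      · intro p hp
        rw [hdf] at hp
        exact h1 p ((mem_Rw1 hR.en _).2 (Or.inl hp))
    · rintro ⟨σ', ⟨τ, g0, g1⟩, g2, g3⟩ p hp
      have hdf : df τ = D' := g0.pc.nxt.symm
      rw [mem_Rw1 hR.en] at hp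
      rcases hp with hp | hp
      · exact g0.tb p (by rw [hdf]; exact hp)
      · have hvc : VC (df τ) bs E := by rw [hdf]; exact h.2
        have := (ih hvc (fun c hc => hI c (List.mem_cons_of_mem _ hc)) hr).2
          ⟨σ', g1, g2, g3⟩ _ hp
        refine (tb_lat ?_).1 this
        rw [g0.u]
        simp only [lt, Prod.snd_add, Prod.snd_sub, vec]
        rw [show ((0 : ℤ), (0 : ℤ)) = 0 from rfl, add_zero]
        abel

/-- the number of places of a walk in the tube -/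
def Np (L M : ℕ) (w : List Dir) : ℕ :=
  ((Rct L M).filter (fun u => ∀ p ∈ path w, Tb L M (u + p))).card

/-- left ends -/
structure LOk (σ : Sta L M) (l : List Dir) : Prop where
  la : LA (df σ) l
  il : IL l
  tb : ∀ p ∈ path l, Tb L M (σ.1.2 + p)

/-- right ends -/
structure ROk (σ : Sta L M) (r : List Dir) : Prop where
  ra : RA (df σ) r
  ir : IR r
  tb : ∀ p ∈ path r, Tb L M (σ.1.1 + p)

/-- the places of a polygon -/
theorem places {x : List Dir × List Blk × List Dir} {D E : Z3} (h : Vd x.1 x.2.1 x.2.2 D E)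
    (σ : Sta L M) : (df σ = D ∧ ∀ p ∈ path (pw3 x), Tb L M (σ.1.1 + p)) ↔
      ∃ σ' : Sta L M, LOk σ x.1 ∧ TC σ x.2.1 σ' ∧ ROk σ' x.2.2 := by
  constructor
  · rintro ⟨h1, h2⟩
    have hvc : VC (df σ) x.2.1 E := by rw [h1]; exact h.vc
    obtain ⟨σ', g1, g2, g3⟩ := (tc_iff hvc h.ir h.ra).1 (fun p hp =>
      h2 p ((mem_poly h.la h.r p).2 (Or.inr hp)))
    refine ⟨σ', ⟨by rw [h1]; exact h.la, h.il, ?_⟩, g1, ⟨by rw [g2]; exact h.ra, h.rr, g3⟩⟩
    intro p hp
    have := h2 (p + (D + vec .xm)) ((mem_poly h.la h.r _).2 (Or.inl (by simpa using hp)))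
    refine (tb_lat ?_).1 this
    rw [← h1]
    unfold df
    simp only [Prod.snd_add, Prod.snd_sub, vec]
    rw [show ((0 : ℤ), (0 : ℤ)) = 0 from rfl, add_zero]
    abel
  · rintro ⟨σ', g1, g2, g3⟩
    have hD : df σ = D := by
      have h1 := g1.la.en
      rw [h.la.en] at h1
      exact (neg_injective h1).symm
    refine ⟨hD, fun p hp => ?_⟩
    rw [pw3, mem_poly h.la h.r] at hp
    have hvc : VC (df σ) x.2.1 E := by rw [hD]; exact h.vc
    have hE : df σ' = E := by rw [← g3.ra.en, h.ra.en]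
    rcases hp with hp | hp
    · have := g1.tb _ hp
      refine (tb_lat ?_).1 this
      rw [← hD]
      unfold df
      simp only [Prod.snd_add, Prod.snd_sub, vec]
      rw [show ((0 : ℤ), (0 : ℤ)) = 0 from rfl, add_zero]
      abel
    · exact (tc_iff hvc h.ir h.ra).2 ⟨σ', g2, hE, g3.tb⟩ p hp

theorem Np_eq {x : List Dir × List Blk × List Dir} {D E : Z3} (h : Vd x.1 x.2.1 x.2.2 D E) :
    (Np L M (pw3 x) : ℝ≥0∞) = ∑ σ : Sta L M, ∑ σ' : Sta L M,
      if LOk σ x.1 ∧ TC σ x.2.1 σ' ∧ ROk σ' x.2.2 then 1 else 0 := by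
  have h1 : ∀ σ : Sta L M, ∑ σ' : Sta L M, (if LOk σ x.1 ∧ TC σ x.2.1 σ' ∧ ROk σ' x.2.2 then
      (1 : ℝ≥0∞) else 0) = if (df σ = D ∧ ∀ p ∈ path (pw3 x), Tb L M (σ.1.1 + p)) then 1
      else 0 := by
    intro σ
    split_ifs with hσ
    · obtain ⟨σ', g1, g2, g3⟩ := (places h σ).1 hσ
      rw [Finset.sum_eq_single σ']
      · rw [if_pos ⟨g1, g2, g3⟩]
      · intro τ _ hτ
        rw [if_neg]
        rintro ⟨-, k2, -⟩
        exact hτ (tc_uniq k2 g2)
      · simp
    · refine Finset.sum_eq_zero fun σ' _ => ?_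
      rw [if_neg]
      intro hc
      exact hσ ((places h σ).2 ⟨σ', hc⟩)
  simp only [h1]
  rw [← Finset.sum_filter, Finset.sum_const, nsmul_eq_mul, mul_one]
  congr 1
  unfold Np
  symm
  refine Finset.card_bij (fun σ _ => σ.1.1) ?_ ?_ ?_
  · intro σ hσ
    rw [mem_filter] at hσ ⊢
    exact ⟨(sta_mem σ).1, hσ.2.2⟩
  · intro σ hσ τ hτ he
    rw [mem_filter] at hσ hτ
    exact sta_ext he (hσ.2.1.trans hτ.2.1.symm)
  · intro u hu
    rw [mem_filter] at hu
    obtain ⟨hu1, hu2⟩ := hu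
    have hD : D ∈ path (pw3 x) := by
      rw [pw3, mem_poly h.la h.r]
      right
      rw [← h.r.en]
      exact pos_mem_path _
    have hV : u + D ∈ Rct L M := by
      rw [mem_Rct]
      refine ⟨?_, hu2 D hD⟩
      rw [Prod.fst_add, h.la.h0, (mem_Rct.1 hu1).1]
      rfl
    have hne : u ≠ u + D := by
      intro h3
      exact h.la.ne (left_eq_add.1 h3)
    refine ⟨⟨(u, u + D), mem_offDiag.2 ⟨hu1, hV, hne⟩⟩, ?_, rfl⟩
    rw [mem_filter]
    refine ⟨mem_univ _, ?_, hu2⟩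
    simp only [df]
    abel

theorem Np_sum (x : List Dir × List Blk × List Dir) :
    (if ∃ D E, Vd x.1 x.2.1 x.2.2 D E then (Np L M (pw3 x) : ℝ≥0∞) else 0) =
      ∑ σ : Sta L M, ∑ σ' : Sta L M,
        if LOk σ x.1 ∧ TC σ x.2.1 σ' ∧ ROk σ' x.2.2 then 1 else 0 := by
  split_ifs with h
  · obtain ⟨D, E, h⟩ := h
    exact Np_eq h
  · symm
    refine Finset.sum_eq_zero fun σ _ => Finset.sum_eq_zero fun σ' _ => ?_
    rw [if_neg]
    rintro ⟨h1, h2, h3⟩
    obtain ⟨h4, h5⟩ := tc_vc h2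
    exact h ⟨df σ, df σ', ⟨h1.la, h1.il, h4, h5, h3.ra, h3.ir⟩⟩

/-- the number of places does not change under rotations -/
theorem Np_rotate {w : List Dir} (h0 : pos w = 0) {k : ℕ} (hk : k ≤ w.length) :
    Np L M (w.rotate k) = Np L M w := by
  set s := pos (w.take k) with hs
  have hmem := mem_path_rotate h0 hk
  unfold Np
  refine Finset.card_bij (fun u _ => lt (u + s)) ?_ ?_ ?_
  · intro u hu
    rw [mem_filter] at hu ⊢
    have h1 : ∀ p ∈ path w, Tb L M (lt (u + s) + p) := by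
      intro p hp
      have := hu.2 (p + s) ((hmem _).2 (by rw [← hs, add_sub_cancel_right]; exact hp))
      refine (tb_lat ?_).1 this
      simp only [lt, Prod.snd_add]
      abel
    refine ⟨?_, h1⟩
    rw [mem_Rct]
    refine ⟨rfl, ?_⟩
    have := h1 0 (zero_mem_path _)
    rwa [add_zero] at this
  · intro u hu v hv he
    rw [mem_filter] at hu hv
    have h1 := (mem_Rct.1 hu.1).1
    have h2 := (mem_Rct.1 hv.1).1
    have h3 := congrArg Prod.snd he
    simp only [lt, Prod.snd_add, add_left_inj] at h3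
    exact Prod.ext (h1.trans h2.symm) h3
  · intro u hu
    rw [mem_filter] at hu
    have h1 : ∀ p ∈ path (w.rotate k), Tb L M (lt (u - s) + p) := by
      intro p hp
      have := hu.2 _ ((hmem p).1 hp)
      refine (tb_lat ?_).1 this
      simp only [lt, Prod.snd_add, Prod.snd_sub]
      abel
    refine ⟨lt (u - s), ?_, ?_⟩
    · rw [mem_filter]
      refine ⟨?_, h1⟩
      rw [mem_Rct]
      refine ⟨rfl, ?_⟩
      have := h1 0 (zero_mem_path _)
      rwa [add_zero] at this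
    · refine Prod.ext ?_ ?_
      · simp only [lt]
        exact (mem_Rct.1 hu.1).1.symm
      · simp only [lt, Prod.snd_add, Prod.snd_sub]
        abel

end

end KN.ST
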