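import Pool.Agent.H132.TB.Tube

/-!
# Knot types of polygons in the tube
-/

set_option autoImplicit false

namespace KN.ST

open KN KN.KQ Finset
open scoped Classical ENNReal

noncomputable section

/-- `k` is the sum of `a` and the knots of the list -/
def Fd : List V → List (List V) → List V → Prop
  | a, [], k => Same a k
  | a, t :: ts, k => ∃ s, IsSum a t s ∧ Fd s ts k

theorem fd_left {ts : List (List V)} {a a' k : List V} (h : Same a a') (hf : Fd a ts k) :
    Fd a' ts k := by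
  cases ts with
  | nil => exact h.symm.trans hf
  | cons t ts =>
    obtain ⟨s, h1, h2⟩ := hf
    exact ⟨s, isSum_congr h1 h (Same.refl _) (Same.refl _), h2⟩

theorem fd_right {ts : List (List V)} : ∀ {a k k' : List V}, Same k k' → Fd a ts k →
    Fd a ts k' := by
  induction ts with
  | nil => intro a k k' h hf; exact Same.trans hf h
  | cons t ts ih =>
    rintro a k k' h ⟨s, h1, h2⟩
    exact ⟨s, h1, ih h h2⟩

theorem fd_append {ts us : List (List V)} : ∀ {a k : List V},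
    Fd a (ts ++ us) k ↔ ∃ s, Fd a ts s ∧ Fd s us k := by
  induction ts with
  | nil =>
    intro a k
    constructor
    · intro h; exact ⟨a, Same.refl _, h⟩
    · rintro ⟨s, h1, h2⟩; exact fd_left (Same.symm h1) h2
  | cons t ts ih =>
    intro a k
    simp only [List.cons_append, Fd]
    constructor
    · rintro ⟨s, h1, h2⟩
      obtain ⟨s', h3, h4⟩ := ih.1 h2
      exact ⟨s', ⟨s, h1, h3⟩, h4⟩
    · rintro ⟨s', ⟨s, h1, h3⟩, h4⟩
      exact ⟨s, h1, ih.2 ⟨s', h3, h4⟩⟩

/-- the types of the knotted blocks -/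
def kt : Z3 → List Blk → List (List V)
  | _, [] => []
  | D, b :: bs => if Same (tB D (nxt D b) b) sq then kt (nxt D b) bs else
      tB D (nxt D b) b :: kt (nxt D b) bs

/-- the type of a right arc -/
def tR (E : Z3) (r : List Dir) : List V := vl (Poly (back (cp E)) r)

theorem type_iff {bs : List Blk} : ∀ {D E : Z3} {l r : List Dir} {k : List V}, LA D l →
    VC D bs E → RA E r →
    (Same (vl (Poly l (Rw bs r))) k ↔ Fd (tL D l) (kt D bs ++ [tR E r]) k) := by
  induction bs with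
  | nil =>
    intro D E l r k hl h hr
    simp only [VC] at h
    subst h
    have h1 := cut hl hr (pa_cp hl.h0 hl.ne)
    simp only [Rw, kt, List.nil_append, Fd]
    constructor
    · intro h2
      exact ⟨_, h1, h2⟩
    · rintro ⟨s, h2, h3⟩
      exact (isSum_unique h1 h2).trans h3
  | cons b bs ih =>
    intro D E l r k hl h hr
    have h1 := ext_same hl h.1 (h.2.ra hr)
    have h2 := add1 hl h.1
    have h3 := ih (h.1.la hl) h.2 hr (k := k)
    have h4 : Same (vl (Poly l (Rw (b :: bs) r))) k ↔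
        Same (vl (Poly (ext l b) (Rw bs r))) k :=
      ⟨fun h => h1.symm.trans h, fun h => h1.trans h⟩
    rw [h4, h3]
    simp only [kt]
    split_ifs with ht
    · have h5 := right_unit h2 ht
      exact ⟨fd_left h5, fd_left h5.symm⟩
    · simp only [List.cons_append, Fd]
      constructor
      · intro h5
        exact ⟨_, h2, h5⟩
      · rintro ⟨s, h5, h6⟩
        exact fd_left (isSum_unique h5 h2) h6

/-- knots in the tube -/
def InT (L M : ℕ) (t : List V) : Prop :=
  ∃ (w : List Dir) (u : Z3), SAP w ∧ Same (vl w) t ∧ ∀ p ∈ path w, Tb L M (u + p)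

/-- sums of nontrivial knots in the tube -/
def TS (L M : ℕ) : ℕ → List V → Prop
  | 0, k => Same k sq
  | N + 1, k => ∃ k' t : List V, TS L M N k' ∧ ¬ Same t sq ∧ InT L M t ∧ IsSum k' t k

variable {L M : ℕ}

theorem ts_congr {k k' : List V} (h : Same k k') {N : ℕ} (hN : TS L M N k) : TS L M N k' := by
  cases N with
  | zero => exact h.symm.trans hN
  | succ N =>
    obtain ⟨a, l, h1, h2, h3, h4⟩ := hN
    exact ⟨a, l, h1, h2, h3, isSum_congr h4 (Same.refl _) (Same.refl _) h⟩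

theorem ts_fd {ts : List (List V)} : ∀ {a k : List V} {i : ℕ},
    (∀ t ∈ ts, ¬ Same t sq ∧ InT L M t) → Fd a ts k → TS L M i a → TS L M (i + ts.length) k := by
  induction ts with
  | nil => intro a k i _ h hi; exact ts_congr h hi
  | cons t ts ih =>
    rintro a k i ht ⟨s, h1, h2⟩ hi
    have h3 := ht t List.mem_cons_self
    have h4 : TS L M (i + 1) s := ⟨a, t, hi, h3.1, h3.2, h1⟩
    have h5 := ih (fun u hu => ht u (List.mem_cons_of_mem _ hu)) h2 h4
    have e : i + (t :: ts).length = i + 1 + ts.length := by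
      rw [List.length_cons]; ring
    rw [e]
    exact h5

/-- the trivial knot is a left unit -/
theorem unit_left {t : List V} (ht : ∃ w, SAP w ∧ Same (vl w) t) : IsSum sq t t := by
  have hD : (vec .yp : Z3).1 = 0 := rfl
  have hD0 : (vec .yp : Z3) ≠ 0 := by decide
  obtain ⟨β, ω, h⟩ := slab t ht
  obtain ⟨p, hp, -, -, h1⟩ := h (vec .yp) hD hD0
  have hcp := pa_cp hD hD0
  have h2 := h1 _ _ hcp.la hcp.ra
  have h3 := ribbon_sq hcp
  exact isSum_congr h2 h3 (Same.refl _) (left_unit h2 h3)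

theorem InT.real {t : List V} (h : InT L M t) : ∃ w, SAP w ∧ Same (vl w) t := by
  obtain ⟨w, u, h1, h2, -⟩ := h
  exact ⟨w, h1, h2⟩

theorem InT.congr {t t' : List V} (h : InT L M t) (hs : Same t t') : InT L M t' := by
  obtain ⟨w, u, h1, h2, h3⟩ := h
  exact ⟨w, u, h1, h2.trans hs, h3⟩

theorem ts_one {t : List V} (h : InT L M t) : ∃ i, TS L M i t := by
  by_cases ht : Same t sq
  · exact ⟨0, ht⟩
  · exact ⟨1, sq, t, Same.refl _, ht, h, unit_left h.real⟩

/-! ### canonical arcs stay in the tube -/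

theorem cp_box {D p : Z3} (h : p ∈ path (cp D)) :
    ((0 ≤ p.2.1 ∧ p.2.1 ≤ D.2.1) ∨ (D.2.1 ≤ p.2.1 ∧ p.2.1 ≤ 0)) ∧
    ((0 ≤ p.2.2 ∧ p.2.2 ≤ D.2.2) ∨ (D.2.2 ≤ p.2.2 ∧ p.2.2 ≤ 0)) := by
  have hy : ∀ (a : ℤ) (q : Z3), q ∈ path (yl a) → q.2.2 = 0 ∧
      ((0 ≤ q.2.1 ∧ q.2.1 ≤ a) ∨ (a ≤ q.2.1 ∧ q.2.1 ≤ 0)) := by
    intro a q hq
    unfold yl at hq
    split_ifs at hq with h0
    · obtain ⟨i, hi, rfl⟩ := path_rep _ _ _ hq
      have : (i : ℤ) ≤ a.toNat := by exact_mod_cast hi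
      simp [vec]
      omega
    · obtain ⟨i, hi, rfl⟩ := path_rep _ _ _ hq
      have : (i : ℤ) ≤ (-a).toNat := by exact_mod_cast hi
      simp [vec]
      omega
  have hz : ∀ (a : ℤ) (q : Z3), q ∈ path (zl a) → q.2.1 = 0 ∧
      ((0 ≤ q.2.2 ∧ q.2.2 ≤ a) ∨ (a ≤ q.2.2 ∧ q.2.2 ≤ 0)) := by
    intro a q hq
    unfold zl at hq
    split_ifs at hq with h0
    · obtain ⟨i, hi, rfl⟩ := path_rep _ _ _ hq
      have : (i : ℤ) ≤ a.toNat := by exact_mod_cast hi
      simp [vec]
      omega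
    · obtain ⟨i, hi, rfl⟩ := path_rep _ _ _ hq
      have : (i : ℤ) ≤ (-a).toNat := by exact_mod_cast hi
      simp [vec]
      omega
  unfold cp at h
  rw [mem_path_append, pos_yl] at h
  rcases h with h | h
  · have h1 := hz _ _ h
    simp only [Prod.snd_sub, Prod.fst_sub] at h1
    omega
  · have h1 := hy _ _ h
    omega

theorem cp_tb (σ : Sta L M) : ∀ p ∈ path (cp (df σ)), Tb L M (σ.1.1 + p) := by
  intro p hp
  have h1 := cp_box hp
  have h2 := (mem_Rct.1 (sta_mem σ).1).2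
  have h3 := (mem_Rct.1 (sta_mem σ).2.1).2
  unfold Tb at h2 h3 ⊢
  unfold df at h1
  simp only [Prod.snd_sub, Prod.fst_sub, Prod.snd_add, Prod.fst_add] at h1 ⊢
  omega

theorem mem_back {w : List Dir} {p : Z3} (h : p ∈ path (back w)) : p + pos w ∈ path w := by
  rw [LAYU.path_back, List.mem_map] at h
  obtain ⟨q, hq, rfl⟩ := h
  rw [List.mem_reverse] at hq
  simpa using hq

theorem bcp_tb (σ : Sta L M) : ∀ p ∈ path (back (cp (df σ))), Tb L M (σ.1.2 + p) := by
  intro p hp
  have h1 := mem_back hp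
  rw [pos_cp (df_x σ)] at h1
  have h2 := cp_tb σ _ h1
  have e : σ.1.1 + (p + df σ) = σ.1.2 + p := by
    unfold df
    abel
  rwa [e] at h2

/-- polygons of two arcs in the tube -/
theorem inT_poly {σ : Sta L M} {l r : List Dir} (hl : LA (df σ) l) (hr : RA (df σ) r)
    (hlt : ∀ p ∈ path l, Tb L M (σ.1.2 + p)) (hrt : ∀ p ∈ path r, Tb L M (σ.1.1 + p)) :
    InT L M (vl (Poly l r)) := by
  refine ⟨Poly l r, σ.1.1, sap_poly hl hr, Same.refl _, fun p hp => ?_⟩
  rw [mem_poly hl hr] at hp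
  rcases hp with hp | hp
  · have := hlt _ hp
    refine (tb_lat ?_).1 this
    unfold df
    simp only [Prod.snd_add, Prod.snd_sub, vec]
    rw [show ((0 : ℤ), (0 : ℤ)) = 0 from rfl, add_zero]
    abel
  · exact hrt p hp

theorem inT_tL {σ : Sta L M} {l : List Dir} (h : LOk σ l) : InT L M (tL (df σ) l) :=
  inT_poly h.la (pa_cp (df_x σ) (df_ne σ)).ra h.tb (cp_tb σ)

theorem inT_tR {σ : Sta L M} {r : List Dir} (h : ROk σ r) : InT L M (tR (df σ) r) :=
  inT_poly (pa_cp (df_x σ) (df_ne σ)).la h.ra (bcp_tb σ) h.tb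

theorem inT_tB {σ τ : Sta L M} {b : Blk} (h : TP σ τ b) : InT L M (tB (df σ) (df τ) b) := by
  have hτ := pa_cp (df_x τ) (df_ne τ)
  refine inT_poly (pa_cp (df_x σ) (df_ne σ)).la (h.pc.ra hτ.ra) (bcp_tb σ) fun p hp => ?_
  rw [mem_Rw1 (pos_cp (df_x τ))] at hp
  rcases hp with hp | hp
  · exact h.tb p hp
  · have := cp_tb τ _ hp
    refine (tb_lat ?_).1 this
    rw [h.u]
    simp only [lt, Prod.snd_add, Prod.snd_sub, vec]
    rw [show ((0 : ℤ), (0 : ℤ)) = 0 from rfl, add_zero]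
    abel

/-! ### knotted blocks -/

/-- the knotted blocks in the tube -/
abbrev Bt (L M : ℕ) : Type := {x : (Sta L M × Sta L M) × Blk //
  TP x.1.1 x.1.2 x.2 ∧ ¬ Same (tB (df x.1.1) (df x.1.2) x.2) sq}

/-- the type -/
def ty (x : Bt L M) : List V := tB (df x.1.1.1) (df x.1.1.2) x.1.2

/-- the list of the knotted blocks of a chain -/
def kb : Sta L M → List Blk → List (Bt L M)
  | _, [] => []
  | σ, b :: bs => if h : ∃ τ, TP σ τ b then
      (if h2 : ¬ Same (tB (df σ) (df h.choose) b) sq then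
        (⟨((σ, h.choose), b), h.choose_spec, h2⟩ : Bt L M) :: kb h.choose bs
      else kb h.choose bs) else []

theorem kb_cons {σ τ : Sta L M} {b : Blk} (h : TP σ τ b) (bs : List Blk) :
    kb σ (b :: bs) = if h2 : ¬ Same (tB (df σ) (df τ) b) sq then
      (⟨((σ, τ), b), h, h2⟩ : Bt L M) :: kb τ bs else kb τ bs := by
  have hex : ∃ τ, TP σ τ b := ⟨τ, h⟩
  have h1 : hex.choose = τ := hex.choose_spec.uniq h
  rw [kb, dif_pos hex]
  subst h1
  rfl

theorem kb_ty {bs : List Blk} : ∀ {σ τ : Sta L M}, TC σ bs τ →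
    (kb σ bs).map ty = kt (df σ) bs := by
  induction bs with
  | nil => intro σ τ _; rfl
  | cons b bs ih =>
    rintro σ τ ⟨ρ, h1, h2⟩
    have h3 := ih h2
    rw [kb_cons h1]
    simp only [kt]
    rw [h1.pc.nxt]
    by_cases ht : Same (tB (df σ) (df ρ) b) sq
    · rw [dif_neg (by simpa using ht), if_pos ht, h3]
    · rw [dif_pos ht, if_neg ht, List.map_cons, h3]
      rfl

theorem ty_ok (x : Bt L M) : ¬ Same (ty x) sq ∧ InT L M (ty x) := ⟨x.2.2, inT_tB x.2.1⟩

/-- the number of knotted blocks is bounded by the number of factors -/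
theorem kb_le {k : List V} {N : ℕ} (hN : ∀ i, TS L M i k → i ≤ N) {σ σ' : Sta L M}
    {x : List Dir × List Blk × List Dir} (h1 : LOk σ x.1) (h2 : TC σ x.2.1 σ')
    (h3 : ROk σ' x.2.2) (hk : Same (vl (pw3 x)) k) : (kb σ x.2.1).length ≤ N := by
  obtain ⟨h4, h5⟩ := tc_vc h2
  have h6 := (type_iff h1.la h4 h3.ra).1 hk
  rw [← kb_ty h2, fd_append] at h6
  obtain ⟨s, h7, s', h8, h9⟩ := h6
  obtain ⟨i, hi⟩ := ts_one (inT_tL h1)
  have h10 := ts_fd (L := L) (M := M) (fun t ht => by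
    rw [List.mem_map] at ht
    obtain ⟨y, -, rfl⟩ := ht
    exact ty_ok y) h7 hi
  rw [List.length_map] at h10
  by_cases ht : Same (tR (df σ') x.2.2) sq
  · have h11 := ts_congr ((right_unit h8 ht).symm.trans h9) h10
    have := hN _ h11
    omega
  · have h11 : TS L M (i + (kb σ x.2.1).length + 1) k :=
      ⟨s, _, h10, ht, inT_tR h3, isSum_congr h8 (Same.refl _) (Same.refl _) h9⟩
    have := hN _ h11
    omega

end

end KN.ST
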