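import Pool.Agent.H132.TB.Typ

/-!
# Lists of knotted blocks with a given sum
-/

set_option autoImplicit false

namespace KN.ST

open KN KN.KQ Finset
open scoped Classical ENNReal

noncomputable section

variable {L M : ℕ}

/-- a chain of a polygon in the tube -/
theorem inT_chain {t : List V} (h : InT L M t) : ∃ (a₀ a : Dir) (bs : List Blk) (σ σ' : Sta L M),
    Lat a₀ ∧ Lat a ∧ VC (vec a₀) bs (vec a) ∧ TC σ bs σ' ∧ df σ = vec a₀ ∧ df σ' = vec a ∧
    Same (vl (word a₀ bs a)) t := by
  obtain ⟨w, u, hw, hwt, hu⟩ := h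
  obtain ⟨k, c, b, hk, hg, -, -, hs, hR, hrot⟩ := chain_exists hw
  obtain ⟨⟨a₀, a⟩, bs⟩ := c
  simp only at hrot hR
  have hmem := mem_path_rotate hw.2.1 hk.le
  set s := pos (w.take k) with hsd
  set U : Z3 := lt (u - s) with hU
  have hb : ∀ p ∈ path (w.rotate k), Tb L M (U + p) := by
    intro p hp
    have := hu _ ((hmem p).1 hp)
    refine (tb_lat ?_).1 this
    rw [hU]
    simp only [lt, Prod.snd_add, Prod.snd_sub]
    abel
  have hcl : pos (w.rotate k) = 0 := ((c_words _ hw).2.2 _).1.2.1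
  have h0 := hg.l0
  have h1 := hg.l1
  simp only at h0 h1
  have hpv : path (b.2 ++ a :: b.1) = pv b (vec a) := by
    rw [path_mid]
    rfl
  have hb2 : ∀ p ∈ pv b (vec a), Tb L M (U + p) := by
    intro p hp
    apply hb
    rw [hrot]
    rw [← hpv] at hp
    exact List.mem_cons_of_mem _ hp
  have hp0 : pos (b.2 ++ a :: b.1) = vec a₀ := by
    rw [hrot] at hcl
    simp only [pos, vec_neg] at hcl
    rw [← sub_eq_add_neg, sub_eq_zero] at hcl
    exact hcl
  have hUm : U ∈ Rct L M := by
    rw [mem_Rct]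
    refine ⟨rfl, ?_⟩
    have := hb 0 (zero_mem_path _)
    rwa [add_zero] at this
  have hVm : U + vec a₀ ∈ Rct L M := by
    rw [mem_Rct]
    refine ⟨?_, ?_⟩
    · rw [Prod.fst_add, h0.x]
      rfl
    · apply hb2
      rw [← hpv, ← hp0]
      exact pos_mem_path _
  have hne : U ≠ U + vec a₀ := fun h3 => vec_ne a₀ (left_eq_add.1 h3)
  set σ : Sta L M := ⟨(U, U + vec a₀), mem_offDiag.2 ⟨hUm, hVm, hne⟩⟩ with hσ
  have hdf : df σ = vec a₀ := by
    simp only [df, hσ]
    abel
  have hvc : VC (df σ) bs (vec a) := by rw [hdf]; exact hg.vc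
  have hra := (pa_one h1).ra
  obtain ⟨σ', g1, g2, -⟩ := (tc_iff hvc hg.ir hra).1 (by
    intro p hp
    rw [hR] at hp
    have hpa : pos [a] = vec a := by simp [pos]
    rw [mem_Rw1 hpa] at hp
    rcases hp with hp | hp
    · exact hb2 p hp
    · simp only [path, List.mem_cons, List.not_mem_nil, or_false, pos, zero_add] at hp
      rcases hp with hp | hp
      · have h4 := hb2 (pos b.1 + vec a) (by
          unfold pv
          rw [List.mem_append, mem_sh]
          left
          rw [sub_self]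
          exact zero_mem_path _)
        refine (tb_lat ?_).1 h4
        rw [sub_eq_iff_eq_add] at hp
        rw [hp]
        simp only [Prod.snd_add, vec]
        rw [show ((0 : ℤ), (0 : ℤ)) = 0 from rfl, add_zero]
        abel
      · have h4 := hb2 (pos b.1) (by
          unfold pv
          rw [List.mem_append]
          right
          exact pos_mem_path _)
        refine (tb_lat ?_).1 h4
        rw [sub_eq_zero] at hp
        rw [hp]
        simp only [Prod.snd_add, vec]
        rw [show ((0 : ℤ), (0 : ℤ)) = 0 from rfl, add_zero])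
  exact ⟨a₀, a, bs, σ, σ', h0, h1, hg.vc, g1, hdf, g2, hs.trans hwt⟩

/-- a left arc of a given type -/
theorem la_exists {k : List V} (hk : ∃ w, SAP w ∧ Same (vl w) k) {a : Dir} (ha : Lat a) :
    ∃ l, LA (vec a) l ∧ Same (tL (vec a) l) k := by
  obtain ⟨β, ω, h⟩ := slab k hk
  obtain ⟨p, hp, -, -, h1⟩ := h (vec a) ha.x (vec_ne a)
  have hl := la_one ha
  have hr := (pa_one ha).ra
  have h2 := h1 _ _ hl hr
  have h3 : Same (vl (Poly [neg a] [a])) sq := (sq_x ha).2
  refine ⟨ext [neg a] p, hp.la hl, ?_⟩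
  unfold tL
  rw [cp_one ha]
  exact (ext_same hl hp hr).symm.trans (left_unit h2 h3)

/-- the sum with the blocks of a chain -/
theorem fd_chain {k' t k : List V} (hk' : ∃ w, SAP w ∧ Same (vl w) k') (hs : IsSum k' t k)
    {a₀ a : Dir} {bs : List Blk} (h0 : Lat a₀) (ha : Lat a) (hv : VC (vec a₀) bs (vec a))
    (ht : Same (vl (word a₀ bs a)) t) : Fd k' (kt (vec a₀) bs) k := by
  obtain ⟨l, hl, hlk⟩ := la_exists hk' h0
  have hr := (pa_one ha).ra
  have h1 := cut hl (hv.ra hr) (pa_one h0)
  have e1 : back [a₀] = [neg a₀] := by simp [back]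
  rw [e1] at h1
  have h2 : IsSum k' t (vl (Poly l (Rw bs [a]))) := by
    refine isSum_congr h1 ?_ ht (Same.refl _)
    have := hlk
    unfold tL at this
    rw [cp_one h0] at this
    exact this
  have h3 : Same (vl (Poly l (Rw bs [a]))) k := isSum_unique h2 hs
  rw [type_iff hl hv hr, fd_append] at h3
  obtain ⟨s, h4, s', h5, h6⟩ := h3
  have h7 : Same (tR (vec a) [a]) sq := by
    unfold tR
    rw [cp_one ha]
    have e2 : back [a] = [neg a] := by simp [back]
    rw [e2]
    exact (sq_x ha).2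
  exact fd_right ((right_unit h5 h7).symm.trans h6) (fd_left hlk h4)

theorem isSum_real {k l s : List V} (h : IsSum k l s) : ∃ w, SAP w ∧ Same (vl w) k := by
  obtain ⟨l1, v, l2, hF, h1, -, -⟩ := h
  exact ⟨_, hF.1, h1⟩

theorem kt_nil_sq {a₀ a : Dir} {bs : List Blk} (h0 : Lat a₀) (ha : Lat a)
    (hv : VC (vec a₀) bs (vec a)) (hk : kt (vec a₀) bs = []) :
    Same (vl (word a₀ bs a)) sq := by
  have hr := (pa_one ha).ra
  have h1 := (type_iff (la_one h0) hv hr (k := vl (word a₀ bs a))).1 (Same.refl _)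
  rw [hk, List.nil_append] at h1
  obtain ⟨s, h2, h3⟩ := h1
  have h7 : Same (tR (vec a) [a]) sq := by
    unfold tR
    rw [cp_one ha]
    have e2 : back [a] = [neg a] := by simp [back]
    rw [e2]
    exact (sq_x ha).2
  have h8 : Same (tL (vec a₀) [neg a₀]) sq := by
    unfold tL
    rw [cp_one h0]
    exact (sq_x h0).2
  exact (Same.symm h3).trans ((right_unit h2 h7).trans h8)

/-- lists of knotted blocks -/
theorem blocks_exist (N : ℕ) : ∀ {k : List V}, TS L M N k →
    ∃ B : List (Bt L M), N ≤ B.length ∧ Fd sq (B.map ty) k := by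
  induction N with
  | zero =>
    intro k h
    exact ⟨[], le_rfl, Same.symm h⟩
  | succ N ih =>
    rintro k ⟨k', t, h1, h2, h3, h4⟩
    obtain ⟨B, hB, hBk⟩ := ih h1
    obtain ⟨a₀, a, bs, σ, σ', g0, g1, g2, g3, g4, g5, g6⟩ := inT_chain h3
    have h5 := fd_chain (isSum_real h4) h4 g0 g1 g2 g6
    have h6 := kb_ty g3
    rw [g4] at h6
    rw [← h6] at h5
    refine ⟨B ++ kb σ bs, ?_, ?_⟩
    · have h7 : kb σ bs ≠ [] := by
        intro h8
        rw [h8, List.map_nil] at h6
        exact h2 (g6.symm.trans (kt_nil_sq g0 g1 g2 h6.symm))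
      have h8 := List.length_pos_iff.2 h7
      rw [List.length_append]
      omega
    · rw [List.map_append, fd_append]
      exact ⟨k', hBk, h5⟩

/-- lists with exactly the maximal number -/
theorem blocks_max {N : ℕ} {k : List V} (h : TS L M N k) (hN : ∀ i, TS L M i k → i ≤ N) :
    ∃ B : List (Bt L M), B.length = N ∧ Fd sq (B.map ty) k := by
  obtain ⟨B, h1, h2⟩ := blocks_exist N h
  refine ⟨B, le_antisymm ?_ h1, h2⟩
  have h3 := ts_fd (L := L) (M := M) (i := 0) (fun t ht => by
    rw [List.mem_map] at ht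
    obtain ⟨y, -, rfl⟩ := ht
    exact ty_ok y) h2 (Same.refl _)
  rw [List.length_map, zero_add] at h3
  exact hN _ h3

/-- the condition on the knotted blocks for the type of the polygon -/
def Cd (k : List V) (σ σ' : Sta L M) (l r : List Dir) (B : List (Bt L M)) : Prop :=
  Fd (tL (df σ) l) (B.map ty ++ [tR (df σ') r]) k

theorem cd_iff {k : List V} {σ σ' : Sta L M} {x : List Dir × List Blk × List Dir}
    (h1 : LOk σ x.1) (h2 : TC σ x.2.1 σ') (h3 : ROk σ' x.2.2) :
    Same (vl (pw3 x)) k ↔ Cd k σ σ' x.1 x.2.2 (kb σ x.2.1) := by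
  obtain ⟨h4, h5⟩ := tc_vc h2
  unfold Cd
  rw [kb_ty h2]
  exact type_iff h1.la h4 h3.ra

end

end KN.ST
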